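import Pool.Agent.R354.LCone
import Pool.Agent.Run7.h432.EP.Near

set_option autoImplicit false

/-!
# Digits of integer combinations of `e` and a real number with growing coefficients
-/

namespace Run7.h432.EP

open Finset
open Pool.Agent.H831R3.LC (dig)
open Pool.Agent.R354.LC

/-- the first `L` digits of `y` in base `b` satisfy a linear recurrence of order `m` -/
def Rec (y : ℝ) (b L m : ℕ) : Prop := ∃ c : ℕ → ℚ, ∀ i, i + m < L →
  (dig y b (i + m + 1) : ℚ) = ∑ l ∈ range m, c l * (dig y b (i + l + 1) : ℚ)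

/-- short recurrences at the scale `X` -/
def SmallR (κ C X y : ℝ) : Prop := ∃ b L m : ℕ, 2 ≤ b ∧ X ≤ L * Real.log b ∧ Rec y b L m ∧
  m * Real.log b < κ * X - C * Real.log b

/-- rational approximations at the scale `X` -/
def App (κ X y : ℝ) : Prop := ∃ (q : ℕ) (p : ℤ), 1 ≤ q ∧ (q : ℝ) ≤ Real.exp (κ * X) ∧
  |(q : ℝ) * y - p| ≤ Real.exp (κ * X - X)

theorem log_pos {b : ℕ} (hb : 2 ≤ b) : 0 < Real.log b :=
  Real.log_pos (by exact_mod_cast (by omega : 1 < b))

theorem app_of_small {κ κ' : ℝ} (hκ : 0 < κ) (h : κ < κ') : ∃ C : ℝ, 0 ≤ C ∧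
    ∀ C' X y : ℝ, C ≤ C' → SmallR κ C' X y → App κ' X y := by
  set ε : ℝ := κ' / κ - 1 with hε
  have hε0 : 0 < ε := by
    rw [hε, sub_pos, lt_div_iff₀ hκ]
    linarith
  have hεκ : (1 + ε) * κ = κ' := by
    rw [hε]
    field_simp
    ring
  obtain ⟨K, hK0, hK⟩ := G_linear ε hε0
  refine ⟨K + 1, by linarith, ?_⟩
  rintro C' X y hC ⟨b, L, m, hb, hX, ⟨c, hc⟩, hm⟩
  obtain ⟨q, p, hq, hlq, hp⟩ := approx_one y b hb L m c hc
  have hl := log_pos hb
  have hbR : (2 : ℝ) ≤ b := by exact_mod_cast hb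
  set l := Real.log b with hll
  have hqR : (1 : ℝ) ≤ q := by exact_mod_cast hq
  have h1 : (K + 1) * l ≤ C' * l := mul_le_mul_of_nonneg_right hC hl.le
  have hCl : 0 ≤ C' * l := by
    have : 0 ≤ (K + 1) * l := by positivity
    linarith
  have h2 : (G m + 1) * l ≤ κ' * X := by
    have h3 := mul_le_mul_of_nonneg_right (hK m) hl.le
    have h4 : (1 + ε) * (m * l) ≤ (1 + ε) * (κ * X - C' * l) :=
      mul_le_mul_of_nonneg_left hm.le (by linarith)
    have h5 : (1 + ε) * (κ * X - C' * l) = κ' * X - C' * l - ε * (C' * l) := by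
      rw [← hεκ]; ring
    have h6 : 0 ≤ ε * (C' * l) := by positivity
    rw [h5] at h4
    have h7 : ((1 + ε) * (m : ℝ) + K) * l = (1 + ε) * (m * l) + K * l := by ring
    rw [h7] at h3
    have h8 : (G m + 1) * l = G m * l + l := by ring
    have h9 : (K + 1) * l = K * l + l := by ring
    linarith
  refine ⟨q, p, hq, ?_, ?_⟩
  · rw [← Real.exp_log (show (0 : ℝ) < q by linarith)]
    apply Real.exp_le_exp.2
    have h8 : (G m + 1) * l = G m * l + l := by ring
    linarith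
  · have h3 : (b : ℝ) ^ L = Real.exp (L * l) := by
      rw [hll, Real.exp_nat_mul, Real.exp_log (by linarith)]
    rw [h3, ← le_div_iff₀ (Real.exp_pos _), ← Real.exp_sub] at hp
    exact hp.trans (Real.exp_le_exp.2 (by linarith))

/-- two independent forms are not both well approximable at the same scale -/
theorem two_forms {κ δ δ' : ℝ} (hκ : 0 < κ) (hδ : 0 ≤ δ) (hδ' : 0 ≤ δ')
    (h : 4 * κ + 3 * δ + δ' < 1) : ∃ X₀ : ℝ, 0 ≤ X₀ ∧ ∀ ξ X : ℝ, X₀ ≤ X →
    ∀ (A B G M A' B' G' M' : ℤ) (y y' : ℝ), |(A : ℝ)| ≤ Real.exp (δ * X) →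
      |(B : ℝ)| ≤ Real.exp (δ * X) → |(A' : ℝ)| ≤ Real.exp (δ * X) →
      |(B' : ℝ)| ≤ Real.exp (δ * X) → 1 ≤ M → 1 ≤ M' → (M : ℝ) ≤ Real.exp (δ' * X) →
      (M' : ℝ) ≤ Real.exp (δ' * X) → (M : ℝ) * y = A * ξ + B * Real.exp 1 + G →
      (M' : ℝ) * y' = A' * ξ + B' * Real.exp 1 + G' → App κ X y → App κ X y' →
      A * B' = A' * B := by
  set s : ℝ := 1 - (4 * κ + 3 * δ + δ') with hs
  have hs0 : 0 < s := by linarith
  have hs1 : s ≤ 1 := by linarith
  obtain ⟨c0, hc0, hmeas⟩ := Pool.Agent.H43R2.Cplx.EMeas.measure (s / 2) (by linarith)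
  refine ⟨2 / s * |Real.log (8 / c0)| + 1, by positivity, ?_⟩
  rintro ξ X hX A B G M A' B' G' M' y y' hA hB hA' hB' hM hM' hMX hMX' hy hy'
    ⟨q, p, hq, hqX, hqy⟩ ⟨q', p', hq', hqX', hqy'⟩
  by_contra hne
  have hX0 : 0 < X := by
    have : 0 ≤ 2 / s * |Real.log (8 / c0)| := by positivity
    linarith
  have hΔ : A' * B - A * B' ≠ 0 := by
    intro h0
    apply hne
    linarith
  obtain ⟨D, hD⟩ : ∃ D : ℕ, D = (A' * B - A * B').natAbs := ⟨_, rfl⟩
  have hD1 : 1 ≤ D := by rw [hD]; exact Int.natAbs_pos.2 hΔ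
  obtain ⟨σ, hσ, hσ'⟩ : ∃ σ : ℤ, |σ| = 1 ∧ (D : ℤ) = σ * (A' * B - A * B') := by
    rcases Int.natAbs_eq (A' * B - A * B') with h | h
    · exact ⟨1, by simp, by rw [hD]; omega⟩
    · exact ⟨-1, by simp, by rw [hD]; omega⟩
  have hσR : |(σ : ℝ)| = 1 := by exact_mod_cast hσ
  have hσ'R : (D : ℝ) = σ * (A' * B - A * B') := by exact_mod_cast hσ'
  have h1 := hmeas (q * q' * D) (Nat.mul_pos (Nat.mul_pos hq hq') hD1)
    (σ * (A' * M * 0 + A' * q' * p * M - A * M' * q * p' - q * q' * (A' * G - A * G')))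
  have h2 : ((q * q' * D : ℕ) : ℝ) * Real.exp 1 -
      ((σ * (A' * M * 0 + A' * q' * p * M - A * M' * q * p' - q * q' * (A' * G - A * G')) : ℤ) :
        ℝ) = σ * (A' * M * q' * (q * y - p) - A * M' * q * (q' * y' - p')) := by
    push_cast
    rw [hσ'R]
    linear_combination (-(σ : ℝ) * q * q' * A') * hy + ((σ : ℝ) * q * q' * A) * hy'
  rw [h2] at h1
  have hqR : (1 : ℝ) ≤ q := by exact_mod_cast hq
  have hqR' : (1 : ℝ) ≤ q' := by exact_mod_cast hq'
  have hMR : (1 : ℝ) ≤ M := by exact_mod_cast hM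
  have hMR' : (1 : ℝ) ≤ M' := by exact_mod_cast hM'
  set E := Real.exp (δ * X) with hE
  set E' := Real.exp (δ' * X) with hE'
  set F := Real.exp (κ * X) with hF
  set T := Real.exp (κ * X - X) with hT
  have hE0 : 0 < E := Real.exp_pos _
  have hE0' : 0 < E' := Real.exp_pos _
  have hF0 : 0 < F := Real.exp_pos _
  have hT0 : 0 < T := Real.exp_pos _
  have h3 : |(σ : ℝ) * (A' * M * q' * (q * y - p) - A * M' * q * (q' * y' - p'))| ≤
      2 * (E * E' * F * T) := by
    rw [abs_mul, hσR, one_mul]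
    refine (abs_sub _ _).trans ?_
    rw [abs_mul, abs_mul, abs_mul, abs_mul, abs_mul, abs_mul, Nat.abs_cast, Nat.abs_cast,
      abs_of_pos (show (0 : ℝ) < M by linarith), abs_of_pos (show (0 : ℝ) < M' by linarith)]
    have e1 : |(A' : ℝ)| * M * q' * |(q : ℝ) * y - p| ≤ E * E' * F * T := by gcongr
    have e2 : |(A : ℝ)| * M' * q * |(q' : ℝ) * y' - p'| ≤ E * E' * F * T := by gcongr
    linarith
  have hDR : (D : ℝ) ≤ 2 * (E * E) := by
    have e1 : (D : ℝ) = |(A' : ℝ) * B - A * B'| := by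
      rw [hD, Nat.cast_natAbs]
      push_cast
      rfl
    rw [e1]
    refine (abs_sub _ _).trans ?_
    rw [abs_mul, abs_mul]
    have e2 : |(A' : ℝ)| * |(B : ℝ)| ≤ E * E := by gcongr
    have e3 : |(A : ℝ)| * |(B' : ℝ)| ≤ E * E := by gcongr
    linarith
  have h4 : ((q * q' * D : ℕ) : ℝ) ≤ 2 * Real.exp ((2 * κ + 2 * δ) * X) := by
    push_cast
    have e1 : (q : ℝ) * q' * D ≤ F * F * (2 * (E * E)) := by gcongr
    have e2 : F * F * (2 * (E * E)) = 2 * Real.exp ((2 * κ + 2 * δ) * X) := by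
      rw [hF, hE, mul_left_comm, ← Real.exp_add, ← Real.exp_add, ← Real.exp_add]
      congr 2
      ring
    linarith
  have h5 : ((q * q' * D : ℕ) : ℝ) ^ (1 + s / 2) ≤
      4 * Real.exp ((1 + s / 2) * ((2 * κ + 2 * δ) * X)) := by
    calc ((q * q' * D : ℕ) : ℝ) ^ (1 + s / 2) ≤
        (2 * Real.exp ((2 * κ + 2 * δ) * X)) ^ (1 + s / 2) :=
          Real.rpow_le_rpow (Nat.cast_nonneg _) h4 (by linarith)
      _ = (2 : ℝ) ^ (1 + s / 2) * Real.exp ((1 + s / 2) * ((2 * κ + 2 * δ) * X)) := by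
          rw [Real.mul_rpow (by norm_num) (Real.exp_pos _).le, ← Real.exp_mul]
          congr 2
          ring
      _ ≤ 4 * Real.exp ((1 + s / 2) * ((2 * κ + 2 * δ) * X)) := by
          apply mul_le_mul_of_nonneg_right _ (Real.exp_pos _).le
          calc (2 : ℝ) ^ (1 + s / 2) ≤ (2 : ℝ) ^ (2 : ℝ) :=
                Real.rpow_le_rpow_of_exponent_le (by norm_num) (by linarith)
            _ = 4 := by norm_num
  have h6 : c0 ≤ 8 * Real.exp (-(s / 2) * X) := by
    calc c0 ≤ _ := h1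
      _ ≤ 4 * Real.exp ((1 + s / 2) * ((2 * κ + 2 * δ) * X)) * (2 * (E * E' * F * T)) :=
          mul_le_mul h5 h3 (abs_nonneg _) (by positivity)
      _ = 8 * Real.exp ((1 + s / 2) * ((2 * κ + 2 * δ) * X) +
            (δ * X + δ' * X + κ * X + (κ * X - X))) := by
          rw [Real.exp_add, Real.exp_add (δ * X + δ' * X + κ * X),
            Real.exp_add (δ * X + δ' * X), Real.exp_add (δ * X)]
          ring
      _ ≤ 8 * Real.exp (-(s / 2) * X) := by
          apply mul_le_mul_of_nonneg_left _ (by norm_num)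
          apply Real.exp_le_exp.2
          have e1 : (1 + s / 2) * ((2 * κ + 2 * δ) * X) +
            (δ * X + δ' * X + κ * X + (κ * X - X)) =
              (s / 2 * (2 * κ + 2 * δ) - s) * X := by
            rw [hs]; ring
          rw [e1]
          apply mul_le_mul_of_nonneg_right _ hX0.le
          have e2 : s / 2 * (2 * κ + 2 * δ) ≤ s / 2 * 1 :=
            mul_le_mul_of_nonneg_left (by linarith) (by linarith)
          linarith
  have h7 : Real.log (8 / c0) < s / 2 * X := by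
    have e1 := le_abs_self (Real.log (8 / c0))
    have e2 : s / 2 * (2 / s * |Real.log (8 / c0)| + 1) ≤ s / 2 * X :=
      mul_le_mul_of_nonneg_left hX (by linarith)
    have e3 : s / 2 * (2 / s * |Real.log (8 / c0)| + 1) = |Real.log (8 / c0)| + s / 2 := by
      field_simp
    linarith
  have h8 : 8 / c0 < Real.exp (s / 2 * X) := by
    rwa [Real.log_lt_iff_lt_exp (by positivity)] at h7
  have h9 : 8 * Real.exp (-(s / 2) * X) < c0 := by
    rw [div_lt_iff₀ hc0] at h8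
    have e1 : -(s / 2) * X = -(s / 2 * X) := by ring
    rw [e1, Real.exp_neg, ← div_eq_mul_inv, div_lt_iff₀ (Real.exp_pos _)]
    linarith
  linarith

theorem near_of_app {κ δ X ξ : ℝ} {A B : ℤ} (hAB : ¬ (A = 0 ∧ B = 0))
    (hA : |(A : ℝ)| ≤ Real.exp (δ * X)) (hB : |(B : ℝ)| ≤ Real.exp (δ * X))
    (h : App κ X (A * ξ + B * Real.exp 1)) :
    Near ξ (Real.exp ((κ + δ) * X)) (Real.exp (κ * X - X)) := by
  obtain ⟨q, p, hq, hqX, hqy⟩ := h
  refine ⟨(-p, q * B, q * A), ?_, ?_, ?_⟩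
  · intro h0
    rw [Prod.ext_iff, Prod.ext_iff] at h0
    obtain ⟨-, h2, h3⟩ := h0
    simp only [Prod.fst_zero, Prod.snd_zero] at h2 h3
    have hq0 : (q : ℤ) ≠ 0 := by exact_mod_cast (by omega : q ≠ 0)
    exact hAB ⟨(mul_eq_zero.1 h3).resolve_left hq0, (mul_eq_zero.1 h2).resolve_left hq0⟩
  · have key : ∀ Z : ℤ, |(Z : ℝ)| ≤ Real.exp (δ * X) →
        (((q : ℤ) * Z).natAbs : ℝ) ≤ Real.exp ((κ + δ) * X) := by
      intro Z hZ
      rw [Nat.cast_natAbs]
      push_cast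
      rw [abs_mul, Nat.abs_cast, add_mul, Real.exp_add]
      exact mul_le_mul hqX hZ (abs_nonneg _) (Real.exp_pos _).le
    unfold height
    simp only
    push_cast
    exact max_le (by exact_mod_cast key B hB) (by exact_mod_cast key A hA)
  · unfold value
    simp only
    have e : (((-p : ℤ) : ℝ)) + ((q * B : ℤ) : ℝ) * Real.exp 1 + ((q * A : ℤ) : ℝ) * ξ =
        q * (A * ξ + B * Real.exp 1) - p := by
      push_cast
      ring
    rw [e]
    exact hqy

end Run7.h432.EP
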