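import Pool.Agent.Run7.h432.EP.Mult

set_option autoImplicit false

/-!
# Integer forms in a real number and in powers of `e`, at all scales
-/

namespace Run7.h432.EP

open Finset

/-- the form with the coefficient vector `v` -/
noncomputable def form {n : ℕ} (e : Fin n → ℤ) (ξ : ℝ) (v : Fin (n + 1) → ℤ) : ℝ :=
  v 0 * ξ + ∑ i : Fin n, (v i.succ : ℝ) * Real.exp (e i)

/-- proportional vectors -/
def Par {m : ℕ} (v w : Fin m → ℤ) : Prop := ∀ i j, v i * w j = v j * w i

theorem forms_two {n : ℕ} (hn : 1 ≤ n) (e : Fin n → ℤ) (he : Function.Injective e)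
    (he0 : ∀ i, e i ≠ 0) {κ δ Λ : ℝ} (hκ : 0 ≤ κ) (hδ : 0 ≤ δ) (hΛ : 1 ≤ Λ)
    (h : ((n : ℝ) * (1 + Λ) + Λ) * (κ + δ) + κ < 1) :
    ∃ X₀ : ℝ, 1 ≤ X₀ ∧ ∀ X X' : ℝ, X₀ ≤ X → X ≤ X' → X' ≤ Λ * X → ∀ (ξ : ℝ)
      (v v' : Fin (n + 1) → ℤ), (∀ i, |(v i : ℝ)| ≤ Real.exp (δ * X)) →
      (∀ i, |(v' i : ℝ)| ≤ Real.exp (δ * X')) → App κ X (form e ξ v) →
      App κ X' (form e ξ v') → ∀ i : Fin n, v 0 * v' i.succ = v' 0 * v i.succ := by
  have hnR : (1 : ℝ) ≤ n := by exact_mod_cast hn
  set s := 1 - (((n : ℝ) * (1 + Λ) + Λ) * (κ + δ) + κ) with hs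
  have hs0 : 0 < s := by linarith
  set η := s / (2 * ((κ + δ) * (1 + Λ) + 1)) with hη
  have hη0 : 0 < η := by positivity
  have hηs : η * ((κ + δ) * (1 + Λ)) ≤ s / 2 := by
    rw [hη, div_mul_eq_mul_div, div_le_iff₀ (by positivity)]
    have : 0 ≤ (κ + δ) * (1 + Λ) := by positivity
    nlinarith
  obtain ⟨c, hc, hmeas⟩ := Pool.Agent.TH768.DG.normal_exp e he he0 η hη0
  set S : ℝ := 1 + ∑ i, Real.exp (e i) with hS
  have hsum0 : 0 ≤ ∑ i, Real.exp (e i) := sum_nonneg fun i _ => (Real.exp_pos _).le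
  have hS1 : 1 ≤ S := by rw [hS]; linarith
  obtain ⟨X₁, hX₁, h1⟩ := no_large hc (C := (2 * S) ^ ((n : ℝ) + η) * 2) (by positivity)
    (show 0 < s / 2 by linarith)
  refine ⟨X₁ + 1, by linarith, ?_⟩
  rintro X X' hX hXX' hX'X ξ v v' hv hv' ⟨q, p, hq, hqX, hqy⟩ ⟨q', p', hq', hqX', hqy'⟩
  by_contra hcon
  push Not at hcon
  obtain ⟨i₀, hi₀⟩ := hcon
  have hX0 : 0 < X := by linarith
  have hX0' : 0 < X' := by linarith
  have h1 := h1 X (by linarith)
  -- the eliminated form
  set D : Fin n → ℤ := fun i => q * q' * (v' 0 * v i.succ - v 0 * v' i.succ) with hD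
  set u : ℤ := -(q' * v' 0 * p - q * v 0 * p') with hu
  have hval : (u : ℝ) + ∑ i, (D i : ℝ) * Real.exp (e i) =
      q' * v' 0 * (q * form e ξ v - p) - q * v 0 * (q' * form e ξ v' - p') := by
    have e1 : ∑ i, (D i : ℝ) * Real.exp (e i) =
        q * q' * v' 0 * ∑ i : Fin n, (v i.succ : ℝ) * Real.exp (e i) -
        q * q' * v 0 * ∑ i : Fin n, (v' i.succ : ℝ) * Real.exp (e i) := by
      rw [mul_sum, mul_sum, ← sum_sub_distrib]
      refine sum_congr rfl fun i _ => ?_
      rw [hD]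
      push_cast
      ring
    rw [e1, hu]
    unfold form
    push_cast
    ring
  set E := Real.exp (δ * X) with hE
  set E' := Real.exp (δ * X') with hE'
  set F := Real.exp (κ * X) with hF
  set F' := Real.exp (κ * X') with hF'
  have hE0 : 0 < E := Real.exp_pos _
  have hE0' : 0 < E' := Real.exp_pos _
  have hF0 : 0 < F := Real.exp_pos _
  have hF0' : 0 < F' := Real.exp_pos _
  set V := Real.exp ((κ + δ) * X' - (1 - κ) * X) with hV
  have hV0 : 0 < V := Real.exp_pos _
  have hVle : |(u : ℝ) + ∑ i, (D i : ℝ) * Real.exp (e i)| ≤ 2 * V := by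
    rw [hval]
    refine (abs_sub _ _).trans ?_
    rw [abs_mul, abs_mul, abs_mul, abs_mul, Nat.abs_cast, Nat.abs_cast]
    have e1 : (q' : ℝ) * |(v' 0 : ℝ)| * |(q : ℝ) * form e ξ v - p| ≤ V := by
      calc (q' : ℝ) * |(v' 0 : ℝ)| * |(q : ℝ) * form e ξ v - p| ≤
            F' * E' * Real.exp (κ * X - X) := by
              have := hv' 0
              gcongr
        _ = V := by
            rw [hF', hE', hV, ← Real.exp_add, ← Real.exp_add]
            congr 1
            ring
    have e2 : (q : ℝ) * |(v 0 : ℝ)| * |(q' : ℝ) * form e ξ v' - p'| ≤ V := by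
      calc (q : ℝ) * |(v 0 : ℝ)| * |(q' : ℝ) * form e ξ v' - p'| ≤
            F * E * Real.exp (κ * X' - X') := by
              have := hv 0
              gcongr
        _ = Real.exp ((κ + δ) * X - (1 - κ) * X') := by
            rw [hF, hE, ← Real.exp_add, ← Real.exp_add]
            congr 1
            ring
        _ ≤ V := by
            apply Real.exp_le_exp.2
            have h2 : (κ + δ) * X ≤ (κ + δ) * X' := mul_le_mul_of_nonneg_left hXX' (by linarith)
            have h3 : κ ≤ 1 := by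
              have : 0 ≤ ((n : ℝ) * (1 + Λ) + Λ) * (κ + δ) := by positivity
              linarith
            have h4 : (1 - κ) * X ≤ (1 - κ) * X' := mul_le_mul_of_nonneg_left hXX' (by linarith)
            linarith
    linarith
  set H : ℝ := 2 * S * Real.exp ((κ + δ) * (X + X')) with hH
  have hex1 : 1 ≤ Real.exp ((κ + δ) * (X + X')) := Real.one_le_exp (by positivity)
  have hD' : ∀ i, |(D i : ℝ)| ≤ 2 * Real.exp ((κ + δ) * (X + X')) := by
    intro i
    have e0 : (D i : ℝ) = q * q' * (v' 0 * v i.succ - v 0 * v' i.succ) := by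
      rw [hD]
      push_cast
      ring
    rw [e0, abs_mul, abs_mul, Nat.abs_cast, Nat.abs_cast]
    have e1 : |(v' 0 : ℝ) * v i.succ - v 0 * v' i.succ| ≤ 2 * (E * E') := by
      refine (abs_sub _ _).trans ?_
      rw [abs_mul, abs_mul]
      have a1 : |(v' 0 : ℝ)| * |(v i.succ : ℝ)| ≤ E' * E :=
        mul_le_mul (hv' 0) (hv _) (abs_nonneg _) hE0'.le
      have a2 : |(v 0 : ℝ)| * |(v' i.succ : ℝ)| ≤ E * E' :=
        mul_le_mul (hv 0) (hv' _) (abs_nonneg _) hE0.le
      linarith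
    calc (q : ℝ) * q' * |(v' 0 : ℝ) * v i.succ - v 0 * v' i.succ| ≤ F * F' * (2 * (E * E')) := by
          gcongr
      _ = 2 * Real.exp ((κ + δ) * (X + X')) := by
          rw [hF, hF', hE, hE', mul_left_comm, ← Real.exp_add, ← Real.exp_add, ← Real.exp_add]
          congr 2
          ring
  have hDH : ∀ i, |(D i : ℝ)| ≤ H := by
    intro i
    refine (hD' i).trans ?_
    rw [hH]
    nlinarith [Real.exp_pos ((κ + δ) * (X + X'))]
  have huH : |(u : ℝ)| ≤ H := by
    have e1 : (u : ℝ) = ((u : ℝ) + ∑ i, (D i : ℝ) * Real.exp (e i)) -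
        ∑ i, (D i : ℝ) * Real.exp (e i) := by ring
    have e2 : |∑ i, (D i : ℝ) * Real.exp (e i)| ≤
        2 * Real.exp ((κ + δ) * (X + X')) * ∑ i, Real.exp (e i) := by
      refine (abs_sum_le_sum_abs _ _).trans ?_
      rw [mul_sum]
      refine sum_le_sum fun i _ => ?_
      rw [abs_mul, abs_of_pos (Real.exp_pos _)]
      exact mul_le_mul_of_nonneg_right (hD' i) (Real.exp_pos _).le
    have e3 : V ≤ Real.exp ((κ + δ) * (X + X')) := by
      apply Real.exp_le_exp.2
      have h3 : κ ≤ 1 := by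
        have : 0 ≤ ((n : ℝ) * (1 + Λ) + Λ) * (κ + δ) := by positivity
        linarith
      have h4 : 0 ≤ (1 - κ) * X := mul_nonneg (by linarith) hX0.le
      have h5 : 0 ≤ (κ + δ) * X := by positivity
      have h6 : (κ + δ) * (X + X') = (κ + δ) * X + (κ + δ) * X' := by ring
      linarith
    rw [e1]
    refine (abs_sub _ _).trans ?_
    rw [hH, hS]
    nlinarith
  have hH1 : 1 ≤ H := by
    rw [hH]
    nlinarith
  have h2 := hmeas u D (Or.inr (fun h0 => by
    have h3 := congrFun h0 i₀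
    rw [hD] at h3
    simp only [Pi.zero_apply] at h3
    have hqq : (q : ℤ) * q' ≠ 0 := mul_ne_zero (by exact_mod_cast (by omega : q ≠ 0))
      (by exact_mod_cast (by omega : q' ≠ 0))
    have h4 := (mul_eq_zero.1 h3).resolve_left hqq
    apply hi₀
    linarith)) H hH1 huH hDH
  have h3 : c ≤ (2 * S) ^ ((n : ℝ) + η) * 2 * Real.exp (-(s / 2 * X)) := by
    calc c ≤ H ^ ((n : ℝ) + η) * |(u : ℝ) + ∑ i, (D i : ℝ) * Real.exp (e i)| := h2
      _ ≤ H ^ ((n : ℝ) + η) * (2 * V) := by gcongr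
      _ = (2 * S) ^ ((n : ℝ) + η) * 2 *
            Real.exp ((κ + δ) * (X + X') * ((n : ℝ) + η) + ((κ + δ) * X' - (1 - κ) * X)) := by
          rw [hH, Real.mul_rpow (by positivity) (Real.exp_pos _).le, ← Real.exp_mul, hV,
            Real.exp_add]
          ring
      _ ≤ (2 * S) ^ ((n : ℝ) + η) * 2 * Real.exp (-(s / 2 * X)) := by
          apply mul_le_mul_of_nonneg_left _ (by positivity)
          apply Real.exp_le_exp.2
          have a1 : (κ + δ) * (X + X') ≤ (κ + δ) * ((1 + Λ) * X) :=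
            mul_le_mul_of_nonneg_left (by linarith) (by linarith)
          have a2 : (κ + δ) * X' ≤ (κ + δ) * (Λ * X) :=
            mul_le_mul_of_nonneg_left hX'X (by linarith)
          have a3 : (κ + δ) * (X + X') * ((n : ℝ) + η) ≤
              (κ + δ) * ((1 + Λ) * X) * ((n : ℝ) + η) :=
            mul_le_mul_of_nonneg_right a1 (by positivity)
          have a4 : (κ + δ) * ((1 + Λ) * X) * ((n : ℝ) + η) + (κ + δ) * (Λ * X) - (1 - κ) * X =
              (η * ((κ + δ) * (1 + Λ)) - s) * X := by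
            rw [hs]
            ring
          have a5 : (η * ((κ + δ) * (1 + Λ)) - s) * X ≤ (-(s / 2)) * X :=
            mul_le_mul_of_nonneg_right (by linarith) hX0.le
          linarith
  linarith

/-- a small form contains `ξ` -/
theorem form_ne {n : ℕ} (hn : 1 ≤ n) (e : Fin n → ℤ) (he : Function.Injective e)
    (he0 : ∀ i, e i ≠ 0) {κ δ Λ : ℝ} (hκ : 0 ≤ κ) (hδ : 0 ≤ δ) (hΛ : 1 ≤ Λ)
    (h : ((n : ℝ) * (1 + Λ) + Λ) * (κ + δ) + κ < 1) :
    ∃ X₀ : ℝ, 1 ≤ X₀ ∧
      (∀ X : ℝ, X₀ ≤ X → ∀ (ξ : ℝ) (v : Fin (n + 1) → ℤ), v ≠ 0 →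
        (∀ i, |(v i : ℝ)| ≤ Real.exp (δ * X)) → App κ X (form e ξ v) → v 0 ≠ 0) ∧
      ∀ X X' : ℝ, X₀ ≤ X → X ≤ X' → X' ≤ Λ * X → ∀ (ξ : ℝ)
      (v v' : Fin (n + 1) → ℤ), v ≠ 0 → v' ≠ 0 → (∀ i, |(v i : ℝ)| ≤ Real.exp (δ * X)) →
      (∀ i, |(v' i : ℝ)| ≤ Real.exp (δ * X')) → App κ X (form e ξ v) →
      App κ X' (form e ξ v') → Par v v' := by
  obtain ⟨X₀, hX₀, h1⟩ := forms_two hn e he he0 hκ hδ hΛ h
  have key : ∀ X : ℝ, X₀ ≤ X → ∀ (ξ : ℝ) (v : Fin (n + 1) → ℤ), v ≠ 0 →
        (∀ i, |(v i : ℝ)| ≤ Real.exp (δ * X)) → App κ X (form e ξ v) → v 0 ≠ 0 := by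
    intro X hX ξ v hv hvX hApp hv0
    have hX0 : 0 < X := by linarith
    have hform : form e 0 v = form e ξ v := by
      unfold form
      rw [hv0]
      simp
    have h2 := h1 X X hX le_rfl (by nlinarith) 0 v (fun i => if i = 0 then 1 else 0) hvX
      (fun i => by
        have h3 : 1 ≤ Real.exp (δ * X) := Real.one_le_exp (by positivity)
        split_ifs
        · simpa using h3
        · simpa using le_trans zero_le_one h3) (by rw [hform]; exact hApp) (by
        have h3 : form e 0 (fun i : Fin (n + 1) => if i = 0 then (1 : ℤ) else 0) = 0 := by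
          unfold form
          simp [Fin.succ_ne_zero]
        rw [h3]
        refine ⟨1, 0, le_rfl, ?_, ?_⟩
        · rw [Nat.cast_one]
          exact Real.one_le_exp (by positivity)
        · simp only [mul_zero, Int.cast_zero, sub_zero, abs_zero]
          exact (Real.exp_pos _).le)
    apply hv
    funext i
    refine Fin.cases ?_ (fun j => ?_) i
    · exact hv0
    · have h3 := h2 j
      simp only [Fin.succ_ne_zero, if_false, mul_zero, if_true, one_mul] at h3
      exact h3.symm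
  refine ⟨X₀, hX₀, key, ?_⟩
  intro X X' hX hXX' hX'X ξ v v' hv hv' hvX hvX' hApp hApp'
  have h2 := h1 X X' hX hXX' hX'X ξ v v' hvX hvX' hApp hApp'
  have hv0 := key X hX ξ v hv hvX hApp
  have h3 : ∀ i, v 0 * v' i = v' 0 * v i := by
    intro i
    refine Fin.cases ?_ (fun j => ?_) i
    · ring
    · exact h2 j
  intro i j
  apply mul_left_cancel₀ hv0
  linear_combination v i * h3 j - v j * h3 i

/-- scales which are separated by a factor -/
theorem card_scales {m : ℕ} {Λ X : ℝ} (hΛ : 1 < Λ) (Y : Fin m → ℝ) (hY1 : ∀ i, 1 ≤ Y i)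
    (hYX : ∀ i, Y i ≤ X) (hsep : ∀ i j, i ≠ j → Y i ≤ Y j → Λ * Y i < Y j) (hX : 1 ≤ X) :
    (m : ℝ) ≤ Real.log X / Real.log Λ + 1 := by
  classical
  have hl : 0 < Real.log Λ := Real.log_pos hΛ
  have hinj : Function.Injective Y := by
    intro i j hij
    by_contra hne
    have h1 := hsep i j hne hij.le
    have h2 := hY1 i
    nlinarith
  -- induction over finite sets of indices
  have key : ∀ s : Finset (Fin m), s.Nonempty → ∃ i ∈ s, Λ ^ (s.card - 1) ≤ Y i := by
    intro s
    induction s using Finset.strongInduction with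
    | _ s ih =>
      intro hs
      obtain ⟨i, hi, hmax⟩ := Finset.exists_max_image s Y hs
      refine ⟨i, hi, ?_⟩
      rcases (s.erase i).eq_empty_or_nonempty with h0 | h0
      · have h1 : s.card = 1 := by
          have := Finset.card_erase_of_mem hi
          rw [h0, card_empty] at this
          have := Finset.card_pos.2 hs
          omega
        rw [h1]
        simpa using hY1 i
      · obtain ⟨j, hj, hjY⟩ := ih (s.erase i) (Finset.erase_ssubset hi) h0
        have hji : j ≠ i := Finset.ne_of_mem_erase hj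
        have h1 := hsep j i hji (hmax j (Finset.mem_of_mem_erase hj))
        have hc := Finset.card_erase_of_mem hi
        have hc' := Finset.card_pos.2 h0
        have h2 : s.card - 1 = ((s.erase i).card - 1) + 1 := by omega
        rw [h2, pow_succ]
        nlinarith
  rcases Nat.eq_zero_or_pos m with hm | hm
  · subst hm
    have : 0 ≤ Real.log X / Real.log Λ := div_nonneg (Real.log_nonneg hX) hl.le
    push_cast
    linarith
  · have : Nonempty (Fin m) := ⟨⟨0, hm⟩⟩
    obtain ⟨i, -, hi⟩ := key univ univ_nonempty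
    rw [card_univ, Fintype.card_fin] at hi
    have h1 : Λ ^ (m - 1) ≤ X := hi.trans (hYX i)
    have h2 := Real.log_le_log (by positivity) h1
    rw [Real.log_pow, Nat.cast_sub hm] at h2
    rw [← sub_le_iff_le_add, le_div_iff₀ hl]
    push_cast at h2
    linarith

/-- a number with good rational approximations along a sequence of scales -/
theorem rat_of_seq {a b K Λ z : ℝ} (ha : 0 ≤ a) (hΛ : 1 ≤ Λ) (hab : a * Λ < b) (hK : 0 ≤ K)
    (Y : ℕ → ℝ) (hY0 : 0 ≤ Y 0) (hY : ∀ i, Y i + 1 ≤ Y (i + 1)) (hYΛ : ∀ i, Y (i + 1) ≤ Λ * Y i)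
    (Q P : ℕ → ℤ) (hQ0 : ∀ i, Q i ≠ 0) (hQ : ∀ i, |(Q i : ℝ)| ≤ Real.exp (a * Y i))
    (hP : ∀ i, |(Q i : ℝ) * z - P i| ≤ K * Real.exp (-(b * Y i))) :
    ∃ Q P : ℤ, Q ≠ 0 ∧ (Q : ℝ) * z = P := by
  set s := b - a * Λ with hs
  have hs0 : 0 < s := by linarith
  have hb0 : 0 < b := lt_of_le_of_lt (by positivity) hab
  have hYi : ∀ i : ℕ, (i : ℝ) ≤ Y i := by
    intro i
    induction i with
    | zero => simpa using hY0
    | succ i ih =>
      have := hY i
      push_cast
      linarith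
  have hYmono : ∀ i j : ℕ, i ≤ j → Y i ≤ Y j := by
    intro i j hij
    induction j, hij using Nat.le_induction with
    | base => exact le_rfl
    | succ j hij ih => exact ih.trans (by have := hY j; linarith)
  obtain ⟨X₁, hX₁, h1⟩ := no_large one_pos (C := 2 * K + 1) (by positivity) hs0
  obtain ⟨N, hN⟩ := exists_nat_ge X₁
  have hstep : ∀ i, N ≤ i → Q (i + 1) * P i = Q i * P (i + 1) := by
    intro i hi
    have hXi : X₁ ≤ Y i := by
      have h2 := hYi N
      have h3 := hYmono N i hi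
      linarith
    have hYi0 : 0 ≤ Y i := hX₁.trans hXi
    have h2 := h1 (Y i) hXi
    have e1 := hQ i
    have e2 := hP i
    have e3 := hQ (i + 1)
    have e4 := hP (i + 1)
    have e5 : |((Q (i + 1) * P i - Q i * P (i + 1) : ℤ) : ℝ)| < 1 := by
      have e6 : ((Q (i + 1) * P i - Q i * P (i + 1) : ℤ) : ℝ) =
          Q i * ((Q (i + 1) : ℝ) * z - P (i + 1)) - Q (i + 1) * ((Q i : ℝ) * z - P i) := by
        push_cast
        ring
      rw [e6]
      have m1 : Real.exp (a * Y (i + 1)) ≤ Real.exp (a * Λ * Y i) := by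
        apply Real.exp_le_exp.2
        rw [mul_assoc]
        exact mul_le_mul_of_nonneg_left (hYΛ i) ha
      have m2 : Real.exp (a * Y i) ≤ Real.exp (a * Λ * Y i) := by
        apply Real.exp_le_exp.2
        rw [mul_assoc]
        apply mul_le_mul_of_nonneg_left _ ha
        nlinarith
      have m3 : K * Real.exp (-(b * Y (i + 1))) ≤ K * Real.exp (-(b * Y i)) := by
        apply mul_le_mul_of_nonneg_left _ hK
        apply Real.exp_le_exp.2
        have : b * Y i ≤ b * Y (i + 1) :=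
          mul_le_mul_of_nonneg_left (hYmono i (i + 1) (Nat.le_succ i)) hb0.le
        linarith
      calc |(Q i : ℝ) * ((Q (i + 1) : ℝ) * z - P (i + 1)) - Q (i + 1) * ((Q i : ℝ) * z - P i)| ≤
            |(Q i : ℝ)| * |(Q (i + 1) : ℝ) * z - P (i + 1)| +
              |(Q (i + 1) : ℝ)| * |(Q i : ℝ) * z - P i| := by
            refine (abs_sub _ _).trans ?_
            rw [abs_mul, abs_mul]
        _ ≤ Real.exp (a * Λ * Y i) * (K * Real.exp (-(b * Y i))) +
              Real.exp (a * Λ * Y i) * (K * Real.exp (-(b * Y i))) := by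
            have g1 := e1.trans m2
            have g2 := e4.trans m3
            have g3 := e3.trans m1
            gcongr
        _ = 2 * K * Real.exp (-(s * Y i)) := by
            have : Real.exp (a * Λ * Y i) * Real.exp (-(b * Y i)) = Real.exp (-(s * Y i)) := by
              rw [← Real.exp_add, hs]
              congr 1
              ring
            rw [← this]
            ring
        _ ≤ (2 * K + 1) * Real.exp (-(s * Y i)) := by
            have := Real.exp_pos (-(s * Y i))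
            nlinarith
        _ < 1 := h2
    have e7 : |Q (i + 1) * P i - Q i * P (i + 1)| < 1 := by exact_mod_cast e5
    have e8 := Int.abs_lt_one_iff.1 e7
    linarith
  have hall : ∀ i, N ≤ i → Q i * P N = P i * Q N := by
    intro i hi
    induction i, hi using Nat.le_induction with
    | base => ring
    | succ i hi ih =>
      apply mul_left_cancel₀ (hQ0 i)
      have := hstep i hi
      calc Q i * (Q (i + 1) * P N) = Q (i + 1) * (Q i * P N) := by ring
        _ = Q (i + 1) * (P i * Q N) := by rw [ih]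
        _ = (Q (i + 1) * P i) * Q N := by ring
        _ = (Q i * P (i + 1)) * Q N := by rw [this]
        _ = Q i * (P (i + 1) * Q N) := by ring
  refine ⟨Q N, P N, hQ0 N, ?_⟩
  by_contra hne
  have hv : 0 < |(Q N : ℝ) * z - P N| := abs_pos.2 (sub_ne_zero.2 hne)
  obtain ⟨X₂, hX₂, h2⟩ := no_large (c := |(Q N : ℝ) * z - P N|) (C := |(Q N : ℝ)| * K + 1) hv
    (by positivity) hb0
  obtain ⟨M, hM⟩ := exists_nat_ge X₂
  have hXi : X₂ ≤ Y (max N M) := by
    have h3 := hYi (max N M)
    have h4 : (M : ℝ) ≤ ((max N M : ℕ) : ℝ) := by exact_mod_cast le_max_right _ _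
    linarith
  set i := max N M with hi
  have hNi : N ≤ i := le_max_left _ _
  have h3 := h2 _ hXi
  have e2 : (Q i : ℝ) * ((Q N : ℝ) * z - P N) = Q N * ((Q i : ℝ) * z - P i) := by
    have := hall i hNi
    have e3 : (Q i : ℝ) * P N = P i * Q N := by exact_mod_cast this
    linear_combination -e3
  have e4 : |(Q i : ℝ)| * |(Q N : ℝ) * z - P N| = |(Q N : ℝ)| * |(Q i : ℝ) * z - P i| := by
    rw [← abs_mul, e2, abs_mul]
  have e5 : (1 : ℝ) ≤ |(Q i : ℝ)| := by exact_mod_cast Int.one_le_abs (hQ0 i)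
  have e6 : |(Q N : ℝ) * z - P N| ≤ (|(Q N : ℝ)| * K + 1) * Real.exp (-(b * Y i)) := by
    calc |(Q N : ℝ) * z - P N| = 1 * |(Q N : ℝ) * z - P N| := (one_mul _).symm
      _ ≤ |(Q i : ℝ)| * |(Q N : ℝ) * z - P N| := by gcongr
      _ = |(Q N : ℝ)| * |(Q i : ℝ) * z - P i| := e4
      _ ≤ |(Q N : ℝ)| * (K * Real.exp (-(b * Y i))) := by
          have := hP i
          gcongr
      _ ≤ (|(Q N : ℝ)| * K + 1) * Real.exp (-(b * Y i)) := by
          have := Real.exp_pos (-(b * Y i))
          nlinarith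
  linarith

end Run7.h432.EP
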