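import Pool.Agent.Run7.h432.EP.Few

set_option autoImplicit false

/-!
# Windows of scales without small forms
-/

namespace Run7.h432.EP

open Finset

/-- the vector `v` gives a well approximable form at the scale `Y` -/
def AV {n : ℕ} (e : Fin n → ℤ) (ξ κ δ Y : ℝ) (v : Fin (n + 1) → ℤ) : Prop :=
  v ≠ 0 ∧ (∀ i, |(v i : ℝ)| ≤ Real.exp (δ * Y)) ∧ App κ Y (form e ξ v)

theorem windows {n : ℕ} (hn : 1 ≤ n) (e : Fin n → ℤ) (he : Function.Injective e)
    (he0 : ∀ i, e i ≠ 0) {κ δ Λ : ℝ} (hκ : 0 ≤ κ) (hδ : 0 ≤ δ) (hΛ : 1 ≤ Λ)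
    (h : ((n : ℝ) * (1 + Λ) + Λ) * (κ + δ) + κ < 1) (ξ X₀ : ℝ)
    (hex : ∀ X, X₀ ≤ X → ∃ Y, X ≤ Y ∧ Y ≤ Λ * X ∧ ∃ v, AV e ξ κ δ Y v) :
    ∃ v : Fin (n + 1) → ℤ, v ≠ 0 ∧ ∃ G : ℤ, form e ξ v = G := by
  have hnR : (1 : ℝ) ≤ n := by exact_mod_cast hn
  set s := 1 - (((n : ℝ) * (1 + Λ) + Λ) * (κ + δ) + κ) with hs
  have hs0 : 0 < s := by linarith
  set τ := s / (2 * (((n : ℝ) + 1) * (κ + δ) + 1)) with hτ
  have hτ0 : 0 < τ := by positivity
  have hτs : τ * (((n : ℝ) + 1) * (κ + δ)) ≤ s / 2 := by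
    rw [hτ, div_mul_eq_mul_div, div_le_iff₀ (by positivity)]
    have : 0 ≤ ((n : ℝ) + 1) * (κ + δ) := by positivity
    nlinarith
  set Λ₁ := Λ + τ with hΛ₁
  have h' : ((n : ℝ) * (1 + Λ₁) + Λ₁) * (κ + δ) + κ < 1 := by
    have e1 : ((n : ℝ) * (1 + Λ₁) + Λ₁) * (κ + δ) + κ =
        ((n : ℝ) * (1 + Λ) + Λ) * (κ + δ) + κ + τ * (((n : ℝ) + 1) * (κ + δ)) := by
      rw [hΛ₁]
      ring
    rw [e1]
    linarith
  have hΛ₁1 : 1 ≤ Λ₁ := by linarith
  obtain ⟨X₁, hX₁, hne, hpar⟩ := form_ne hn e he he0 hκ hδ hΛ₁1 h'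
  set X₂ := max (max X₀ X₁) (Λ / τ) with hX₂
  have hX₂0 : X₀ ≤ X₂ := (le_max_left _ _).trans (le_max_left _ _)
  have hX₂1 : X₁ ≤ X₂ := (le_max_right _ _).trans (le_max_left _ _)
  have hX₂τ : Λ / τ ≤ X₂ := le_max_right _ _
  have hnext : ∀ Y, X₂ ≤ Y → ∃ Y', Y + 1 ≤ Y' ∧ Y' ≤ Λ₁ * Y ∧ ∃ v, AV e ξ κ δ Y' v := by
    intro Y hY
    obtain ⟨Y', h1, h2, h3⟩ := hex (Y + 1) (by linarith)
    refine ⟨Y', h1, ?_, h3⟩
    have h4 : Λ ≤ τ * Y := by
      have := hX₂τ.trans hY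
      rw [div_le_iff₀ hτ0] at this
      linarith
    have h5 : Λ₁ * Y = Λ * Y + τ * Y := by rw [hΛ₁]; ring
    linarith
  choose! g hg1 hg2 hg3 using hnext
  obtain ⟨Y₀, hY₀, -, hY₀v⟩ := hex X₂ hX₂0
  set Y : ℕ → ℝ := fun i => g^[i] Y₀ with hYdef
  have hYs : ∀ i, Y (i + 1) = g (Y i) := fun i => by
    rw [hYdef]
    simp only [Function.iterate_succ', Function.comp]
  have hYX : ∀ i, X₂ ≤ Y i := by
    intro i
    induction i with
    | zero => exact hY₀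
    | succ i ih =>
      rw [hYs]
      have := hg1 (Y i) ih
      linarith
  have hYv : ∀ i, ∃ v, AV e ξ κ δ (Y i) v := by
    intro i
    cases i with
    | zero => exact hY₀v
    | succ i =>
      rw [hYs]
      exact hg3 (Y i) (hYX i)
  choose v hv0 hvY hvA using hYv
  have hY1 : ∀ i, Y i + 1 ≤ Y (i + 1) := fun i => by rw [hYs]; exact hg1 _ (hYX i)
  have hY2 : ∀ i, Y (i + 1) ≤ Λ₁ * Y i := fun i => by rw [hYs]; exact hg2 _ (hYX i)
  have hvn : ∀ i, v i 0 ≠ 0 := fun i =>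
    hne (Y i) (hX₂1.trans (hYX i)) ξ (v i) (hv0 i) (hvY i) (hvA i)
  have hvp : ∀ i, Par (v i) (v (i + 1)) := fun i =>
    hpar (Y i) (Y (i + 1)) (hX₂1.trans (hYX i)) (by have := hY1 i; linarith) (hY2 i) ξ (v i)
      (v (i + 1)) (hv0 i) (hv0 (i + 1)) (hvY i) (hvY (i + 1)) (hvA i) (hvA (i + 1))
  have hall : ∀ i j, v 0 0 * v i j = v 0 j * v i 0 := by
    intro i
    induction i with
    | zero => intro j; ring
    | succ i ih =>
      intro j
      apply mul_left_cancel₀ (hvn i)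
      have h1 := hvp i 0 j
      have h2 := ih j
      linear_combination v 0 0 * h1 + v (i + 1) 0 * h2
  -- the number `z`
  have hform : ∀ i, (v 0 0 : ℝ) * form e ξ (v i) = v i 0 * form e ξ (v 0) := by
    intro i
    unfold form
    rw [mul_add, mul_add, mul_sum, mul_sum]
    congr 1
    · ring
    · refine sum_congr rfl fun j _ => ?_
      have h1 := hall i j.succ
      have h2 : (v 0 0 : ℝ) * v i j.succ = v 0 j.succ * v i 0 := by exact_mod_cast h1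
      linear_combination Real.exp (e j) * h2
  choose q p hq hqY hqp using hvA
  have hab : (κ + δ) * Λ₁ < 1 - κ := by
    have h1 : 0 ≤ (n : ℝ) * (1 + Λ₁) * (κ + δ) := by positivity
    have h2 : ((n : ℝ) * (1 + Λ₁) + Λ₁) * (κ + δ) + κ =
        (n : ℝ) * (1 + Λ₁) * (κ + δ) + (κ + δ) * Λ₁ + κ := by ring
    linarith
  obtain ⟨Q, P, hQ, hQP⟩ := rat_of_seq (a := κ + δ) (b := 1 - κ) (K := |(v 0 0 : ℝ)|)
    (z := form e ξ (v 0)) (by linarith) hΛ₁1 hab (abs_nonneg _) Y (by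
      have := hYX 0
      linarith) hY1 hY2 (fun i => q i * v i 0) (fun i => p i * v 0 0)
    (fun i => mul_ne_zero (by exact_mod_cast (by have := hq i; omega : q i ≠ 0)) (hvn i))
    (fun i => by
      push_cast
      rw [abs_mul, Nat.abs_cast, add_mul, Real.exp_add]
      exact mul_le_mul (hqY i) (hvY i 0) (abs_nonneg _) (Real.exp_pos _).le)
    (fun i => by
      have h1 : ((q i * v i 0 : ℤ) : ℝ) * form e ξ (v 0) - ((p i * v 0 0 : ℤ) : ℝ) =
          v 0 0 * ((q i : ℝ) * form e ξ (v i) - p i) := by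
        push_cast
        linear_combination (-(q i : ℝ)) * hform i
      rw [h1, abs_mul]
      apply mul_le_mul_of_nonneg_left _ (abs_nonneg _)
      have h2 : -((1 - κ) * Y i) = κ * Y i - Y i := by ring
      rw [h2]
      exact hqp i)
  refine ⟨fun j => Q * v 0 j, ?_, P, ?_⟩
  · intro h0
    have h1 := congrFun h0 0
    simp only [Pi.zero_apply] at h1
    exact (mul_ne_zero hQ (hvn 0)) h1
  · rw [← hQP]
    unfold form
    rw [mul_add, mul_sum]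
    push_cast
    congr 1
    · ring
    · exact sum_congr rfl fun j _ => by ring

end Run7.h432.EP
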