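import Pool.Agent.W472.AC.EMeas2
import Pool.Agent.Run7.h432.EP.Basic

set_option autoImplicit false

/-!
# Integer forms in the coefficients of a polynomial which vanishes at `e`
-/

namespace Run7.h432.EP

open Finset Polynomial Matrix

/-- rational approximations at the scale `X` -/
def App2 (a b X y : ℝ) : Prop := ∃ (q : ℕ) (p : ℤ), 1 ≤ q ∧ (q : ℝ) ≤ Real.exp (a * X) ∧
  |(q : ℝ) * y - p| ≤ Real.exp (-(b * X))

theorem det_bound {n : ℕ} (A : Matrix (Fin n) (Fin n) ℤ) {E : ℝ}
    (h : ∀ i j, |(A i j : ℝ)| ≤ E) : |(A.det : ℝ)| ≤ (n.factorial : ℝ) * E ^ n := by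
  have h1 : ((A.det : ℤ) : ℝ) = (A.map (Int.castRingHom ℝ)).det := by
    have := RingHom.map_det (Int.castRingHom ℝ) A
    rw [← RingHom.mapMatrix_apply, ← this]
    rfl
  have h2 := Matrix.det_le (A := A.map (Int.castRingHom ℝ)) (abv := AbsoluteValue.abs) (x := E)
    (fun i j => by simpa using h i j)
  rw [← h1] at h2
  simpa [Fintype.card_fin, nsmul_eq_mul] using h2

theorem adj_bound {n : ℕ} (A : Matrix (Fin n) (Fin n) ℤ) {E : ℝ} (hE : 1 ≤ E)
    (h : ∀ i j, |(A i j : ℝ)| ≤ E) (i j : Fin n) :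
    |(A.adjugate i j : ℝ)| ≤ (n.factorial : ℝ) * E ^ n := by
  rw [Matrix.adjugate_apply]
  apply det_bound
  intro k l
  rw [Matrix.updateRow_apply]
  split_ifs
  · rw [Pi.single_apply]
    split_ifs
    · simpa using hE
    · simpa using le_trans zero_le_one hE
  · exact h k l

/-- the elimination of the numbers `y j` -/
theorem elim {n : ℕ} (y : Fin n → ℝ) (A : Matrix (Fin n) (Fin n) ℤ) (G p : Fin n → ℤ)
    (q : Fin n → ℕ) (j : Fin n) :
    ((∏ i, q i : ℕ) : ℝ) * A.det * y j =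
      ((∑ i, A.adjugate j i * ((∏ l ∈ univ.erase i, q l : ℕ) : ℤ) * (p i - q i * G i) : ℤ) : ℝ) +
      ∑ i, (A.adjugate j i : ℝ) * ((∏ l ∈ univ.erase i, q l : ℕ) : ℝ) *
        ((q i : ℝ) * (∑ k, A i k * y k + G i) - p i) := by
  have h1 : ∀ k, ∑ i, A.adjugate j i * A i k = if j = k then A.det else 0 := by
    intro k
    have h := congrFun (congrFun (Matrix.adjugate_mul A) j) k
    rw [Matrix.mul_apply, Matrix.smul_apply, Matrix.one_apply, smul_eq_mul] at h
    rw [h]
    split_ifs <;> simp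
  have h2 : ∑ i, (A.adjugate j i : ℝ) * ∑ k, A i k * y k = A.det * y j := by
    have h3 : ∑ i, (A.adjugate j i : ℝ) * ∑ k, A i k * y k =
        ∑ k, (∑ i, (A.adjugate j i : ℝ) * A i k) * y k := by
      simp only [mul_sum, sum_mul]
      rw [sum_comm]
      exact sum_congr rfl fun k _ => sum_congr rfl fun i _ => by ring
    rw [h3]
    have h4 : ∀ k, (∑ i, (A.adjugate j i : ℝ) * A i k) = if j = k then (A.det : ℝ) else 0 := by
      intro k
      have h5 : ((∑ i, A.adjugate j i * A i k : ℤ) : ℝ) = ((if j = k then A.det else 0 : ℤ) : ℝ) := by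
        rw [h1 k]
      rw [Int.cast_sum] at h5
      simp only [Int.cast_mul] at h5
      rw [h5]
      split_ifs
      · rfl
      · exact Int.cast_zero
    simp only [h4, ite_mul, zero_mul]
    rw [Finset.sum_ite_eq, if_pos (mem_univ _)]
  have h5 : ∀ i, ((∏ l, q l : ℕ) : ℝ) = ((∏ l ∈ univ.erase i, q l : ℕ) : ℝ) * q i := by
    intro i
    rw [← Nat.cast_mul, Finset.prod_erase_mul _ _ (mem_univ i)]
  rw [mul_assoc, ← h2, mul_sum]
  push_cast
  rw [← sum_add_distrib]
  refine sum_congr rfl fun i _ => ?_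
  have h6 := h5 i
  push_cast at h6
  rw [h6]
  ring

theorem det_zero (n : ℕ) (c : Fin n → ℤ) (c0 : ℤ) (hc0 : c0 ≠ 0) (T a b d : ℝ)
    (ha : 0 ≤ a) (hd : 0 ≤ d) (h : ((n : ℝ) ^ 2 + n - 1) * a + ((n : ℝ) ^ 2 + n) * d < b)
    (hn : 1 ≤ n) :
    ∃ X₀ : ℝ, 0 ≤ X₀ ∧ ∀ X : ℝ, X₀ ≤ X → ∀ y : Fin n → ℝ, (∀ j, |y j| ≤ T) →
      (c0 : ℝ) * Real.exp 1 ^ n = ∑ j, (c j : ℝ) * y j * Real.exp 1 ^ (j : ℕ) →
      ∀ (A : Matrix (Fin n) (Fin n) ℤ) (G : Fin n → ℤ),
        (∀ i j, |(A i j : ℝ)| ≤ Real.exp (d * X)) →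
        (∀ i, App2 a b X (∑ j, A i j * y j + G i)) → A.det = 0 := by
  classical
  have hnR : (1 : ℝ) ≤ n := by exact_mod_cast hn
  set s : ℝ := b - (((n : ℝ) ^ 2 + n - 1) * a + ((n : ℝ) ^ 2 + n) * d) with hs
  have hs0 : 0 < s := by linarith
  have hnad : 0 ≤ (n : ℝ) * (a + d) := by positivity
  set η : ℝ := s / (2 * (n * (a + d) + 1)) with hη
  have hη0 : 0 < η := by positivity
  have hηs : η * (n * (a + d)) ≤ s / 2 := by
    rw [hη, div_mul_eq_mul_div, div_le_iff₀ (by positivity)]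
    nlinarith
  obtain ⟨c1, hc1, hmeas⟩ := Pool.Agent.W472.AC.e_measP n η hη0
  set S : ℝ := |(c0 : ℝ)| + ∑ j, |(c j : ℝ)| with hS
  have hc0R : (1 : ℝ) ≤ |(c0 : ℝ)| := by exact_mod_cast Int.one_le_abs hc0
  have hS1 : 1 ≤ S := by
    have : 0 ≤ ∑ j, |(c j : ℝ)| := sum_nonneg fun j _ => abs_nonneg _
    linarith
  have hcS : ∀ j, |(c j : ℝ)| ≤ S := by
    intro j
    have h1 : |(c j : ℝ)| ≤ ∑ j, |(c j : ℝ)| :=
      single_le_sum (f := fun j => |(c j : ℝ)|) (fun j _ => abs_nonneg _) (mem_univ j)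
    linarith
  have hf1 : (1 : ℝ) ≤ (n.factorial : ℝ) := Nat.one_le_cast.2 n.factorial_pos
  set K : ℝ := S * n.factorial * (|T| + n + 1) with hK
  have hK1 : 1 ≤ K := by
    have h1 : (1 : ℝ) ≤ |T| + n + 1 := by
      have := abs_nonneg T
      linarith
    calc (1 : ℝ) = 1 * 1 * 1 := by ring
      _ ≤ K := by rw [hK]; gcongr
  set C2 : ℝ := S * (n * n.factorial) * Real.exp n with hC2
  have hC20 : 0 < C2 := by positivity
  set C3 : ℝ := K ^ ((n : ℝ) + η) * C2 with hC3
  have hC30 : 0 < C3 := by positivity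
  refine ⟨2 / s * |Real.log (C3 / c1)| + 1, by positivity, ?_⟩
  intro X hX y hyT hrel A G hA hApp
  by_contra hdet
  have hX0 : 0 < X := by
    have : 0 ≤ 2 / s * |Real.log (C3 / c1)| := by positivity
    linarith
  choose q p hq hqX hqy using hApp
  set E : ℝ := Real.exp (d * X) with hE
  have hE1 : 1 ≤ E := Real.one_le_exp (by positivity)
  set F : ℝ := Real.exp (a * X) with hF
  have hF1 : 1 ≤ F := Real.one_le_exp (by positivity)
  set U : ℝ := Real.exp (-(b * X)) with hU
  have hU0 : 0 < U := Real.exp_pos _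
  have hb0 : 0 ≤ b := by
    have h1 : 0 ≤ ((n : ℝ) ^ 2 + n - 1) * a := mul_nonneg (by nlinarith) ha
    have h2 : 0 ≤ ((n : ℝ) ^ 2 + n) * d := by positivity
    linarith
  have hU1 : U ≤ 1 := by
    rw [hU, Real.exp_le_one_iff]
    have : 0 ≤ b * X := by positivity
    linarith
  -- the products of the denominators
  have hQ : ((∏ i, q i : ℕ) : ℝ) ≤ F ^ n := by
    push_cast
    calc ∏ i, (q i : ℝ) ≤ ∏ _i : Fin n, F :=
          prod_le_prod (fun i _ => Nat.cast_nonneg _) fun i _ => hqX i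
      _ = F ^ n := by simp
  have hQ1 : 1 ≤ ∏ i, q i := Finset.one_le_prod' fun i _ => hq i
  have hQi : ∀ i, ((∏ l ∈ univ.erase i, q l : ℕ) : ℝ) ≤ F ^ (n - 1) := by
    intro i
    push_cast
    calc ∏ l ∈ univ.erase i, (q l : ℝ) ≤ ∏ _l ∈ univ.erase i, F :=
          prod_le_prod (fun i _ => Nat.cast_nonneg _) fun i _ => hqX i
      _ = F ^ (n - 1) := by
          rw [prod_const, card_erase_of_mem (mem_univ _), card_univ, Fintype.card_fin]
  set P : Fin n → ℤ := fun j =>
    ∑ i, A.adjugate j i * ((∏ l ∈ univ.erase i, q l : ℕ) : ℤ) * (p i - q i * G i) with hP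
  set R : Fin n → ℝ := fun j => ∑ i, (A.adjugate j i : ℝ) * ((∏ l ∈ univ.erase i, q l : ℕ) : ℝ) *
        ((q i : ℝ) * (∑ k, A i k * y k + G i) - p i) with hR
  have hPR : ∀ j, ((∏ i, q i : ℕ) : ℝ) * A.det * y j = P j + R j := fun j =>
    elim y A G p q j
  have hRle : ∀ j, |R j| ≤ n * n.factorial * E ^ n * F ^ (n - 1) * U := by
    intro j
    rw [hR]
    refine (abs_sum_le_sum_abs _ _).trans ?_
    have h1 : ∀ i ∈ (univ : Finset (Fin n)), |(A.adjugate j i : ℝ) *
        ((∏ l ∈ univ.erase i, q l : ℕ) : ℝ) * ((q i : ℝ) * (∑ k, A i k * y k + G i) - p i)| ≤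
        (n.factorial * E ^ n) * F ^ (n - 1) * U := by
      intro i _
      rw [abs_mul, abs_mul, Nat.abs_cast]
      have h2 := adj_bound A hE1 hA j i
      have h3 := hQi i
      have h4 := hqy i
      gcongr
    refine (sum_le_card_nsmul _ _ _ h1).trans (le_of_eq ?_)
    rw [card_univ, Fintype.card_fin, nsmul_eq_mul]
    ring
  -- the polynomial
  set Φ : Polynomial ℤ := C (((∏ i, q i : ℕ) : ℤ) * A.det * c0) * Polynomial.X ^ n -
    ∑ j : Fin n, C (c j * P j) * Polynomial.X ^ (j : ℕ) with hΦ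
  have hcoef : ∀ k, Φ.coeff k = (if k = n then ((∏ i, q i : ℕ) : ℤ) * A.det * c0 else 0) -
      (if hk : k < n then c ⟨k, hk⟩ * P ⟨k, hk⟩ else 0) := by
    intro k
    rw [hΦ, coeff_sub, coeff_C_mul, coeff_X_pow, finsetSum_coeff]
    congr 1
    · split_ifs <;> simp
    · simp only [coeff_C_mul, coeff_X_pow, mul_ite, mul_one, mul_zero]
      split_ifs with hk
      · rw [Finset.sum_eq_single ⟨k, hk⟩]
        · simp
        · intro j _ hj
          rw [if_neg]
          intro h0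
          exact hj (Fin.ext h0.symm)
        · intro h0
          exact absurd (mem_univ _) h0
      · apply sum_eq_zero
        intro j _
        rw [if_neg]
        intro h0
        exact hk (h0 ▸ j.2)
  have hQdet : ((∏ i, q i : ℕ) : ℤ) * A.det * c0 ≠ 0 := by
    refine mul_ne_zero (mul_ne_zero ?_ hdet) hc0
    exact_mod_cast (by omega : ∏ i, q i ≠ 0)
  have hΦ0 : Φ ≠ 0 := by
    intro h0
    have h1 := hcoef n
    rw [h0, coeff_zero, if_pos rfl, dif_neg (lt_irrefl n), sub_zero] at h1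
    exact hQdet h1.symm
  have hΦd : Φ.natDegree ≤ n := by
    rw [natDegree_le_iff_coeff_eq_zero]
    intro k hk
    rw [hcoef, if_neg (by omega), dif_neg (by omega), sub_zero]
  have hval : aeval (Real.exp 1) Φ = ∑ j, (c j : ℝ) * R j * Real.exp 1 ^ (j : ℕ) := by
    have h1 : aeval (Real.exp 1) Φ = ((∏ i, q i : ℕ) : ℝ) * A.det * (c0 * Real.exp 1 ^ n) -
        ∑ j, (c j : ℝ) * P j * Real.exp 1 ^ (j : ℕ) := by
      rw [hΦ, map_sub, map_mul, map_sum, map_pow, aeval_X, aeval_C]
      simp only [map_mul, map_pow, aeval_X, algebraMap_int_eq, eq_intCast, map_intCast,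
        Int.cast_mul, Int.cast_natCast]
      rw [mul_assoc]
    rw [h1, hrel, mul_sum, ← sum_sub_distrib]
    refine sum_congr rfl fun j _ => ?_
    have h2 := hPR j
    linear_combination ((c j : ℝ) * Real.exp 1 ^ (j : ℕ)) * h2
  set H : ℝ := K * (E * F) ^ n with hH
  have hEF1 : 1 ≤ (E * F) ^ n := one_le_pow₀ (one_le_mul_of_one_le_of_one_le hE1 hF1)
  have hH1 : 1 ≤ H := one_le_mul_of_one_le_of_one_le hK1 hEF1
  have hdetb := det_bound A hA
  have hQd : |((∏ i, q i : ℕ) : ℝ) * A.det| ≤ n.factorial * (E * F) ^ n := by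
    rw [abs_mul, Nat.abs_cast, mul_pow]
    calc ((∏ i, q i : ℕ) : ℝ) * |(A.det : ℝ)| ≤ F ^ n * (n.factorial * E ^ n) := by gcongr
      _ = n.factorial * (E ^ n * F ^ n) := by ring
  have hPle : ∀ j, |(P j : ℝ)| ≤ n.factorial * (|T| + n) * (E * F) ^ n := by
    intro j
    have h1 : (P j : ℝ) = ((∏ i, q i : ℕ) : ℝ) * A.det * y j - R j := by
      rw [hPR j]
      ring
    rw [h1]
    refine (abs_sub _ _).trans ?_
    rw [abs_mul]
    have h2 : |((∏ i, q i : ℕ) : ℝ) * A.det| * |y j| ≤ n.factorial * (E * F) ^ n * |T| := by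
      have := (hyT j).trans (le_abs_self T)
      gcongr
    have h3 : |R j| ≤ n.factorial * n * (E * F) ^ n := by
      refine (hRle j).trans ?_
      rw [mul_pow]
      have h4 : F ^ (n - 1) * U ≤ F ^ n := by
        calc F ^ (n - 1) * U ≤ F ^ n * 1 := by
              have := pow_le_pow_right₀ hF1 (Nat.sub_le n 1)
              gcongr
          _ = F ^ n := mul_one _
      calc (n : ℝ) * n.factorial * E ^ n * F ^ (n - 1) * U =
            (n * n.factorial * E ^ n) * (F ^ (n - 1) * U) := by ring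
        _ ≤ (n * n.factorial * E ^ n) * F ^ n := by gcongr
        _ = n.factorial * n * (E ^ n * F ^ n) := by ring
    calc _ ≤ (n.factorial : ℝ) * (E * F) ^ n * |T| + n.factorial * n * (E * F) ^ n :=
          add_le_add h2 h3
      _ = n.factorial * (|T| + n) * (E * F) ^ n := by ring
  have hcoefle : ∀ k, |(Φ.coeff k : ℝ)| ≤ H := by
    intro k
    rw [hcoef]
    have hT0 := abs_nonneg T
    by_cases h1 : k = n
    · rw [h1, if_pos rfl, dif_neg (lt_irrefl _), sub_zero, Int.cast_mul, Int.cast_mul,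
        Int.cast_natCast, abs_mul, hH, hK]
      have h3 : |(c0 : ℝ)| ≤ S := by
        have : 0 ≤ ∑ j, |(c j : ℝ)| := sum_nonneg fun j _ => abs_nonneg _
        linarith
      calc |((∏ i, q i : ℕ) : ℝ) * (A.det : ℝ)| * |(c0 : ℝ)| ≤
            (n.factorial * (E * F) ^ n) * S :=
              mul_le_mul hQd h3 (abs_nonneg _) (by positivity)
        _ = (S * n.factorial * (E * F) ^ n) * 1 := by ring
        _ ≤ (S * n.factorial * (E * F) ^ n) * (|T| + n + 1) :=
            mul_le_mul_of_nonneg_left (by linarith) (by positivity)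
        _ = S * n.factorial * (|T| + n + 1) * (E * F) ^ n := by ring
    · rw [if_neg h1, zero_sub]
      by_cases h2 : k < n
      · rw [dif_pos h2, Int.cast_neg, Int.cast_mul, abs_neg, abs_mul, hH, hK]
        calc |(c ⟨k, h2⟩ : ℝ)| * |(P ⟨k, h2⟩ : ℝ)| ≤
              S * (n.factorial * (|T| + n) * (E * F) ^ n) :=
                mul_le_mul (hcS ⟨k, h2⟩) (hPle ⟨k, h2⟩) (abs_nonneg _) (by linarith)
          _ = (S * n.factorial * (E * F) ^ n) * (|T| + n) := by ring
          _ ≤ (S * n.factorial * (E * F) ^ n) * (|T| + n + 1) :=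
              mul_le_mul_of_nonneg_left (by linarith) (by positivity)
          _ = S * n.factorial * (|T| + n + 1) * (E * F) ^ n := by ring
      · rw [dif_neg h2]
        simp only [neg_zero, Int.cast_zero, abs_zero]
        linarith
  have h1 := hmeas Φ hΦ0 hΦd H hH1 hcoefle
  rw [hval] at h1
  have h2 : |∑ j, (c j : ℝ) * R j * Real.exp 1 ^ (j : ℕ)| ≤
      C2 * (E ^ n * F ^ (n - 1) * U) := by
    refine (abs_sum_le_sum_abs _ _).trans ?_
    calc ∑ j, |(c j : ℝ) * R j * Real.exp 1 ^ (j : ℕ)| ≤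
          ∑ j, |(c j : ℝ)| * ((n * n.factorial * E ^ n * F ^ (n - 1) * U) * Real.exp n) := by
            refine sum_le_sum fun j _ => ?_
            rw [abs_mul, abs_mul, mul_assoc]
            have h3 := hRle j
            have h4 : |Real.exp 1 ^ (j : ℕ)| ≤ Real.exp n := by
              rw [abs_of_pos (by positivity), ← Real.exp_nat_mul, mul_one]
              apply Real.exp_le_exp.2
              exact_mod_cast j.2.le
            gcongr
      _ = (∑ j, |(c j : ℝ)|) * ((n * n.factorial * E ^ n * F ^ (n - 1) * U) * Real.exp n) := by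
            rw [sum_mul]
      _ ≤ S * ((n * n.factorial * E ^ n * F ^ (n - 1) * U) * Real.exp n) := by
            have : ∑ j, |(c j : ℝ)| ≤ S := by
              have := abs_nonneg (c0 : ℝ)
              linarith
            gcongr
      _ = C2 * (E ^ n * F ^ (n - 1) * U) := by rw [hC2]; ring
  have h3 : H ^ ((n : ℝ) + η) = K ^ ((n : ℝ) + η) *
      Real.exp ((n + η) * (n * (a + d)) * X) := by
    have e1 : (E * F) ^ n = Real.exp (n * (a + d) * X) := by
      rw [hE, hF, ← Real.exp_add, ← Real.exp_nat_mul]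
      congr 1
      ring
    rw [hH, e1, Real.mul_rpow (by linarith) (Real.exp_pos _).le, ← Real.exp_mul]
    congr 2
    ring
  have h4 : E ^ n * F ^ (n - 1) * U = Real.exp ((n * d + (n - 1) * a - b) * X) := by
    rw [hE, hF, hU, ← Real.exp_nat_mul, ← Real.exp_nat_mul, ← Real.exp_add, ← Real.exp_add]
    congr 1
    rw [Nat.cast_sub hn]
    push_cast
    ring
  have h5 : c1 ≤ C3 * Real.exp (-(s / 2) * X) := by
    calc c1 ≤ H ^ ((n : ℝ) + η) * |∑ j, (c j : ℝ) * R j * Real.exp 1 ^ (j : ℕ)| := h1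
      _ ≤ (K ^ ((n : ℝ) + η) * Real.exp ((n + η) * (n * (a + d)) * X)) *
          (C2 * Real.exp ((n * d + (n - 1) * a - b) * X)) := by
          rw [h3, ← h4]
          exact mul_le_mul_of_nonneg_left h2 (by positivity)
      _ = C3 * Real.exp ((n + η) * (n * (a + d)) * X + (n * d + (n - 1) * a - b) * X) := by
          rw [hC3, Real.exp_add]
          ring
      _ ≤ C3 * Real.exp (-(s / 2) * X) := by
          apply mul_le_mul_of_nonneg_left _ hC30.le
          apply Real.exp_le_exp.2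
          have e1 : ((n : ℝ) + η) * (n * (a + d)) * X + (n * d + (n - 1) * a - b) * X =
              (η * (n * (a + d)) - s) * X := by
            rw [hs]
            ring
          rw [e1]
          apply mul_le_mul_of_nonneg_right _ hX0.le
          linarith
  have h7 : Real.log (C3 / c1) < s / 2 * X := by
    have e1 := le_abs_self (Real.log (C3 / c1))
    have e2 : s / 2 * (2 / s * |Real.log (C3 / c1)| + 1) ≤ s / 2 * X :=
      mul_le_mul_of_nonneg_left hX (by linarith)
    have e3 : s / 2 * (2 / s * |Real.log (C3 / c1)| + 1) = |Real.log (C3 / c1)| + s / 2 := by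
      field_simp
    linarith
  have h8 : C3 / c1 < Real.exp (s / 2 * X) := by
    rwa [Real.log_lt_iff_lt_exp (by positivity)] at h7
  have h9 : C3 * Real.exp (-(s / 2) * X) < c1 := by
    rw [div_lt_iff₀ hc1] at h8
    have e1 : -(s / 2) * X = -(s / 2 * X) := by ring
    rw [e1, Real.exp_neg, ← div_eq_mul_inv, div_lt_iff₀ (Real.exp_pos _)]
    linarith
  linarith

end Run7.h432.EP
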