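import Pool.Agent.Run7.h432.EP.Gen
import Pool.Agent.H340R2.LW

set_option autoImplicit false

/-!
# Pairs of coefficients of a quadratic polynomial which vanishes at `e`
-/

namespace Run7.h432.EP

open Finset

theorem rat_of_scales {a b K X₀ z : ℝ} (ha : 0 ≤ a) (hab : a < b) (hK : 0 ≤ K)
    (h : ∀ X, X₀ ≤ X → ∃ Q P : ℤ, Q ≠ 0 ∧ |(Q : ℝ)| ≤ Real.exp (a * X) ∧
      |(Q : ℝ) * z - P| ≤ K * Real.exp (-(b * X))) :
    ∃ Q P : ℤ, Q ≠ 0 ∧ (Q : ℝ) * z = P := by
  -- the first scale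
  set s := b - a with hs
  have hs0 : 0 < s := by linarith
  set X₁ : ℝ := max X₀ (2 * K * Real.exp a / s) with hX₁
  have hX₁0 : 0 ≤ X₁ := le_trans (by positivity) (le_max_right _ _)
  have hX₁s : 2 * K * Real.exp a ≤ s * X₁ := by
    have := le_max_right X₀ (2 * K * Real.exp a / s)
    rw [div_le_iff₀ hs0] at this
    linarith
  have h0 : ∀ i : ℕ, X₀ ≤ X₁ + i := fun i => by
    have h1 := le_max_left X₀ (2 * K * Real.exp a / s)
    have h2 : (0 : ℝ) ≤ i := Nat.cast_nonneg i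
    linarith
  choose Q P hQ0 hQ hP using fun i : ℕ => h (X₁ + i) (h0 i)
  have hstep : ∀ i, Q (i + 1) * P i = Q i * P (i + 1) := by
    intro i
    set Y : ℝ := X₁ + i with hY
    have hY1 : X₁ + ((i + 1 : ℕ) : ℝ) = Y + 1 := by push_cast; ring
    have e1 := hQ i
    have e2 := hP i
    have e3 := hQ (i + 1)
    have e4 := hP (i + 1)
    rw [hY1] at e3 e4
    rw [← hY] at e1 e2
    have hY0 : X₁ ≤ Y := by
      have : (0 : ℝ) ≤ i := Nat.cast_nonneg i
      linarith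
    have e5 : |((Q (i + 1) * P i - Q i * P (i + 1) : ℤ) : ℝ)| < 1 := by
      have e6 : ((Q (i + 1) * P i - Q i * P (i + 1) : ℤ) : ℝ) =
          Q i * ((Q (i + 1) : ℝ) * z - P (i + 1)) - Q (i + 1) * ((Q i : ℝ) * z - P i) := by
        push_cast
        ring
      rw [e6]
      have b0 : 0 < b := by linarith
      calc |(Q i : ℝ) * ((Q (i + 1) : ℝ) * z - P (i + 1)) - Q (i + 1) * ((Q i : ℝ) * z - P i)| ≤
            |(Q i : ℝ)| * |(Q (i + 1) : ℝ) * z - P (i + 1)| +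
              |(Q (i + 1) : ℝ)| * |(Q i : ℝ) * z - P i| := by
            refine (abs_sub _ _).trans ?_
            rw [abs_mul, abs_mul]
        _ ≤ Real.exp (a * Y) * (K * Real.exp (-(b * (Y + 1)))) +
              Real.exp (a * (Y + 1)) * (K * Real.exp (-(b * Y))) := by gcongr
        _ ≤ Real.exp (a * (Y + 1)) * (K * Real.exp (-(b * Y))) +
              Real.exp (a * (Y + 1)) * (K * Real.exp (-(b * Y))) := by
            gcongr <;> linarith
        _ = 2 * K * Real.exp a * Real.exp (-(s * Y)) := by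
            have : Real.exp (a * (Y + 1)) * Real.exp (-(b * Y)) =
                Real.exp a * Real.exp (-(s * Y)) := by
              rw [← Real.exp_add, ← Real.exp_add]
              congr 1
              rw [hs]
              ring
            calc _ = 2 * K * (Real.exp (a * (Y + 1)) * Real.exp (-(b * Y))) := by ring
              _ = _ := by rw [this]; ring
        _ ≤ s * Y * Real.exp (-(s * Y)) := by
            have : s * X₁ ≤ s * Y := mul_le_mul_of_nonneg_left hY0 hs0.le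
            exact mul_le_mul_of_nonneg_right (by linarith) (Real.exp_pos _).le
        _ < 1 := by
            rw [Real.exp_neg, ← div_eq_mul_inv, div_lt_one (Real.exp_pos _)]
            have := Real.add_one_le_exp (s * Y)
            linarith
    have e7 : |Q (i + 1) * P i - Q i * P (i + 1)| < 1 := by exact_mod_cast e5
    have e8 := Int.abs_lt_one_iff.1 e7
    linarith
  have hall : ∀ i, Q i * P 0 = P i * Q 0 := by
    intro i
    induction i with
    | zero => ring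
    | succ i ih =>
      apply mul_left_cancel₀ (hQ0 i)
      have := hstep i
      calc Q i * (Q (i + 1) * P 0) = Q (i + 1) * (Q i * P 0) := by ring
        _ = Q (i + 1) * (P i * Q 0) := by rw [ih]
        _ = (Q (i + 1) * P i) * Q 0 := by ring
        _ = (Q i * P (i + 1)) * Q 0 := by rw [this]
        _ = Q i * (P (i + 1) * Q 0) := by ring
  refine ⟨Q 0, P 0, hQ0 0, ?_⟩
  by_contra hne
  have hv : 0 < |(Q 0 : ℝ) * z - P 0| := abs_pos.2 (sub_ne_zero.2 hne)
  set v := |(Q 0 : ℝ) * z - P 0| with hvd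
  have hb0 : 0 < b := by linarith
  obtain ⟨i, hi⟩ := exists_nat_gt (|(Q 0 : ℝ)| * K / (v * b))
  have e1 : v ≤ |(Q 0 : ℝ)| * (K * Real.exp (-(b * (X₁ + i)))) := by
    have e2 : (Q i : ℝ) * ((Q 0 : ℝ) * z - P 0) = Q 0 * ((Q i : ℝ) * z - P i) := by
      have := hall i
      have e3 : (Q i : ℝ) * P 0 = P i * Q 0 := by exact_mod_cast this
      linear_combination -e3
    have e4 : |(Q i : ℝ)| * v = |(Q 0 : ℝ)| * |(Q i : ℝ) * z - P i| := by
      rw [hvd, ← abs_mul, e2, abs_mul]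
    have e5 : (1 : ℝ) ≤ |(Q i : ℝ)| := by exact_mod_cast Int.one_le_abs (hQ0 i)
    calc v = 1 * v := (one_mul v).symm
      _ ≤ |(Q i : ℝ)| * v := by gcongr
      _ = |(Q 0 : ℝ)| * |(Q i : ℝ) * z - P i| := e4
      _ ≤ _ := by
        have := hP i
        gcongr
  rw [div_lt_iff₀ (by positivity)] at hi
  have e6 : Real.exp (-(b * (X₁ + i))) * (b * i) ≤ 1 := by
    rw [Real.exp_neg, inv_mul_le_iff₀ (Real.exp_pos _), mul_one]
    have e7 := Real.add_one_le_exp (b * (X₁ + i))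
    have e8 : 0 ≤ b * X₁ := by positivity
    have e9 : b * (X₁ + i) = b * X₁ + b * i := by ring
    linarith
  have e10 : v * (b * i) ≤ |(Q 0 : ℝ)| * K := by
    calc v * (b * i) ≤ (|(Q 0 : ℝ)| * (K * Real.exp (-(b * (X₁ + i))))) * (b * i) := by gcongr
      _ = (|(Q 0 : ℝ)| * K) * (Real.exp (-(b * (X₁ + i))) * (b * i)) := by ring
      _ ≤ (|(Q 0 : ℝ)| * K) * 1 := by gcongr
      _ = _ := mul_one _
  have e11 : (i : ℝ) * (v * b) = v * (b * i) := by ring
  linarith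

theorem prop_trans {A B A' B' A₁ B₁ : ℤ} (h0 : ¬ (A' = 0 ∧ B' = 0)) (h1 : A' * B₁ = A₁ * B')
    (h2 : A' * B = A * B') : A * B₁ = A₁ * B := by
  by_cases hA : A' = 0
  · have hB : B' ≠ 0 := fun hB => h0 ⟨hA, hB⟩
    apply mul_left_cancel₀ hB
    linear_combination (-B₁) * h2 + B * h1
  · apply mul_left_cancel₀ hA
    linear_combination A * h1 - A₁ * h2

theorem chain_line {P : ℝ → ℤ → ℤ → Prop} {θ X₁ : ℝ} (hθ : 0 < θ) (hX₁ : 0 < X₁)
    (hex : ∀ X, X₁ ≤ X → ∃ A B : ℤ, ¬ (A = 0 ∧ B = 0) ∧ P X A B)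
    (hprop : ∀ X X', X₁ ≤ X → X ≤ X' → X' ≤ (1 + θ) * X → ∀ A B A' B' : ℤ,
      P X A B → P X' A' B' → A * B' = A' * B) :
    ∃ A₁ B₁ : ℤ, ¬ (A₁ = 0 ∧ B₁ = 0) ∧ ∀ X, X₁ ≤ X → ∀ A B : ℤ, P X A B →
      A * B₁ = A₁ * B := by
  obtain ⟨A₁, B₁, h0, h1⟩ := hex X₁ le_rfl
  refine ⟨A₁, B₁, h0, ?_⟩
  have key : ∀ n : ℕ, ∀ X, X₁ ≤ X → X ≤ (1 + θ) ^ n * X₁ → ∀ A B : ℤ, P X A B →
      A * B₁ = A₁ * B := by
    intro n
    induction n with
    | zero =>
      intro X hX hX' A B hP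
      rw [pow_zero, one_mul] at hX'
      obtain rfl : X = X₁ := le_antisymm hX' hX
      have := hprop X X le_rfl le_rfl (by nlinarith) A₁ B₁ A B h1 hP
      linarith
    | succ n ih =>
      intro X hX hX' A B hP
      have hθ1 : 0 < 1 + θ := by linarith
      set Y := max X₁ (X / (1 + θ)) with hY
      have hY1 : X₁ ≤ Y := le_max_left _ _
      have hYX : Y ≤ X := by
        apply max_le hX
        rw [div_le_iff₀ hθ1]
        nlinarith
      have hXY : X ≤ (1 + θ) * Y := by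
        have := le_max_right X₁ (X / (1 + θ))
        rw [div_le_iff₀ hθ1] at this
        linarith
      have hYn : Y ≤ (1 + θ) ^ n * X₁ := by
        apply max_le
        · have : (1 : ℝ) ≤ (1 + θ) ^ n := one_le_pow₀ (by linarith)
          nlinarith
        · rw [div_le_iff₀ hθ1]
          calc X ≤ (1 + θ) ^ (n + 1) * X₁ := hX'
            _ = (1 + θ) ^ n * X₁ * (1 + θ) := by ring
      obtain ⟨A', B', h0', hP'⟩ := hex Y hY1
      have e1 := ih Y hY1 hYn A' B' hP'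
      have e2 := hprop Y X hY1 hYX hXY A' B' A B hP' hP
      exact prop_trans h0' e1 e2
  intro X hX A B hP
  obtain ⟨n, hn⟩ := one_add_mul_le_pow_exists hθ hX₁ X
  exact key n X hX hn A B hP
where
  one_add_mul_le_pow_exists {θ X₁ : ℝ} (hθ : 0 < θ) (hX₁ : 0 < X₁) (X : ℝ) :
      ∃ n : ℕ, X ≤ (1 + θ) ^ n * X₁ := by
    obtain ⟨n, hn⟩ := pow_unbounded_of_one_lt (X / X₁) (by linarith : 1 < 1 + θ)
    refine ⟨n, ?_⟩
    rw [div_lt_iff₀ hX₁] at hn
    exact hn.le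

/-- two forms at nearby scales are proportional -/
theorem two_scales (c : Fin 2 → ℤ) (c0 : ℤ) (hc0 : c0 ≠ 0) (T κ δ : ℝ) (hκ : 0 ≤ κ) (hδ : 0 ≤ δ)
    (h : 6 * (κ + δ) < 1) : ∃ θ X₁ : ℝ, 0 < θ ∧ 0 < X₁ ∧ ∀ y : Fin 2 → ℝ, (∀ j, |y j| ≤ T) →
      (c0 : ℝ) * Real.exp 1 ^ 2 = ∑ j, (c j : ℝ) * y j * Real.exp 1 ^ (j : ℕ) →
      ∀ X X', X₁ ≤ X → X ≤ X' → X' ≤ (1 + θ) * X → ∀ A B A' B' : ℤ,
      (|(A : ℝ)| ≤ Real.exp (δ * X) ∧ |(B : ℝ)| ≤ Real.exp (δ * X) ∧
        App κ X (A * y 0 + B * y 1)) →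
      (|(A' : ℝ)| ≤ Real.exp (δ * X') ∧ |(B' : ℝ)| ≤ Real.exp (δ * X') ∧
        App κ X' (A' * y 0 + B' * y 1)) → A * B' = A' * B := by
  set s := 1 - 6 * (κ + δ) with hs
  have hs0 : 0 < s := by linarith
  set θ := s / 12 with hθ
  have hθ0 : 0 < θ := by positivity
  have hκ1 : κ ≤ 1 := by linarith
  have hδ1 : δ ≤ 1 := by linarith
  obtain ⟨X₀, hX₀, hdet⟩ := det_zero 2 c c0 hc0 T (κ * (1 + θ)) (1 - κ) (δ * (1 + θ))
    (by positivity) (by positivity) (by
      push_cast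
      have h1 : (κ + δ) * θ ≤ 1 * θ := mul_le_mul_of_nonneg_right (by linarith) hθ0.le
      have h2 : 0 ≤ κ * θ := by positivity
      have h3 : ((2 : ℝ) ^ 2 + 2 - 1) * (κ * (1 + θ)) + ((2 : ℝ) ^ 2 + 2) * (δ * (1 + θ)) =
        5 * κ + 6 * δ + 6 * ((κ + δ) * θ) - κ * θ := by ring
      rw [h3]
      linarith) (by norm_num)
  refine ⟨θ, X₀ + 1, hθ0, by linarith, ?_⟩
  rintro y hy hrel X X' hX hXX' hX'X A B A' B' ⟨hA, hB, q, p, hq, hqX, hqy⟩
    ⟨hA', hB', q', p', hq', hqX', hqy'⟩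
  have hX0 : 0 < X := by linarith
  have mono : ∀ u : ℝ, 0 ≤ u → Real.exp (u * X) ≤ Real.exp (u * (1 + θ) * X) := by
    intro u hu
    apply Real.exp_le_exp.2
    have : 0 ≤ u * θ * X := by positivity
    have e : u * (1 + θ) * X = u * X + u * θ * X := by ring
    linarith
  have mono' : ∀ u : ℝ, 0 ≤ u → Real.exp (u * X') ≤ Real.exp (u * (1 + θ) * X) := by
    intro u hu
    apply Real.exp_le_exp.2
    have : u * X' ≤ u * ((1 + θ) * X) := mul_le_mul_of_nonneg_left hX'X hu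
    have e : u * (1 + θ) * X = u * ((1 + θ) * X) := by ring
    linarith
  have hd := hdet X (by linarith) y hy (by exact_mod_cast hrel) !![A, B; A', B'] 0 ?_ ?_
  · rw [Matrix.det_fin_two_of] at hd
    linarith
  · intro i j
    fin_cases i <;> fin_cases j
    · exact hA.trans (mono δ hδ)
    · exact hB.trans (mono δ hδ)
    · exact hA'.trans (mono' δ hδ)
    · exact hB'.trans (mono' δ hδ)
  · intro i
    fin_cases i
    · refine ⟨q, p, hq, hqX.trans (mono κ hκ), ?_⟩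
      have e : ∑ j, ((!![A, B; A', B'] : Matrix (Fin 2) (Fin 2) ℤ) ⟨0, by norm_num⟩ j : ℝ) * y j +
          ((0 : Fin 2 → ℤ) ⟨0, by norm_num⟩ : ℝ) = A * y 0 + B * y 1 := by
        simp [Fin.sum_univ_two]
      change |(q : ℝ) * (∑ j, ((!![A, B; A', B'] : Matrix (Fin 2) (Fin 2) ℤ) ⟨0, by norm_num⟩ j : ℝ)
        * y j + ((0 : Fin 2 → ℤ) ⟨0, by norm_num⟩ : ℝ)) - p| ≤ _
      rw [e]
      refine hqy.trans (Real.exp_le_exp.2 (by linarith))
    · refine ⟨q', p', hq', hqX'.trans (mono' κ hκ), ?_⟩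
      have e : ∑ j, ((!![A, B; A', B'] : Matrix (Fin 2) (Fin 2) ℤ) ⟨1, by norm_num⟩ j : ℝ) * y j +
          ((0 : Fin 2 → ℤ) ⟨1, by norm_num⟩ : ℝ) = A' * y 0 + B' * y 1 := by
        simp [Fin.sum_univ_two]
      change |(q' : ℝ) * (∑ j, ((!![A, B; A', B'] : Matrix (Fin 2) (Fin 2) ℤ) ⟨1, by norm_num⟩ j : ℝ)
        * y j + ((0 : Fin 2 → ℤ) ⟨1, by norm_num⟩ : ℝ)) - p'| ≤ _
      rw [e]
      refine hqy'.trans (Real.exp_le_exp.2 ?_)
      have : (1 - κ) * X ≤ (1 - κ) * X' := mul_le_mul_of_nonneg_left hXX' (by linarith)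
      linarith

/-- small forms at all large scales give a linear relation -/
theorem dep_of_app (c : Fin 2 → ℤ) (c0 : ℤ) (hc0 : c0 ≠ 0) (T κ δ : ℝ) (hκ : 0 ≤ κ) (hδ : 0 ≤ δ)
    (h : 6 * (κ + δ) < 1) (y : Fin 2 → ℝ) (hy : ∀ j, |y j| ≤ T)
    (hrel : (c0 : ℝ) * Real.exp 1 ^ 2 = ∑ j, (c j : ℝ) * y j * Real.exp 1 ^ (j : ℕ))
    (X₀ : ℝ) (hex : ∀ X, X₀ ≤ X → ∃ A B : ℤ, ¬ (A = 0 ∧ B = 0) ∧
      |(A : ℝ)| ≤ Real.exp (δ * X) ∧ |(B : ℝ)| ≤ Real.exp (δ * X) ∧
        App κ X (A * y 0 + B * y 1)) :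
    ∃ A B G : ℤ, ¬ (A = 0 ∧ B = 0) ∧ (A : ℝ) * y 0 + B * y 1 = G := by
  obtain ⟨θ, X₁, hθ, hX₁, hts⟩ := two_scales c c0 hc0 T κ δ hκ hδ h
  obtain ⟨A₁, B₁, h0, hline⟩ := chain_line (P := fun X A B =>
      |(A : ℝ)| ≤ Real.exp (δ * X) ∧ |(B : ℝ)| ≤ Real.exp (δ * X) ∧
        App κ X (A * y 0 + B * y 1)) hθ (lt_max_of_lt_right hX₁ : 0 < max X₀ X₁)
    (fun X hX => hex X ((le_max_left _ _).trans hX))
    (fun X X' hX hXX' hX' A B A' B' h1 h2 =>
      hts y hy hrel X X' ((le_max_right _ _).trans hX) hXX' hX' A B A' B' h1 h2)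
  -- the number on the line
  set z : ℝ := A₁ * y 0 + B₁ * y 1 with hz
  have hrat : ∃ Q P : ℤ, Q ≠ 0 ∧ (Q : ℝ) * z = P := by
    apply rat_of_scales (a := κ + δ) (b := 1 - κ) (K := |(A₁ : ℝ)| + |(B₁ : ℝ)|)
      (X₀ := max X₀ X₁) (by linarith) (by linarith) (by positivity)
    intro X hX
    obtain ⟨A, B, hAB, hA, hB, hS⟩ := hex X ((le_max_left _ _).trans hX)
    have hl := hline X hX A B ⟨hA, hB, hS⟩
    obtain ⟨q, p, hq, hqX, hqy⟩ := hS
    have hlR : (A : ℝ) * B₁ = A₁ * B := by exact_mod_cast hl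
    have hq0 : (q : ℤ) ≠ 0 := by exact_mod_cast (by omega : q ≠ 0)
    have hE : -((1 - κ) * X) = κ * X - X := by ring
    rw [hE]
    have hE0 := Real.exp_pos (κ * X - X)
    by_cases hA₁ : A₁ = 0
    · have hB₁ : B₁ ≠ 0 := fun hB₁ => h0 ⟨hA₁, hB₁⟩
      have hA0 : A = 0 := by
        rw [hA₁, zero_mul] at hl
        exact (mul_eq_zero.1 hl).resolve_right hB₁
      have hB0 : B ≠ 0 := fun hB0 => hAB ⟨hA0, hB0⟩
      refine ⟨q * B, B₁ * p, mul_ne_zero hq0 hB0, ?_, ?_⟩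
      · push_cast
        rw [abs_mul, Nat.abs_cast, add_mul, Real.exp_add]
        exact mul_le_mul hqX hB (abs_nonneg _) (Real.exp_pos _).le
      · have e : ((q * B : ℤ) : ℝ) * z - ((B₁ * p : ℤ) : ℝ) =
            B₁ * ((q : ℝ) * (A * y 0 + B * y 1) - p) := by
          rw [hz]
          push_cast
          linear_combination (-(q : ℝ) * y 0) * hlR
        rw [e, abs_mul]
        have := abs_nonneg (A₁ : ℝ)
        gcongr
        linarith
    · have hA0 : A ≠ 0 := by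
        intro hA0
        rw [hA0, zero_mul] at hl
        exact hAB ⟨hA0, (mul_eq_zero.1 hl.symm).resolve_left hA₁⟩
      refine ⟨q * A, A₁ * p, mul_ne_zero hq0 hA0, ?_, ?_⟩
      · push_cast
        rw [abs_mul, Nat.abs_cast, add_mul, Real.exp_add]
        exact mul_le_mul hqX hA (abs_nonneg _) (Real.exp_pos _).le
      · have e : ((q * A : ℤ) : ℝ) * z - ((A₁ * p : ℤ) : ℝ) =
            A₁ * ((q : ℝ) * (A * y 0 + B * y 1) - p) := by
          rw [hz]
          push_cast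
          linear_combination ((q : ℝ) * y 1) * hlR
        rw [e, abs_mul]
        have := abs_nonneg (B₁ : ℝ)
        gcongr
        linarith
  obtain ⟨Q, P, hQ, hQz⟩ := hrat
  refine ⟨Q * A₁, Q * B₁, P, ?_, ?_⟩
  · rintro ⟨h1, h2⟩
    exact h0 ⟨(mul_eq_zero.1 h1).resolve_left hQ, (mul_eq_zero.1 h2).resolve_left hQ⟩
  · rw [← hQz, hz]
    push_cast
    ring

/-- if `1, t, t', t t'` are linearly independent over `ℚ`, then `1, t e, t + e` or
`1, t' e, t' + e` are -/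
theorem not_both {t t' : ℝ}
    (hind : ∀ k l m n : ℤ, (k : ℝ) + l * t + m * t' + n * (t * t') = 0 →
      k = 0 ∧ l = 0 ∧ m = 0 ∧ n = 0)
    (h : ∃ A B G : ℤ, ¬ (A = 0 ∧ B = 0) ∧ (A : ℝ) * (t * Real.exp 1) + B * (t + Real.exp 1) = G)
    (h' : ∃ A B G : ℤ, ¬ (A = 0 ∧ B = 0) ∧ (A : ℝ) * (t' * Real.exp 1) + B * (t' + Real.exp 1) = G) :
    False := by
  obtain ⟨A, B, G, h0, h1⟩ := h
  obtain ⟨A', B', G', h0', h1'⟩ := h'
  have hirr : ∀ a b : ℤ, (a : ℝ) * Real.exp 1 + b = 0 → a = 0 := by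
    intro a b hab
    by_contra ha
    have haR : (a : ℝ) ≠ 0 := by exact_mod_cast ha
    have := (Pool.Agent.H340R2.LW.transcendental_exp_one).irrational
    apply this
    refine ⟨(-b : ℚ) / a, ?_⟩
    push_cast
    field_simp
    linarith
  have h2 : ((G * B' - G' * B : ℤ) : ℝ) + ((-(A * G') - B * B' : ℤ) : ℝ) * t +
      ((G * A' + B * B' : ℤ) : ℝ) * t' + ((A * B' - A' * B : ℤ) : ℝ) * (t * t') = 0 := by
    push_cast
    linear_combination (-(A' * t' + B' : ℝ)) * h1 + (A * t + B : ℝ) * h1'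
  obtain ⟨e1, e2, e3, e4⟩ := hind _ _ _ _ h2
  have hA : A ≠ 0 := by
    intro hA
    have hB : B ≠ 0 := fun hB => h0 ⟨hA, hB⟩
    have hB' : B' = 0 := by
      rw [hA] at e2
      have : B * B' = 0 := by linarith
      exact (mul_eq_zero.1 this).resolve_left hB
    have hA' : A' = 0 := by
      rw [hA] at e4
      have : A' * B = 0 := by linarith
      exact (mul_eq_zero.1 this).resolve_right hB
    exact h0' ⟨hA', hB'⟩
  have hA' : A' ≠ 0 := by
    intro hA'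
    have hB' : B' ≠ 0 := fun hB' => h0' ⟨hA', hB'⟩
    rw [hA'] at e4
    have : A * B' = 0 := by linarith
    exact (mul_ne_zero hA hB') this
  -- the determinant vanishes
  have h3 : B ^ 2 + A * G = 0 := by
    apply mul_left_cancel₀ hA'
    linear_combination (-B) * e4 + A * e3
  have h3R : (B : ℝ) ^ 2 + A * G = 0 := by exact_mod_cast h3
  have h4 : ((A : ℝ) * t + B) * (A * Real.exp 1 + B) = 0 := by
    linear_combination (A : ℝ) * h1 + h3R
  rcases mul_eq_zero.1 h4 with h5 | h5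
  · have := hind B A 0 0 (by push_cast; linarith)
    exact hA this.2.1
  · exact hA (hirr A B h5)

theorem pi_ind {j k : ℕ} (hj : 1 ≤ j) (hk : 1 ≤ k) (hjk : j ≠ k) (a b c d : ℤ)
    (h : (a : ℝ) + b * Real.pi ^ j + c * Real.pi ^ k + d * (Real.pi ^ j * Real.pi ^ k) = 0) :
    a = 0 ∧ b = 0 ∧ c = 0 ∧ d = 0 := by
  open Polynomial in
  have ht := Pool.Agent.H340R2.LW.transcendental_pi
  set F : Polynomial ℚ := Polynomial.C (a : ℚ) + Polynomial.C (b : ℚ) * Polynomial.X ^ j +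
    Polynomial.C (c : ℚ) * Polynomial.X ^ k + Polynomial.C (d : ℚ) * Polynomial.X ^ (j + k) with hF
  have hF0 : F = 0 := by
    by_contra hne
    apply ht
    refine ⟨F, hne, ?_⟩
    rw [hF]
    simp only [map_add, map_mul, map_pow, Polynomial.aeval_X, Polynomial.aeval_C]
    rw [pow_add]
    simp only [eq_ratCast, Rat.cast_intCast]
    exact h
  have hc : ∀ i, F.coeff i = (if i = 0 then (a : ℚ) else 0) + (if i = j then (b : ℚ) else 0) +
      (if i = k then (c : ℚ) else 0) + (if i = j + k then (d : ℚ) else 0) := by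
    intro i
    rw [hF]
    simp only [Polynomial.coeff_add, Polynomial.coeff_C_mul, Polynomial.coeff_X_pow,
      Polynomial.coeff_C, mul_ite, mul_one, mul_zero]
  have hz : ∀ i, F.coeff i = 0 := fun i => by rw [hF0, Polynomial.coeff_zero]
  refine ⟨?_, ?_, ?_, ?_⟩
  · have := hc 0
    rw [hz, if_pos rfl, if_neg (by omega), if_neg (by omega), if_neg (by omega)] at this
    have h2 : (a : ℚ) = 0 := by linarith
    exact_mod_cast h2
  · have := hc j
    rw [hz, if_neg (by omega), if_pos rfl, if_neg (by omega), if_neg (by omega)] at this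
    have h2 : (b : ℚ) = 0 := by linarith
    exact_mod_cast h2
  · have := hc k
    rw [hz, if_neg (by omega), if_neg (by omega), if_pos rfl, if_neg (by omega)] at this
    have h2 : (c : ℚ) = 0 := by linarith
    exact_mod_cast h2
  · have := hc (j + k)
    rw [hz, if_neg (by omega), if_neg (by omega), if_neg (by omega), if_pos rfl] at this
    have h2 : (d : ℚ) = 0 := by linarith
    exact_mod_cast h2

end Run7.h432.EP
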