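import Pool.Agent.TH768.DG.Exp
import Pool.Agent.Run7.h432.EP.Pair

set_option autoImplicit false

/-!
# Products of powers of arbitrary positive real numbers and of `e`
-/

namespace Run7.h432.EP

open Finset

theorem no_large {c C s : ℝ} (hc : 0 < c) (hC : 0 < C) (hs : 0 < s) :
    ∃ X₀ : ℝ, 0 ≤ X₀ ∧ ∀ X : ℝ, X₀ ≤ X → C * Real.exp (-(s * X)) < c := by
  refine ⟨|Real.log (C / c)| / s + 1, by positivity, fun X hX => ?_⟩
  have h1 : Real.log (C / c) < s * X := by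
    have h2 : s * (|Real.log (C / c)| / s + 1) ≤ s * X := mul_le_mul_of_nonneg_left hX hs.le
    have h3 : s * (|Real.log (C / c)| / s + 1) = |Real.log (C / c)| + s := by field_simp
    have h4 := le_abs_self (Real.log (C / c))
    linarith
  rw [Real.log_lt_iff_lt_exp (by positivity), div_lt_iff₀ hc] at h1
  rw [Real.exp_neg, ← div_eq_mul_inv, div_lt_iff₀ (Real.exp_pos _)]
  linarith

/-- rational approximations of the exponential of `l` -/
def LApp (K a b X l : ℝ) : Prop := ∃ P Q : ℕ, 1 ≤ P ∧ 1 ≤ Q ∧ (P : ℝ) ≤ K * Real.exp (a * X) ∧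
  (Q : ℝ) ≤ K * Real.exp (a * X) ∧ |l - (Real.log P - Real.log Q)| ≤ K * Real.exp (-(b * X))

theorem exp_far1 {K a b : ℝ} {N : ℕ} (hK : 1 ≤ K) (ha : 0 ≤ a) (hN : 1 ≤ N) (h : 2 * N * a < b)
    (D : ℤ) (hD : D ≠ 0) : ∃ X₀ : ℝ, 0 ≤ X₀ ∧ ∀ X : ℝ, X₀ ≤ X → ∀ U V : ℕ, 1 ≤ U → 1 ≤ V →
      (U : ℝ) ≤ (K * Real.exp (a * X)) ^ N → (V : ℝ) ≤ (K * Real.exp (a * X)) ^ N →
      |(D : ℝ) - (Real.log U - Real.log V)| ≤ N * K * Real.exp (-(b * X)) → False := by
  have hb0 : 0 < b := lt_of_le_of_lt (by positivity) h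
  have hNR : (1 : ℝ) ≤ N := by exact_mod_cast hN
  set s := b - 2 * N * a with hs
  have hs0 : 0 < s := by linarith
  set η := s / (2 * (N * a + 1)) with hη
  have hη0 : 0 < η := by positivity
  have hηs : η * (N * a) ≤ s / 2 := by
    rw [hη, div_mul_eq_mul_div, div_le_iff₀ (by positivity)]
    nlinarith [mul_nonneg (show (0 : ℝ) ≤ N by linarith) ha]
  obtain ⟨c, hc, hmeas⟩ := Pool.Agent.TH768.DG.meas_exp (n := 1) ![0, D] (by
    intro i j hij
    fin_cases i <;> fin_cases j <;> simp_all) η hη0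
  obtain ⟨X₁, hX₁, h1⟩ := no_large hc (C := 2 * (N * K) * K ^ ((N : ℝ) * (2 + η)))
    (by positivity) (show 0 < s / 2 by linarith)
  obtain ⟨X₂, hX₂, h2⟩ := no_large one_pos (C := N * K) (by positivity) hb0
  refine ⟨max X₁ X₂, le_max_of_le_left hX₁, fun X hX U V hU hV hUW hVW hUV => ?_⟩
  have hX0 : 0 ≤ X := hX₁.trans ((le_max_left _ _).trans hX)
  have h1 := h1 X ((le_max_left _ _).trans hX)
  have h2 := h2 X ((le_max_right _ _).trans hX)
  set W := (K * Real.exp (a * X)) ^ N with hW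
  have hKE : 1 ≤ K * Real.exp (a * X) :=
    one_le_mul_of_one_le_of_one_le hK (Real.one_le_exp (by positivity))
  have hW1 : 1 ≤ W := one_le_pow₀ hKE
  have hUR : (1 : ℝ) ≤ U := by exact_mod_cast hU
  have hVR : (1 : ℝ) ≤ V := by exact_mod_cast hV
  set ε := (D : ℝ) - (Real.log U - Real.log V) with hε
  have h3 := hmeas ![-(U : ℤ), V] (by
    intro h0
    have := congrFun h0 1
    simp only [Matrix.cons_val_one, Pi.zero_apply, Matrix.cons_val_fin_one] at this
    omega) W hW1 (by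
    intro j
    fin_cases j
    · simpa using hUW
    · simpa using hVW)
  have h4 : ∑ j : Fin 2, ((![-(U : ℤ), V] : Fin 2 → ℤ) j : ℝ) *
      Real.exp ((![0, D] : Fin 2 → ℤ) j) = U * (Real.exp ε - 1) := by
    rw [Fin.sum_univ_two]
    simp only [Matrix.cons_val_zero, Matrix.cons_val_one, Matrix.cons_val_fin_one, Int.cast_neg,
      Int.cast_natCast, Int.cast_zero, Real.exp_zero, mul_one]
    have h5 : Real.exp ε = Real.exp D * V / U := by
      rw [hε, Real.exp_sub, Real.exp_sub, Real.exp_log (by linarith), Real.exp_log (by linarith)]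
      field_simp
    rw [h5]
    field_simp
    ring
  rw [h4, abs_mul, abs_of_pos (show (0 : ℝ) < U by linarith)] at h3
  have h5 : |Real.exp ε - 1| ≤ 2 * |ε| := Real.abs_exp_sub_one_le (by linarith)
  have h6 : c ≤ 2 * (N * K) * K ^ ((N : ℝ) * (2 + η)) * Real.exp (-(s / 2 * X)) := by
    calc c ≤ W ^ (((1 : ℕ) : ℝ) + η) * (U * |Real.exp ε - 1|) := h3
      _ ≤ W ^ (((1 : ℕ) : ℝ) + η) * (W * (2 * (N * K * Real.exp (-(b * X))))) := by
          have h7 : |Real.exp ε - 1| ≤ 2 * (N * K * Real.exp (-(b * X))) := by linarith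
          gcongr
      _ = (W ^ (((1 : ℕ) : ℝ) + η) * W) * (2 * (N * K) * Real.exp (-(b * X))) := by ring
      _ = W ^ (2 + η) * (2 * (N * K) * Real.exp (-(b * X))) := by
          congr 1
          have h8 : W ^ (((1 : ℕ) : ℝ) + η) * W = W ^ (((1 : ℕ) : ℝ) + η) * W ^ (1 : ℝ) := by
            rw [Real.rpow_one]
          rw [h8, ← Real.rpow_add (by linarith)]
          congr 1
          push_cast
          ring
      _ = (K ^ ((N : ℝ) * (2 + η)) * Real.exp (a * X * ((N : ℝ) * (2 + η)))) *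
            (2 * (N * K) * Real.exp (-(b * X))) := by
          congr 1
          rw [hW, ← Real.rpow_natCast, ← Real.rpow_mul (by linarith),
            Real.mul_rpow (by linarith) (Real.exp_pos _).le, ← Real.exp_mul]
      _ = 2 * (N * K) * K ^ ((N : ℝ) * (2 + η)) *
            Real.exp (a * X * ((N : ℝ) * (2 + η)) + -(b * X)) := by
          rw [Real.exp_add]
          ring
      _ ≤ 2 * (N * K) * K ^ ((N : ℝ) * (2 + η)) * Real.exp (-(s / 2 * X)) := by
          apply mul_le_mul_of_nonneg_left _ (by positivity)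
          apply Real.exp_le_exp.2
          have h9 : a * X * ((N : ℝ) * (2 + η)) + -(b * X) = (η * (N * a) - s) * X := by
            rw [hs]
            ring
          rw [h9]
          have h10 : (η * (N * a) - s) * X ≤ (-(s / 2)) * X :=
            mul_le_mul_of_nonneg_right (by linarith) hX0
          linarith
  linarith

theorem exp_far {K a b : ℝ} {N : ℕ} (hK : 1 ≤ K) (ha : 0 ≤ a) (hN : 1 ≤ N) (h : 2 * N * a < b)
    (Dm : ℕ) : ∃ X₀ : ℝ, 0 ≤ X₀ ∧ ∀ X : ℝ, X₀ ≤ X → ∀ D : ℤ, D ≠ 0 → |D| ≤ Dm →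
      ∀ U V : ℕ, 1 ≤ U → 1 ≤ V →
      (U : ℝ) ≤ (K * Real.exp (a * X)) ^ N → (V : ℝ) ≤ (K * Real.exp (a * X)) ^ N →
      |(D : ℝ) - (Real.log U - Real.log V)| ≤ N * K * Real.exp (-(b * X)) → False := by
  have h1 : ∀ D : ℤ, ∃ X₀ : ℝ, 0 ≤ X₀ ∧ (D ≠ 0 → ∀ X : ℝ, X₀ ≤ X → ∀ U V : ℕ, 1 ≤ U → 1 ≤ V →
      (U : ℝ) ≤ (K * Real.exp (a * X)) ^ N → (V : ℝ) ≤ (K * Real.exp (a * X)) ^ N →
      |(D : ℝ) - (Real.log U - Real.log V)| ≤ N * K * Real.exp (-(b * X)) → False) := by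
    intro D
    by_cases hD : D = 0
    · exact ⟨0, le_rfl, fun h0 => absurd hD h0⟩
    · obtain ⟨X₀, hX₀, h2⟩ := exp_far1 hK ha hN h D hD
      exact ⟨X₀, hX₀, fun _ => h2⟩
  choose f hf0 hf using h1
  refine ⟨∑ D ∈ Icc (-(Dm : ℤ)) Dm, f D, sum_nonneg fun D _ => hf0 D, ?_⟩
  intro X hX D hD hDm
  have h2 : D ∈ Icc (-(Dm : ℤ)) Dm := by
    rw [mem_Icc]
    exact abs_le.1 hDm
  have h3 : f D ≤ ∑ D ∈ Icc (-(Dm : ℤ)) Dm, f D :=
    single_le_sum (f := f) (fun D _ => hf0 D) h2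
  exact hf D hD X (h3.trans hX)

/-- products of powers of rational numbers -/
theorem comb {m : ℕ} (P Q : Fin m → ℕ) (hP : ∀ i, 1 ≤ P i) (hQ : ∀ i, 1 ≤ Q i) {W : ℝ}
    (hW : 1 ≤ W) (hPW : ∀ i, (P i : ℝ) ≤ W) (hQW : ∀ i, (Q i : ℝ) ≤ W) (n : Fin m → ℤ) {N : ℕ}
    (hN : ∑ i, |n i| ≤ N) : ∃ U V : ℕ, 1 ≤ U ∧ 1 ≤ V ∧ (U : ℝ) ≤ W ^ N ∧ (V : ℝ) ≤ W ^ N ∧
      Real.log U - Real.log V = ∑ i, (n i : ℝ) * (Real.log (P i) - Real.log (Q i)) := by
  set u : Fin m → ℕ := fun i => if 0 ≤ n i then P i else Q i with hu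
  set v : Fin m → ℕ := fun i => if 0 ≤ n i then Q i else P i with hv
  have hu1 : ∀ i, 1 ≤ u i := fun i => by rw [hu]; simp only; split_ifs; exacts [hP i, hQ i]
  have hv1 : ∀ i, 1 ≤ v i := fun i => by rw [hv]; simp only; split_ifs; exacts [hQ i, hP i]
  have huW : ∀ i, (u i : ℝ) ≤ W := fun i => by rw [hu]; simp only; split_ifs; exacts [hPW i, hQW i]
  have hvW : ∀ i, (v i : ℝ) ≤ W := fun i => by rw [hv]; simp only; split_ifs; exacts [hQW i, hPW i]
  have hsum : ∑ i, (n i).natAbs ≤ N := by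
    have h1 : ((∑ i, (n i).natAbs : ℕ) : ℤ) ≤ N := by
      push_cast
      exact hN
    exact_mod_cast h1
  have key : ∀ w : Fin m → ℕ, (∀ i, 1 ≤ w i) → (∀ i, (w i : ℝ) ≤ W) →
      1 ≤ ∏ i, w i ^ (n i).natAbs ∧ ((∏ i, w i ^ (n i).natAbs : ℕ) : ℝ) ≤ W ^ N ∧
      Real.log ((∏ i, w i ^ (n i).natAbs : ℕ) : ℝ) =
        ∑ i, ((n i).natAbs : ℝ) * Real.log (w i) := by
    intro w hw hwW
    refine ⟨Finset.one_le_prod' fun i _ => Nat.one_le_pow _ _ (hw i), ?_, ?_⟩
    · push_cast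
      calc ∏ i, (w i : ℝ) ^ (n i).natAbs ≤ ∏ i, W ^ (n i).natAbs :=
            prod_le_prod (fun i _ => by positivity)
              fun i _ => pow_le_pow_left₀ (Nat.cast_nonneg _) (hwW i) _
        _ = W ^ ∑ i, (n i).natAbs := by rw [prod_pow_eq_pow_sum]
        _ ≤ W ^ N := pow_le_pow_right₀ hW hsum
    · push_cast
      rw [Real.log_prod (fun i _ => by
        have : (1 : ℝ) ≤ w i := by exact_mod_cast hw i
        positivity)]
      exact sum_congr rfl fun i _ => by rw [Real.log_pow]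
  obtain ⟨a1, a2, a3⟩ := key u hu1 huW
  obtain ⟨b1, b2, b3⟩ := key v hv1 hvW
  refine ⟨∏ i, u i ^ (n i).natAbs, ∏ i, v i ^ (n i).natAbs, a1, b1, a2, b2, ?_⟩
  rw [a3, b3, ← sum_sub_distrib]
  refine sum_congr rfl fun i _ => ?_
  rw [hu, hv]
  simp only
  split_ifs with h0
  · have h1 : (((n i).natAbs : ℕ) : ℝ) = n i := by
      rw [Nat.cast_natAbs, abs_of_nonneg h0]
    rw [h1]
    ring
  · have h1 : (((n i).natAbs : ℕ) : ℝ) = -(n i) := by
      rw [Nat.cast_natAbs, abs_of_neg (not_le.1 h0)]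
      push_cast
      rfl
    rw [h1]
    ring

/-- exponents of products of powers with rational approximations at the same scale -/
theorem core_det (k R R' : ℕ) {K a b : ℝ} (hK : 1 ≤ K) (ha : 0 ≤ a) (hR : 1 ≤ R)
    (h : 2 * (((k + 1).factorial * R ^ k : ℕ) : ℝ) * a < b) :
    ∃ X₀ : ℝ, 0 ≤ X₀ ∧ ∀ X : ℝ, X₀ ≤ X → ∀ τ : Fin k → ℝ,
      ∀ A : Matrix (Fin (k + 1)) (Fin (k + 1)) ℤ, (∀ i, |A i 0| ≤ R') →
      (∀ i (j : Fin k), |A i j.succ| ≤ R) →
      (∀ i, LApp K a b X ((A i 0 : ℝ) + ∑ j : Fin k, (A i j.succ : ℝ) * τ j)) → A.det = 0 := by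
  set N := (k + 1).factorial * R ^ k with hN
  have hN1 : 1 ≤ N := Nat.mul_pos (Nat.factorial_pos _) (pow_pos hR _)
  obtain ⟨X₀, hX₀, hfar⟩ := exp_far hK ha hN1 h ((k + 1).factorial * (R + R') ^ (k + 1))
  refine ⟨X₀, hX₀, fun X hX τ A hA0 hA hL => ?_⟩
  by_contra hdet
  have hX0 : 0 ≤ X := hX₀.trans hX
  choose P Q hP hQ hPW hQW hl using hL
  have hW : 1 ≤ K * Real.exp (a * X) :=
    one_le_mul_of_one_le_of_one_le hK (Real.one_le_exp (by positivity))
  have hadj : ∀ i, |A.adjugate 0 i| ≤ (k.factorial * R ^ k : ℕ) := by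
    intro i
    rw [Matrix.adjugate_fin_succ_eq_det_submatrix, abs_mul, abs_pow, abs_neg, abs_one, one_pow,
      one_mul]
    have h1 := det_bound (A.submatrix i.succAbove (Fin.succAbove 0)) (E := R) (by
      intro p r
      rw [Matrix.submatrix_apply, Fin.succAbove_zero]
      exact_mod_cast hA _ _)
    exact_mod_cast h1
  have hsum : ∑ i, |A.adjugate 0 i| ≤ (N : ℤ) := by
    refine (sum_le_card_nsmul _ _ _ fun i _ => hadj i).trans (le_of_eq ?_)
    rw [card_univ, Fintype.card_fin, nsmul_eq_mul, hN, Nat.factorial_succ]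
    push_cast
    ring
  obtain ⟨U, V, hU, hV, hUW, hVW, hUV⟩ := comb P Q hP hQ hW hPW hQW (fun i => A.adjugate 0 i) hsum
  refine hfar X hX A.det hdet ?_ U V hU hV hUW hVW ?_
  · have h1 := det_bound A (E := (R + R' : ℕ)) (by
      intro i j
      refine Fin.cases ?_ (fun j => ?_) j
      · have := hA0 i
        have h2 : |A i 0| ≤ ((R + R' : ℕ) : ℤ) := by push_cast; linarith
        exact_mod_cast h2
      · have := hA i j
        have h2 : |A i j.succ| ≤ ((R + R' : ℕ) : ℤ) := by push_cast; linarith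
        exact_mod_cast h2)
    exact_mod_cast h1
  · -- the combination of the logarithms
    have e1 : ∀ j, ∑ i, A.adjugate 0 i * A i j = if 0 = j then A.det else 0 := by
      intro j
      have h := congrFun (congrFun (Matrix.adjugate_mul A) 0) j
      rw [Matrix.mul_apply, Matrix.smul_apply, Matrix.one_apply, smul_eq_mul] at h
      rw [h]
      split_ifs <;> simp
    have e1R : ∀ j, ∑ i, (A.adjugate 0 i : ℝ) * A i j = if 0 = j then (A.det : ℝ) else 0 := by
      intro j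
      have h5 : ((∑ i, A.adjugate 0 i * A i j : ℤ) : ℝ) = ((if 0 = j then A.det else 0 : ℤ) : ℝ) := by
        rw [e1 j]
      rw [Int.cast_sum] at h5
      simp only [Int.cast_mul] at h5
      rw [h5]
      split_ifs
      · rfl
      · exact Int.cast_zero
    have e2 : ∑ i, (A.adjugate 0 i : ℝ) * ((A i 0 : ℝ) + ∑ j : Fin k, (A i j.succ : ℝ) * τ j) =
        A.det := by
      have e3 : ∑ i, (A.adjugate 0 i : ℝ) * ((A i 0 : ℝ) + ∑ j : Fin k, (A i j.succ : ℝ) * τ j) =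
          ∑ i, (A.adjugate 0 i : ℝ) * A i 0 +
            ∑ j : Fin k, (∑ i, (A.adjugate 0 i : ℝ) * A i j.succ) * τ j := by
        simp only [mul_add, sum_add_distrib, mul_sum, sum_mul]
        congr 1
        rw [sum_comm]
        exact sum_congr rfl fun i _ => sum_congr rfl fun j _ => by ring
      rw [e3, e1R 0, if_pos rfl]
      have e4 : ∀ j : Fin k, ∑ i, (A.adjugate 0 i : ℝ) * A i j.succ = 0 := by
        intro j
        rw [e1R j.succ, if_neg (Fin.succ_ne_zero j).symm]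
      simp only [e4, zero_mul, sum_const_zero, add_zero]
    have e5 : (A.det : ℝ) - (Real.log U - Real.log V) = ∑ i, (A.adjugate 0 i : ℝ) *
        (((A i 0 : ℝ) + ∑ j : Fin k, (A i j.succ : ℝ) * τ j) -
          (Real.log (P i) - Real.log (Q i))) := by
      rw [hUV, ← e2, ← sum_sub_distrib]
      exact sum_congr rfl fun i _ => by ring
    rw [e5]
    refine (abs_sum_le_sum_abs _ _).trans ?_
    have e6 : ∀ i ∈ (univ : Finset (Fin (k + 1))), |(A.adjugate 0 i : ℝ) *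
        (((A i 0 : ℝ) + ∑ j : Fin k, (A i j.succ : ℝ) * τ j) -
          (Real.log (P i) - Real.log (Q i)))| ≤
        |(A.adjugate 0 i : ℝ)| * (K * Real.exp (-(b * X))) := by
      intro i _
      rw [abs_mul]
      exact mul_le_mul_of_nonneg_left (hl i) (abs_nonneg _)
    refine (sum_le_sum e6).trans ?_
    rw [← sum_mul, mul_assoc]
    apply mul_le_mul_of_nonneg_right _ (by positivity)
    exact_mod_cast hsum

end Run7.h432.EP
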