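import Pool.Agent.Run7.h432.EP.Few
import Pool.Agent.Run7.h432.EP.Mult
import Mathlib.NumberTheory.SiegelsLemma

set_option autoImplicit false

/-!
# Integer forms in several arbitrary real numbers and in powers of `e`
-/

namespace Run7.h432.EP

open Finset Matrix

section
attribute [local instance] Matrix.seminormedAddCommGroup

theorem siegel {m : ℕ} (hm : 1 ≤ m) (b : Fin (m + 1) → Fin m → ℤ) {E : ℝ} (hE : 1 ≤ E)
    (h : ∀ s j, |(b s j : ℝ)| ≤ E) : ∃ t : Fin (m + 1) → ℤ, t ≠ 0 ∧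
      (∀ j, ∑ s, t s * b s j = 0) ∧ ∀ s, |(t s : ℝ)| ≤ (((m : ℝ) + 1) * E) ^ m := by
  obtain ⟨t, ht, h1, h2⟩ := Int.Matrix.exists_ne_zero_int_vec_norm_le
    (A := (Matrix.of fun (j : Fin m) (s : Fin (m + 1)) => b s j)) (by simp) (by rw [Fintype.card_fin]; omega)
  refine ⟨t, ht, fun j => ?_, fun s => ?_⟩
  · have h3 := congrFun h1 j
    simp only [Matrix.mulVec, dotProduct, Matrix.of_apply, Pi.zero_apply] at h3
    rw [← h3]
    exact sum_congr rfl fun s _ => mul_comm _ _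
  · have h3 : ‖t s‖ ≤ ‖t‖ := norm_le_pi_norm t s
    rw [Int.norm_eq_abs] at h3
    refine h3.trans (h2.trans ?_)
    rw [Fintype.card_fin, Fintype.card_fin]
    have h4 : ((m : ℝ) / (((m + 1 : ℕ) : ℝ) - m)) = (m : ℕ) := by
      push_cast
      rw [add_sub_cancel_left, div_one]
    rw [h4, Real.rpow_natCast]
    have h5 : ‖(Matrix.of fun (j : Fin m) (s : Fin (m + 1)) => b s j)‖ ≤ E := by
      rw [Matrix.norm_le_iff (by linarith)]
      intro j s
      rw [Matrix.of_apply, Int.norm_eq_abs]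
      exact h s j
    have h6 : max 1 ‖(Matrix.of fun (j : Fin m) (s : Fin (m + 1)) => b s j)‖ ≤ E := max_le hE h5
    push_cast
    apply pow_le_pow_left₀ (by positivity)
    exact mul_le_mul_of_nonneg_left h6 (by positivity)

end

/-- the form with the coefficient vectors `a` and `b` -/
noncomputable def form2 {n m : ℕ} (k : Fin n → ℤ) (ξ : Fin m → ℝ) (a : Fin n → ℤ)
    (b : Fin m → ℤ) : ℝ :=
  ∑ i, (a i : ℝ) * Real.exp (k i) + ∑ j, (b j : ℝ) * ξ j

/-- linearly dependent vectors `(a s, b s)` -/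
def Dep {N n m : ℕ} (a : Fin N → Fin n → ℤ) (b : Fin N → Fin m → ℤ) : Prop :=
  ∃ c : Fin N → ℤ, c ≠ 0 ∧ (∀ i, ∑ s, c s * a s i = 0) ∧ ∀ j, ∑ s, c s * b s j = 0

theorem sub_dep {n m : ℕ} (hn : 1 ≤ n) (hm : 1 ≤ m) (k : Fin n → ℤ) (hk : Function.Injective k)
    (hk0 : ∀ i, k i ≠ 0) {α β d : ℝ} (hα : 0 ≤ α) (hd : 0 ≤ d)
    (h : ((n : ℝ) * (m + 1) + m) * (α + d) < β) :
    ∃ X₀ : ℝ, 1 ≤ X₀ ∧ ∀ X : ℝ, X₀ ≤ X → ∀ (ξ : Fin m → ℝ) (a : Fin (m + 1) → Fin n → ℤ)
      (b : Fin (m + 1) → Fin m → ℤ), (∀ s i, |(a s i : ℝ)| ≤ Real.exp (d * X)) →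
      (∀ s j, |(b s j : ℝ)| ≤ Real.exp (d * X)) →
      (∀ s, App2 α β X (form2 k ξ (a s) (b s))) → Dep a b := by
  classical
  have hnR : (1 : ℝ) ≤ n := by exact_mod_cast hn
  have hmR : (1 : ℝ) ≤ m := by exact_mod_cast hm
  set s₀ := β - ((n : ℝ) * (m + 1) + m) * (α + d) with hs₀
  have hs0 : 0 < s₀ := by linarith
  set η := s₀ / (2 * (((m : ℝ) + 1) * (α + d) + 1)) with hη
  have hη0 : 0 < η := by positivity
  have hηs : η * (((m : ℝ) + 1) * (α + d)) ≤ s₀ / 2 := by
    rw [hη, div_mul_eq_mul_div, div_le_iff₀ (by positivity)]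
    have : 0 ≤ ((m : ℝ) + 1) * (α + d) := by positivity
    nlinarith
  obtain ⟨c, hc, hmeas⟩ := Pool.Agent.TH768.DG.normal_exp k hk hk0 η hη0
  set S : ℝ := 1 + ∑ i, Real.exp (k i) with hS
  have hsum0 : 0 ≤ ∑ i, Real.exp (k i) := sum_nonneg fun i _ => (Real.exp_pos _).le
  have hS1 : 1 ≤ S := by rw [hS]; linarith
  set K : ℝ := ((m : ℝ) + 1) ^ (m + 1) with hK
  have hK1 : 1 ≤ K := one_le_pow₀ (by linarith)
  obtain ⟨X₁, hX₁, h1⟩ := no_large hc (C := (S * K) ^ ((n : ℝ) + η) * K) (by positivity)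
    (show 0 < s₀ / 2 by linarith)
  refine ⟨X₁ + 1, by linarith, ?_⟩
  intro X hX ξ a b ha hb hApp
  have hX0 : 0 < X := by linarith
  have h1 := h1 X (by linarith)
  choose q p hq hqX hqp using hApp
  set E := Real.exp (d * X) with hE
  have hE1 : 1 ≤ E := Real.one_le_exp (by positivity)
  set F := Real.exp (α * X) with hF
  have hF1 : 1 ≤ F := Real.one_le_exp (by positivity)
  obtain ⟨t, ht, htb, htE⟩ := siegel hm b hE1 hb
  by_contra hcon
  -- the coefficients of the powers of `e`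
  set g : Fin n → ℤ := fun i => ∑ s, t s * a s i with hg
  have hg0 : g ≠ 0 := by
    intro h0
    exact hcon ⟨t, ht, fun i => congrFun h0 i, htb⟩
  have hQ1 : 1 ≤ ∏ s, q s := Finset.one_le_prod' fun s _ => hq s
  have hQ : ((∏ s, q s : ℕ) : ℝ) ≤ F ^ (m + 1) := by
    push_cast
    calc ∏ s, (q s : ℝ) ≤ ∏ _s : Fin (m + 1), F :=
          prod_le_prod (fun s _ => Nat.cast_nonneg _) fun s _ => hqX s
      _ = F ^ (m + 1) := by simp
  have hQs : ∀ s, ((∏ l ∈ univ.erase s, q l : ℕ) : ℝ) ≤ F ^ m := by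
    intro s
    push_cast
    calc ∏ l ∈ univ.erase s, (q l : ℝ) ≤ ∏ _l ∈ univ.erase s, F :=
          prod_le_prod (fun i _ => Nat.cast_nonneg _) fun i _ => hqX i
      _ = F ^ m := by
          rw [prod_const, card_erase_of_mem (mem_univ _), card_univ, Fintype.card_fin,
            Nat.add_sub_cancel]
  have hQsplit : ∀ s, ((∏ l, q l : ℕ) : ℝ) = ((∏ l ∈ univ.erase s, q l : ℕ) : ℝ) * q s := by
    intro s
    rw [← Nat.cast_mul, Finset.prod_erase_mul _ _ (mem_univ s)]
  set u : ℤ := -∑ s, t s * ((∏ l ∈ univ.erase s, q l : ℕ) : ℤ) * p s with hu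
  set D : Fin n → ℤ := fun i => ((∏ s, q s : ℕ) : ℤ) * g i with hD
  have hD0 : D ≠ 0 := by
    intro h0
    apply hg0
    funext i
    have h2 := congrFun h0 i
    rw [hD] at h2
    simp only [Pi.zero_apply] at h2
    have h3 : ((∏ s, q s : ℕ) : ℤ) ≠ 0 := by exact_mod_cast (by omega : ∏ s, q s ≠ 0)
    exact (mul_eq_zero.1 h2).resolve_left h3
  -- the combination of the forms
  have hcomb : ∑ s, (t s : ℝ) * form2 k ξ (a s) (b s) = ∑ i, (g i : ℝ) * Real.exp (k i) := by
    have e1 : ∑ s, (t s : ℝ) * form2 k ξ (a s) (b s) =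
        ∑ i, (∑ s, (t s : ℝ) * a s i) * Real.exp (k i) +
          ∑ j, (∑ s, (t s : ℝ) * b s j) * ξ j := by
      unfold form2
      simp only [mul_add, sum_add_distrib, mul_sum, sum_mul]
      congr 1
      · rw [sum_comm]
        exact sum_congr rfl fun i _ => sum_congr rfl fun s _ => by ring
      · rw [sum_comm]
        exact sum_congr rfl fun i _ => sum_congr rfl fun s _ => by ring
    have e2 : ∀ j, ∑ s, (t s : ℝ) * b s j = 0 := by
      intro j
      have := htb j
      exact_mod_cast this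
    rw [e1]
    simp only [e2, zero_mul, sum_const_zero, add_zero]
    refine sum_congr rfl fun i _ => ?_
    rw [hg]
    push_cast
    rfl
  have hval : (u : ℝ) + ∑ i, (D i : ℝ) * Real.exp (k i) =
      ∑ s, (t s : ℝ) * ((∏ l ∈ univ.erase s, q l : ℕ) : ℝ) *
        ((q s : ℝ) * form2 k ξ (a s) (b s) - p s) := by
    have e1 : ∑ i, (D i : ℝ) * Real.exp (k i) =
        ((∏ s, q s : ℕ) : ℝ) * ∑ s, (t s : ℝ) * form2 k ξ (a s) (b s) := by
      rw [hcomb, mul_sum]
      refine sum_congr rfl fun i _ => ?_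
      rw [hD]
      push_cast
      ring
    rw [e1, mul_sum, hu]
    have e2 : ((-∑ s, t s * ((∏ l ∈ univ.erase s, q l : ℕ) : ℤ) * p s : ℤ) : ℝ) =
        -∑ s, (t s : ℝ) * ((∏ l ∈ univ.erase s, q l : ℕ) : ℝ) * p s := by
      rw [Int.cast_neg, Int.cast_sum]
      simp only [Int.cast_mul, Int.cast_natCast]
    rw [e2, neg_add_eq_sub, ← sum_sub_distrib]
    refine sum_congr rfl fun s _ => ?_
    rw [hQsplit s]
    ring
  set U := Real.exp (-(β * X)) with hU
  have hβ0 : 0 ≤ β := by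
    have : 0 ≤ ((n : ℝ) * (m + 1) + m) * (α + d) := by positivity
    linarith
  have hU1 : U ≤ 1 := by
    rw [hU, Real.exp_le_one_iff]
    have : 0 ≤ β * X := by positivity
    linarith
  have hU0 : 0 < U := Real.exp_pos _
  have htE' : ∀ s, |(t s : ℝ)| ≤ ((m : ℝ) + 1) ^ m * E ^ m := fun s => by
    have := htE s
    rwa [mul_pow] at this
  have hVle : |(u : ℝ) + ∑ i, (D i : ℝ) * Real.exp (k i)| ≤ K * (E ^ m * F ^ m * U) := by
    rw [hval]
    refine (abs_sum_le_sum_abs _ _).trans ?_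
    have e1 : ∀ s ∈ (univ : Finset (Fin (m + 1))), |(t s : ℝ) *
        ((∏ l ∈ univ.erase s, q l : ℕ) : ℝ) * ((q s : ℝ) * form2 k ξ (a s) (b s) - p s)| ≤
        ((m : ℝ) + 1) ^ m * E ^ m * F ^ m * U := by
      intro s _
      rw [abs_mul, abs_mul, Nat.abs_cast]
      have h2 := htE' s
      have h3 := hQs s
      have h4 := hqp s
      gcongr
    refine (sum_le_card_nsmul _ _ _ e1).trans (le_of_eq ?_)
    rw [card_univ, Fintype.card_fin, nsmul_eq_mul, hK, pow_succ]
    push_cast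
    ring
  have hgi : ∀ i, |(g i : ℝ)| ≤ K * (E ^ m * E) := by
    intro i
    have e1 : (g i : ℝ) = ∑ s, (t s : ℝ) * a s i := by
      rw [hg]
      push_cast
      rfl
    rw [e1]
    refine (abs_sum_le_sum_abs _ _).trans ?_
    have e2 : ∀ s ∈ (univ : Finset (Fin (m + 1))), |(t s : ℝ) * a s i| ≤
        ((m : ℝ) + 1) ^ m * E ^ m * E := by
      intro s _
      rw [abs_mul]
      exact mul_le_mul (htE' s) (ha s i) (abs_nonneg _) (by positivity)
    refine (sum_le_card_nsmul _ _ _ e2).trans (le_of_eq ?_)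
    rw [card_univ, Fintype.card_fin, nsmul_eq_mul, hK, pow_succ]
    push_cast
    ring
  set W : ℝ := (E * F) ^ (m + 1) with hW
  have hW1 : 1 ≤ W := one_le_pow₀ (one_le_mul_of_one_le_of_one_le hE1 hF1)
  have hDi : ∀ i, |(D i : ℝ)| ≤ K * W := by
    intro i
    have e1 : (D i : ℝ) = ((∏ s, q s : ℕ) : ℝ) * g i := by
      rw [hD]
      push_cast
      rfl
    rw [e1, abs_mul, Nat.abs_cast]
    calc ((∏ s, q s : ℕ) : ℝ) * |(g i : ℝ)| ≤ F ^ (m + 1) * (K * (E ^ m * E)) :=
          mul_le_mul hQ (hgi i) (abs_nonneg _) (by positivity)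
      _ = K * W := by rw [hW, mul_pow, pow_succ E]; ring
  set H : ℝ := S * K * W with hH
  have hKW : 1 ≤ K * W := one_le_mul_of_one_le_of_one_le hK1 hW1
  have hH1 : 1 ≤ H := by
    rw [hH, mul_assoc]
    exact one_le_mul_of_one_le_of_one_le hS1 hKW
  have hDH : ∀ i, |(D i : ℝ)| ≤ H := by
    intro i
    refine (hDi i).trans ?_
    rw [hH, mul_assoc]
    exact le_mul_of_one_le_left (by linarith) hS1
  have huH : |(u : ℝ)| ≤ H := by
    have e1 : (u : ℝ) = ((u : ℝ) + ∑ i, (D i : ℝ) * Real.exp (k i)) -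
        ∑ i, (D i : ℝ) * Real.exp (k i) := by ring
    have e2 : |∑ i, (D i : ℝ) * Real.exp (k i)| ≤ K * W * ∑ i, Real.exp (k i) := by
      refine (abs_sum_le_sum_abs _ _).trans ?_
      rw [mul_sum]
      refine sum_le_sum fun i _ => ?_
      rw [abs_mul, abs_of_pos (Real.exp_pos _)]
      exact mul_le_mul_of_nonneg_right (hDi i) (Real.exp_pos _).le
    have e3 : E ^ m * F ^ m * U ≤ W := by
      rw [hW, mul_pow]
      calc E ^ m * F ^ m * U ≤ E ^ (m + 1) * F ^ (m + 1) * 1 := by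
            have h2 := pow_le_pow_right₀ hE1 (Nat.le_succ m)
            have h3 := pow_le_pow_right₀ hF1 (Nat.le_succ m)
            gcongr
        _ = _ := mul_one _
    have e4 : K * (E ^ m * F ^ m * U) ≤ K * W := mul_le_mul_of_nonneg_left e3 (by linarith)
    rw [e1]
    refine (abs_sub _ _).trans ?_
    have e5 : H = K * W + K * W * ∑ i, Real.exp (k i) := by
      rw [hH, hS]
      ring
    rw [e5]
    linarith
  have h2 := hmeas u D (Or.inr hD0) H hH1 huH hDH
  have hWe : W = Real.exp (((m : ℝ) + 1) * (α + d) * X) := by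
    rw [hW, hE, hF, ← Real.exp_add, ← Real.exp_nat_mul]
    congr 1
    push_cast
    ring
  have hVe : E ^ m * F ^ m * U = Real.exp (((m : ℝ) * (α + d) - β) * X) := by
    rw [hE, hF, hU, ← Real.exp_nat_mul, ← Real.exp_nat_mul, ← Real.exp_add, ← Real.exp_add]
    congr 1
    ring
  have h3 : c ≤ (S * K) ^ ((n : ℝ) + η) * K * Real.exp (-(s₀ / 2 * X)) := by
    calc c ≤ H ^ ((n : ℝ) + η) * |(u : ℝ) + ∑ i, (D i : ℝ) * Real.exp (k i)| := h2
      _ ≤ H ^ ((n : ℝ) + η) * (K * (E ^ m * F ^ m * U)) := by gcongr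
      _ = (S * K) ^ ((n : ℝ) + η) * K *
            Real.exp (((m : ℝ) + 1) * (α + d) * X * ((n : ℝ) + η) +
              ((m : ℝ) * (α + d) - β) * X) := by
          rw [hH, Real.mul_rpow (by positivity) (by linarith), hWe, ← Real.exp_mul, hVe,
            Real.exp_add]
          ring
      _ ≤ (S * K) ^ ((n : ℝ) + η) * K * Real.exp (-(s₀ / 2 * X)) := by
          apply mul_le_mul_of_nonneg_left _ (by positivity)
          apply Real.exp_le_exp.2
          have a4 : ((m : ℝ) + 1) * (α + d) * X * ((n : ℝ) + η) + ((m : ℝ) * (α + d) - β) * X =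
              (η * (((m : ℝ) + 1) * (α + d)) - s₀) * X := by
            rw [hs₀]
            ring
          rw [a4]
          have a5 : (η * (((m : ℝ) + 1) * (α + d)) - s₀) * X ≤ (-(s₀ / 2)) * X :=
            mul_le_mul_of_nonneg_right (by linarith) hX0.le
          linarith
  linarith

/-- the part of the arbitrary numbers is nondegenerate -/
theorem sub_det {n m : ℕ} (hn : 1 ≤ n) (hm : 1 ≤ m) (k : Fin n → ℤ) (hk : Function.Injective k)
    (hk0 : ∀ i, k i ≠ 0) {α β d : ℝ} (hα : 0 ≤ α) (hd : 0 ≤ d)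
    (h : ((n : ℝ) * (m + 1) + m) * (α + d) < β) :
    ∃ X₀ : ℝ, 1 ≤ X₀ ∧ (∀ X : ℝ, X₀ ≤ X → ∀ (ξ : Fin m → ℝ) (a : Fin (m + 1) → Fin n → ℤ)
      (b : Fin (m + 1) → Fin m → ℤ), (∀ s i, |(a s i : ℝ)| ≤ Real.exp (d * X)) →
      (∀ s j, |(b s j : ℝ)| ≤ Real.exp (d * X)) →
      (∀ s, App2 α β X (form2 k ξ (a s) (b s))) → Dep a b) ∧
      ∀ X : ℝ, X₀ ≤ X → ∀ (ξ : Fin m → ℝ) (a : Fin m → Fin n → ℤ)
      (b : Fin m → Fin m → ℤ), (∀ s i, |(a s i : ℝ)| ≤ Real.exp (d * X)) →
      (∀ s j, |(b s j : ℝ)| ≤ Real.exp (d * X)) →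
      (∀ s, App2 α β X (form2 k ξ (a s) (b s))) → ¬ Dep a b → (Matrix.of b).det ≠ 0 := by
  obtain ⟨X₀, hX₀, hdep⟩ := sub_dep hn hm k hk hk0 hα hd h
  refine ⟨X₀, hX₀, hdep, ?_⟩
  intro X hX ξ a b ha hb hApp hnd hdet
  have hX0 : 0 < X := by linarith
  obtain ⟨c, hc, hbc⟩ := Matrix.exists_mulVec_eq_zero_iff.2 hdet
  have hbc' : ∀ s, ∑ j, b s j * c j = 0 := fun s => by
    have := congrFun hbc s
    simpa [Matrix.mulVec, dotProduct] using this
  obtain ⟨j₀, hj₀⟩ : ∃ j, c j ≠ 0 := by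
    by_contra hcon
    push Not at hcon
    exact hc (funext hcon)
  have hj₀R : (c j₀ : ℝ) ≠ 0 := by exact_mod_cast hj₀
  set ξ' : Fin m → ℝ := fun j => ξ j - ξ j₀ / c j₀ * c j with hξ'
  have hform : ∀ s, form2 k ξ' (a s) (b s) = form2 k ξ (a s) (b s) := by
    intro s
    unfold form2
    congr 1
    have e1 : ∑ j, (b s j : ℝ) * ξ' j = ∑ j, (b s j : ℝ) * ξ j -
        ξ j₀ / c j₀ * ∑ j, (b s j : ℝ) * c j := by
      rw [mul_sum, ← sum_sub_distrib]
      refine sum_congr rfl fun j _ => ?_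
      rw [hξ']
      ring
    have e2 : ∑ j, (b s j : ℝ) * c j = 0 := by exact_mod_cast hbc' s
    rw [e1, e2, mul_zero, sub_zero]
  have hξ0 : ξ' j₀ = 0 := by
    rw [hξ']
    field_simp
    ring
  have hexp : 1 ≤ Real.exp (d * X) := Real.one_le_exp (by positivity)
  obtain ⟨t, ht, hta, htb⟩ := hdep X hX ξ' (Fin.cons 0 a) (Fin.cons (Pi.single j₀ 1) b)
    (fun s i => by
      refine Fin.cases ?_ (fun s => ?_) s
      · simpa using le_trans zero_le_one hexp
      · simpa using ha s i)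
    (fun s j => by
      refine Fin.cases ?_ (fun s => ?_) s
      · simp only [Fin.cons_zero, Pi.single_apply]
        split_ifs
        · simpa using hexp
        · simpa using le_trans zero_le_one hexp
      · simpa using hb s j)
    (fun s => by
      refine Fin.cases ?_ (fun s => ?_) s
      · have e1 : form2 k ξ' ((Fin.cons 0 a : Fin (m + 1) → Fin n → ℤ) 0)
            ((Fin.cons (Pi.single j₀ 1) b : Fin (m + 1) → Fin m → ℤ) 0) = 0 := by
          unfold form2
          simp only [Fin.cons_zero, Pi.zero_apply, Int.cast_zero, zero_mul, sum_const_zero,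
            zero_add, Pi.single_apply]
          rw [Finset.sum_eq_single j₀]
          · rw [hξ0, mul_zero]
          · intro j _ hj
            rw [if_neg hj]
            simp
          · intro h0
            exact absurd (mem_univ _) h0
        rw [e1]
        refine ⟨1, 0, le_rfl, ?_, ?_⟩
        · rw [Nat.cast_one]
          exact Real.one_le_exp (by positivity)
        · simp only [mul_zero, Int.cast_zero, sub_zero, abs_zero]
          exact (Real.exp_pos _).le
      · simp only [Fin.cons_succ]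
        rw [hform]
        exact hApp s)
  have hta' : ∀ i, ∑ s : Fin m, t s.succ * a s i = 0 := by
    intro i
    have h1 := hta i
    rw [Fin.sum_univ_succ] at h1
    simpa using h1
  have htb' : ∀ j, t 0 * (Pi.single j₀ (1 : ℤ) : Fin m → ℤ) j + ∑ s : Fin m, t s.succ * b s j = 0 := by
    intro j
    have h1 := htb j
    rw [Fin.sum_univ_succ] at h1
    simpa using h1
  have ht0 : t 0 = 0 := by
    have h1 : ∑ j, (t 0 * (Pi.single j₀ (1 : ℤ) : Fin m → ℤ) j +
        ∑ s : Fin m, t s.succ * b s j) * c j = 0 := by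
      apply sum_eq_zero
      intro j _
      rw [htb' j, zero_mul]
    have h2 : ∑ j, (t 0 * (Pi.single j₀ (1 : ℤ) : Fin m → ℤ) j +
        ∑ s : Fin m, t s.succ * b s j) * c j = t 0 * c j₀ +
          ∑ s : Fin m, t s.succ * ∑ j, b s j * c j := by
      simp only [add_mul, sum_add_distrib, mul_sum, sum_mul]
      congr 1
      · rw [Finset.sum_eq_single j₀]
        · rw [Pi.single_eq_same, mul_one]
        · intro j _ hj
          rw [Pi.single_eq_of_ne hj, mul_zero, zero_mul]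
        · intro h0
          exact absurd (mem_univ _) h0
      · rw [sum_comm]
        exact sum_congr rfl fun s _ => sum_congr rfl fun j _ => by ring
    rw [h2] at h1
    simp only [hbc', mul_zero, sum_const_zero, add_zero] at h1
    exact (mul_eq_zero.1 h1).resolve_right hj₀
  apply hnd
  refine ⟨fun s => t s.succ, ?_, hta', fun j => ?_⟩
  · intro h0
    apply ht
    funext s
    refine Fin.cases ht0 (fun s => ?_) s
    exact congrFun h0 s
  · have h1 := htb' j
    rw [ht0, zero_mul, zero_add] at h1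
    exact h1

end Run7.h432.EP
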