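import Pool.Agent.Run7.h432.EP.Sub

set_option autoImplicit false

/-!
# Several arbitrary real numbers: chains of scales
-/

namespace Run7.h432.EP

open Finset Matrix

/-- the vectors `(a s, b s)` are independent and well approximable at the scale `Y` -/
def AV2 {n m : ℕ} (k : Fin n → ℤ) (ξ : Fin m → ℝ) (κ δ Y : ℝ) (a : Fin m → Fin n → ℤ)
    (b : Fin m → Fin m → ℤ) : Prop :=
  ¬ Dep a b ∧ (∀ s i, |(a s i : ℝ)| ≤ Real.exp (δ * Y)) ∧
    (∀ s j, |(b s j : ℝ)| ≤ Real.exp (δ * Y)) ∧ ∀ s, App κ Y (form2 k ξ (a s) (b s))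

theorem chain_core {n m : ℕ} (hn : 1 ≤ n) (hm : 1 ≤ m) (k : Fin n → ℤ)
    (hk : Function.Injective k) (hk0 : ∀ i, k i ≠ 0) {κ δ : ℝ} (hκ : 0 ≤ κ) (hδ : 0 ≤ δ)
    (h : ((n : ℝ) * (m + 1) + m) * (κ + δ) + κ < 1) : ∃ X₂ T c : ℝ, 1 ≤ X₂ ∧ 0 ≤ T ∧ 0 < c ∧
      ∀ (ξ : Fin m → ℝ) (Y : ℕ → ℝ), X₂ ≤ Y 0 → (∀ i, Y i ≤ Y (i + 1)) →
      (∀ i, Y (i + 1) ≤ Y i + 1) → (∀ i, ∃ a b, AV2 k ξ κ δ (Y i) a b) →
      ∃ (A : ℤ) (D : Fin m → ℤ) (F : Fin m → Fin n → ℤ), A ≠ 0 ∧
        |(A : ℝ)| ≤ Real.exp (T * Y 0) ∧ (∀ j l, |(F j l : ℝ)| ≤ Real.exp (T * Y 0)) ∧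
        ∀ i j, |A * ξ j - (D j + ∑ l, (F j l : ℝ) * Real.exp (k l))| ≤
          Real.exp (T * Y 0 - c * Y i) := by
  classical
  have hnR : (1 : ℝ) ≤ n := by exact_mod_cast hn
  have hmR : (1 : ℝ) ≤ m := by exact_mod_cast hm
  set N₀ : ℝ := (n : ℝ) * (m + 1) + m with hN₀
  have hN₀0 : 0 < N₀ := by positivity
  have hN₀m : 2 * (m : ℝ) + 1 ≤ N₀ := by
    rw [hN₀]
    nlinarith
  set s₀ := 1 - (N₀ * (κ + δ) + κ) with hs₀
  have hs0 : 0 < s₀ := by linarith
  set θ := s₀ / (2 * (N₀ * (κ + δ) + 1)) with hθ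
  have hden : 0 < N₀ * (κ + δ) + 1 := by positivity
  have hθ0 : 0 < θ := by positivity
  have hθs : N₀ * (κ + δ) * θ ≤ s₀ / 2 := by
    rw [hθ, mul_div_assoc', div_le_iff₀ (by positivity)]
    nlinarith [mul_nonneg hN₀0.le (by linarith : (0 : ℝ) ≤ κ + δ)]
  have hκδ0 : 0 ≤ κ + δ := by linarith
  obtain ⟨X₁, hX₁, hdep, hdet⟩ := sub_det hn hm k hk hk0 (α := κ * (1 + θ)) (β := 1 - κ)
    (d := δ * (1 + θ)) (by positivity) (by positivity) (by
      rw [← hN₀]
      have e1 : N₀ * (κ * (1 + θ) + δ * (1 + θ)) = N₀ * (κ + δ) + N₀ * (κ + δ) * θ := by ring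
      rw [e1]
      linarith)
  -- the rate of the approximations of the final numbers
  set M : ℝ := (m : ℝ) * (κ + δ) with hM
  have hM0 : 0 ≤ M := by positivity
  have hM1 : 2 * M + s₀ ≤ 1 - κ := by
    have e1 : (2 * (m : ℝ) + 1) * (κ + δ) ≤ N₀ * (κ + δ) :=
      mul_le_mul_of_nonneg_right hN₀m hκδ0
    have e2 : 2 * M = (2 * (m : ℝ)) * (κ + δ) := by rw [hM]; ring
    have e3 : (2 * (m : ℝ) + 1) * (κ + δ) = (2 * (m : ℝ)) * (κ + δ) + (κ + δ) := by ring
    linarith
  set τ := s₀ / 4 with hτ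
  have hτ0 : 0 < τ := by positivity
  set K : ℝ := (m : ℝ) * m.factorial with hK
  have hfac1 : (1 : ℝ) ≤ m.factorial := by exact_mod_cast m.factorial_pos
  have hK1 : 1 ≤ K := one_le_mul_of_one_le_of_one_le hmR hfac1
  obtain ⟨X₃, hX₃, h3⟩ := no_large one_pos (C := 2 * K * Real.exp (M + τ)) (by positivity)
    (show 0 < 1 - κ - M - (M + τ) by linarith)
  set X₂ := max (max X₃ X₁) (max (Real.log K / τ) (1 / θ)) with hX₂
  have hX₂3 : X₃ ≤ X₂ := (le_max_left _ _).trans (le_max_left _ _)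
  have hX₂1 : X₁ ≤ X₂ := (le_max_right _ _).trans (le_max_left _ _)
  have hX₂f : Real.log K / τ ≤ X₂ := (le_max_left _ _).trans (le_max_right _ _)
  have hX₂θ : 1 / θ ≤ X₂ := (le_max_right _ _).trans (le_max_right _ _)
  have hKY : ∀ Y, X₂ ≤ Y → K ≤ Real.exp (τ * Y) := by
    intro Y hY
    have h1 := hX₂f.trans hY
    rw [div_le_iff₀ hτ0, Real.log_le_iff_le_exp (by linarith), mul_comm] at h1
    exact h1
  refine ⟨X₂, M + 2 * τ + δ, 1 - κ - M, hX₁.trans hX₂1, by positivity, by linarith, ?_⟩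
  intro ξ Y hY0 hYm hY1 hex
  choose a b hnd ha hb hApp using hex
  have hYi : ∀ i : ℕ, X₂ ≤ Y i := by
    intro i
    induction i with
    | zero => exact hY0
    | succ i ih => exact ih.trans (hYm i)
  have hX₂pos : 0 < X₂ := by linarith
  have hYpos : ∀ i : ℕ, 0 < Y i := fun i => by have := hYi i; linarith
  -- monotonicity in the scale
  have mono : ∀ (u Y : ℝ), 0 ≤ u → 0 < Y → Real.exp (u * Y) ≤ Real.exp (u * (1 + θ) * Y) := by
    intro u Y hu hY
    apply Real.exp_le_exp.2
    have : 0 ≤ u * θ * Y := by positivity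
    have e : u * (1 + θ) * Y = u * Y + u * θ * Y := by ring
    linarith
  have mono' : ∀ (u Y Z : ℝ), 0 ≤ u → X₂ ≤ Y → Z ≤ Y + 1 → Real.exp (u * Z) ≤
      Real.exp (u * (1 + θ) * Y) := by
    intro u Y Z hu hY hZ
    apply Real.exp_le_exp.2
    have h1 : 1 ≤ θ * Y := by
      have := hX₂θ.trans hY
      rw [div_le_iff₀ hθ0] at this
      linarith
    have e : u * (1 + θ) * Y = u * Y + u * (θ * Y) := by ring
    have e2 : u * 1 ≤ u * (θ * Y) := mul_le_mul_of_nonneg_left h1 hu
    have e3 : u * Z ≤ u * (Y + 1) := mul_le_mul_of_nonneg_left hZ hu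
    linarith
  have happ : ∀ (i : ℕ) s, App2 (κ * (1 + θ)) (1 - κ) (Y i) (form2 k ξ (a i s) (b i s)) := by
    intro i s
    obtain ⟨q, p, hq, hqX, hqp⟩ := hApp i s
    refine ⟨q, p, hq, hqX.trans (mono κ _ hκ (hYpos i)), hqp.trans (le_of_eq ?_)⟩
    congr 1
    ring
  have hκ1 : 0 ≤ 1 - κ := by linarith
  have happ' : ∀ (i : ℕ) s, App2 (κ * (1 + θ)) (1 - κ) (Y i)
      (form2 k ξ (a (i + 1) s) (b (i + 1) s)) := by
    intro i s
    obtain ⟨q, p, hq, hqX, hqp⟩ := hApp (i + 1) s
    refine ⟨q, p, hq, hqX.trans (mono' κ _ _ hκ (hYi i) (hY1 i)),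
      hqp.trans (Real.exp_le_exp.2 ?_)⟩
    have e : κ * Y (i + 1) - Y (i + 1) = -((1 - κ) * Y (i + 1)) := by ring
    have e2 : (1 - κ) * Y i ≤ (1 - κ) * Y (i + 1) := mul_le_mul_of_nonneg_left (hYm i) hκ1
    linarith
  have hdetb : ∀ i, (Matrix.of (b i)).det ≠ 0 := fun i =>
    hdet (Y i) (hX₂1.trans (hYi i)) ξ (a i) (b i)
      (fun s j => (ha i s j).trans (mono δ _ hδ (hYpos i)))
      (fun s j => (hb i s j).trans (mono δ _ hδ (hYpos i))) (happ i) (hnd i)
  -- the solution with integer entries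
  set d₀ : ℤ := (Matrix.of (b 0)).det with hd₀
  have hd0 : d₀ ≠ 0 := hdetb 0
  set G : Fin m → Fin n → ℤ := fun j l => ∑ s, (Matrix.of (b 0)).adjugate j s * a 0 s l with hG
  have hGi : ∀ i s l, ∑ j, b i s j * G j l = d₀ * a i s l := by
    intro i
    induction i with
    | zero =>
      intro s l
      have h1 : ∀ s', ∑ j, b 0 s j * (Matrix.of (b 0)).adjugate j s' =
          if s = s' then d₀ else 0 := by
        intro s'
        have h2 := congrFun (congrFun (Matrix.mul_adjugate (Matrix.of (b 0))) s) s'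
        rw [Matrix.mul_apply, Matrix.smul_apply, Matrix.one_apply, smul_eq_mul] at h2
        simp only [Matrix.of_apply] at h2
        rw [h2, ← hd₀]
        split_ifs <;> simp
      have h2 : ∑ j, b 0 s j * G j l =
          ∑ s', (∑ j, b 0 s j * (Matrix.of (b 0)).adjugate j s') * a 0 s' l := by
        rw [hG]
        simp only [mul_sum, sum_mul]
        rw [sum_comm]
        exact sum_congr rfl fun s' _ => sum_congr rfl fun j _ => by ring
      rw [h2]
      simp only [h1, ite_mul, zero_mul]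
      rw [Finset.sum_ite_eq, if_pos (mem_univ _)]
    | succ i ih =>
      intro s l
      obtain ⟨t, ht, hta, htb⟩ := hdep (Y i) (hX₂1.trans (hYi i)) ξ
        (Fin.cons (a (i + 1) s) (a i)) (Fin.cons (b (i + 1) s) (b i))
        (fun s' j => by
          refine Fin.cases ?_ (fun s' => ?_) s'
          · exact (ha (i + 1) s j).trans (mono' δ _ _ hδ (hYi i) (hY1 i))
          · exact (ha i s' j).trans (mono δ _ hδ (hYpos i)))
        (fun s' j => by
          refine Fin.cases ?_ (fun s' => ?_) s'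
          · exact (hb (i + 1) s j).trans (mono' δ _ _ hδ (hYi i) (hY1 i))
          · exact (hb i s' j).trans (mono δ _ hδ (hYpos i)))
        (fun s' => by
          refine Fin.cases ?_ (fun s' => ?_) s'
          · exact happ' i s
          · exact happ i s')
      have hta' : ∀ l, t 0 * a (i + 1) s l + ∑ s' : Fin m, t s'.succ * a i s' l = 0 := by
        intro l
        have h1 := hta l
        rw [Fin.sum_univ_succ] at h1
        simpa using h1
      have htb' : ∀ j, t 0 * b (i + 1) s j + ∑ s' : Fin m, t s'.succ * b i s' j = 0 := by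
        intro j
        have h1 := htb j
        rw [Fin.sum_univ_succ] at h1
        simpa using h1
      have ht0 : t 0 ≠ 0 := by
        intro ht0
        apply hnd i
        refine ⟨fun s' => t s'.succ, ?_, fun l => ?_, fun j => ?_⟩
        · intro h0
          apply ht
          funext s'
          refine Fin.cases ht0 (fun s' => ?_) s'
          exact congrFun h0 s'
        · have h1 := hta' l
          rw [ht0, zero_mul, zero_add] at h1
          exact h1
        · have h1 := htb' j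
          rw [ht0, zero_mul, zero_add] at h1
          exact h1
      apply mul_left_cancel₀ ht0
      have e1 : t 0 * ∑ j, b (i + 1) s j * G j l =
          -∑ s' : Fin m, t s'.succ * ∑ j, b i s' j * G j l := by
        have e2 : ∀ j, t 0 * b (i + 1) s j = -∑ s' : Fin m, t s'.succ * b i s' j := by
          intro j
          have h1 := htb' j
          linarith
        rw [mul_sum]
        have e3 : ∀ j ∈ (univ : Finset (Fin m)), t 0 * (b (i + 1) s j * G j l) =
            -∑ s' : Fin m, t s'.succ * b i s' j * G j l := by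
          intro j _
          rw [← mul_assoc, e2 j, neg_mul, sum_mul]
        rw [sum_congr rfl e3, sum_neg_distrib, sum_comm]
        congr 1
        refine sum_congr rfl fun s' _ => ?_
        rw [mul_sum]
        exact sum_congr rfl fun j _ => by ring
      rw [e1]
      simp only [ih]
      have h1 := hta' l
      have h2 : ∑ s' : Fin m, t s'.succ * (d₀ * a i s' l) =
          d₀ * ∑ s' : Fin m, t s'.succ * a i s' l := by
        rw [mul_sum]
        exact sum_congr rfl fun s' _ => by ring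
      rw [h2]
      linear_combination (-d₀) * h1
  -- the numbers `z j`
  have hd0R : (d₀ : ℝ) ≠ 0 := by exact_mod_cast hd0
  set z : Fin m → ℝ := fun j => ξ j + (∑ l, (G j l : ℝ) * Real.exp (k l)) / d₀ with hz
  have hBz : ∀ i s, ∑ j, (b i s j : ℝ) * z j = form2 k ξ (a i s) (b i s) := by
    intro i s
    have e1 : ∑ j, (b i s j : ℝ) * ((∑ l, (G j l : ℝ) * Real.exp (k l)) / d₀) =
        ∑ l, (a i s l : ℝ) * Real.exp (k l) := by
      have e2 : ∀ l, (∑ j, (b i s j : ℝ) * G j l) = d₀ * a i s l := by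
        intro l
        exact_mod_cast hGi i s l
      have e3 : ∑ j, (b i s j : ℝ) * ((∑ l, (G j l : ℝ) * Real.exp (k l)) / d₀) =
          (∑ l, (∑ j, (b i s j : ℝ) * G j l) * Real.exp (k l)) / d₀ := by
        rw [sum_div]
        simp only [sum_div, mul_sum, sum_mul]
        rw [sum_comm]
        exact sum_congr rfl fun l _ => sum_congr rfl fun j _ => by ring
      rw [e3]
      simp only [e2]
      rw [div_eq_iff hd0R, sum_mul]
      exact sum_congr rfl fun l _ => by ring
    unfold form2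
    rw [hz]
    simp only [mul_add, sum_add_distrib]
    rw [e1]
    ring
  choose q p hq hqX hqp using hApp
  set Q : ℕ → ℤ := fun i => (Matrix.of (b i)).det * ((∏ s, q i s : ℕ) : ℤ) with hQ
  set P : ℕ → Fin m → ℤ := fun i j => ∑ s, (Matrix.of (b i)).adjugate j s *
        ((∏ l ∈ univ.erase s, q i l : ℕ) : ℤ) * p i s with hP
  have hQ0 : ∀ i, Q i ≠ 0 := by
    intro i
    have hQ1 : 1 ≤ ∏ s, q i s := Finset.one_le_prod' fun s _ => hq _ s
    exact mul_ne_zero (hdetb _) (by exact_mod_cast (by omega : ∏ s, q i s ≠ 0))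
  have hprod : ∀ i, ((∏ s, q i s : ℕ) : ℝ) ≤ Real.exp (κ * Y i) ^ m := by
    intro i
    push_cast
    calc ∏ s, (q i s : ℝ) ≤ ∏ _s : Fin m, Real.exp (κ * Y i) :=
          prod_le_prod (fun s _ => Nat.cast_nonneg _) fun s _ => hqX _ s
      _ = Real.exp (κ * Y i) ^ m := by simp
  have hfacY : ∀ i, (m.factorial : ℝ) ≤ Real.exp (τ * Y i) := by
    intro i
    refine le_trans ?_ (hKY _ (hYi i))
    rw [hK]
    exact le_mul_of_one_le_left (by linarith) hmR
  have hQle : ∀ i, |(Q i : ℝ)| ≤ Real.exp ((M + τ) * Y i) := by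
    intro i
    have hdb := det_bound (Matrix.of (b i)) (E := Real.exp (δ * Y i)) (fun s l => hb _ s l)
    rw [hQ]
    simp only
    rw [Int.cast_mul, Int.cast_natCast, abs_mul, Nat.abs_cast]
    calc |((Matrix.of (b i)).det : ℝ)| * ((∏ s, q i s : ℕ) : ℝ) ≤
          ((m.factorial : ℝ) * Real.exp (δ * Y i) ^ m) * Real.exp (κ * Y i) ^ m := by
            have := hprod i
            gcongr
      _ ≤ (Real.exp (τ * Y i) * Real.exp (δ * Y i) ^ m) * Real.exp (κ * Y i) ^ m := by
          have := hfacY i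
          gcongr
      _ = Real.exp ((M + τ) * Y i) := by
          rw [← Real.exp_nat_mul, ← Real.exp_nat_mul, ← Real.exp_add, ← Real.exp_add, hM]
          congr 1
          ring
  have hQz : ∀ i j, |(Q i : ℝ) * z j - P i j| ≤ K * Real.exp (-((1 - κ - M) * Y i)) := by
    intro i j
    set B := Matrix.of (b i) with hB
    have hQs : ∀ s, ((∏ l ∈ univ.erase s, q i l : ℕ) : ℝ) ≤ Real.exp (κ * Y i) ^ m := by
      intro s
      have h1 : ((∏ l ∈ univ.erase s, q i l : ℕ) : ℝ) ≤ ((∏ l, q i l : ℕ) : ℝ) := by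
        exact_mod_cast Finset.prod_le_prod_of_subset_of_one_le' (Finset.erase_subset _ _)
          (fun l _ _ => hq _ l)
      exact h1.trans (hprod i)
    have hQsplit : ∀ s, ((∏ l, q i l : ℕ) : ℝ) =
        ((∏ l ∈ univ.erase s, q i l : ℕ) : ℝ) * q i s := by
      intro s
      rw [← Nat.cast_mul, Finset.prod_erase_mul _ _ (mem_univ s)]
    have hadj : ∀ l, ∑ s, (B.adjugate j s : ℝ) * (b i s l : ℝ) =
        if j = l then (B.det : ℝ) else 0 := by
      intro l
      have h := congrFun (congrFun (Matrix.adjugate_mul B) j) l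
      rw [Matrix.mul_apply, Matrix.smul_apply, Matrix.one_apply, smul_eq_mul] at h
      have h5 : ((∑ s, B.adjugate j s * b i s l : ℤ) : ℝ) =
          ((B.det * (if j = l then 1 else 0) : ℤ) : ℝ) := by
        rw [← h]
        rfl
      rw [Int.cast_sum] at h5
      simp only [Int.cast_mul] at h5
      rw [h5]
      split_ifs
      · rw [Int.cast_one, mul_one]
      · rw [Int.cast_zero, mul_zero]
    have hdz : (B.det : ℝ) * z j = ∑ s, (B.adjugate j s : ℝ) * form2 k ξ (a i s) (b i s) := by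
      simp only [← hBz]
      have e1 : ∑ s, (B.adjugate j s : ℝ) * ∑ l, (b i s l : ℝ) * z l =
          ∑ l, (∑ s, (B.adjugate j s : ℝ) * b i s l) * z l := by
        simp only [mul_sum, sum_mul]
        rw [sum_comm]
        exact sum_congr rfl fun l _ => sum_congr rfl fun s _ => by ring
      rw [e1]
      simp only [hadj, ite_mul, zero_mul]
      rw [Finset.sum_ite_eq, if_pos (mem_univ _)]
    have hval : (Q i : ℝ) * z j - (P i j : ℝ) =
        ∑ s, (B.adjugate j s : ℝ) * ((∏ l ∈ univ.erase s, q i l : ℕ) : ℝ) *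
          ((q i s : ℝ) * form2 k ξ (a i s) (b i s) - p i s) := by
      rw [hQ, hP]
      simp only
      rw [← hB, Int.cast_mul, Int.cast_natCast, Int.cast_sum]
      simp only [Int.cast_mul, Int.cast_natCast]
      have e1 : (B.det : ℝ) * ((∏ s, q i s : ℕ) : ℝ) * z j =
          ((∏ s, q i s : ℕ) : ℝ) * ∑ s, (B.adjugate j s : ℝ) *
            form2 k ξ (a i s) (b i s) := by
        rw [← hdz]
        ring
      rw [e1, mul_sum, ← sum_sub_distrib]
      refine sum_congr rfl fun s _ => ?_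
      rw [hQsplit s]
      ring
    rw [hval]
    refine (abs_sum_le_sum_abs _ _).trans ?_
    have hEδ : 1 ≤ Real.exp (δ * Y i) := Real.one_le_exp (by
      have := hYpos i
      positivity)
    have e2 : ∀ s ∈ (univ : Finset (Fin m)), |(B.adjugate j s : ℝ) *
        ((∏ l ∈ univ.erase s, q i l : ℕ) : ℝ) *
          ((q i s : ℝ) * form2 k ξ (a i s) (b i s) - p i s)| ≤
        ((m.factorial : ℝ) * Real.exp (δ * Y i) ^ m) * Real.exp (κ * Y i) ^ m *
          Real.exp (κ * Y i - Y i) := by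
      intro s _
      rw [abs_mul, abs_mul, Nat.abs_cast]
      have h2 := adj_bound B hEδ (fun s l => hb _ s l) j s
      have h3 := hQs s
      have h4 := hqp i s
      gcongr
    refine (sum_le_card_nsmul _ _ _ e2).trans (le_of_eq ?_)
    rw [card_univ, Fintype.card_fin, nsmul_eq_mul, ← Real.exp_nat_mul, ← Real.exp_nat_mul]
    have e3 : Real.exp (-((1 - κ - M) * Y i)) = Real.exp ((m : ℝ) * (δ * Y i)) *
        Real.exp ((m : ℝ) * (κ * Y i)) * Real.exp (κ * Y i - Y i) := by
      rw [← Real.exp_add, ← Real.exp_add, hM]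
      congr 1
      ring
    rw [e3]
    ring
  -- the fractions coincide
  have hstep : ∀ i j, Q (i + 1) * P i j = Q i * P (i + 1) j := by
    intro i j
    have h1 := hQz i j
    have h2 := hQz (i + 1) j
    have h4 := hQle i
    have h5 := hQle (i + 1)
    have e1 : ((Q (i + 1) * P i j - Q i * P (i + 1) j : ℤ) : ℝ) =
        Q i * (Q (i + 1) * z j - P (i + 1) j) - Q (i + 1) * (Q i * z j - P i j) := by
      push_cast
      ring
    have e2 : Real.exp ((M + τ) * Y i) ≤ Real.exp (M + τ) * Real.exp ((M + τ) * Y i) :=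
      le_mul_of_one_le_left (Real.exp_pos _).le (Real.one_le_exp (by positivity))
    have e3 : Real.exp ((M + τ) * Y (i + 1)) ≤ Real.exp (M + τ) * Real.exp ((M + τ) * Y i) := by
      rw [← Real.exp_add]
      apply Real.exp_le_exp.2
      have := mul_le_mul_of_nonneg_left (hY1 i) (show 0 ≤ M + τ by linarith)
      linarith
    have e4 : Real.exp (-((1 - κ - M) * Y (i + 1))) ≤ Real.exp (-((1 - κ - M) * Y i)) := by
      apply Real.exp_le_exp.2
      have := mul_le_mul_of_nonneg_left (hYm i) (show 0 ≤ 1 - κ - M by linarith)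
      linarith
    have e5 : |((Q (i + 1) * P i j - Q i * P (i + 1) j : ℤ) : ℝ)| < 1 := by
      rw [e1]
      refine lt_of_le_of_lt (abs_sub _ _) ?_
      rw [abs_mul, abs_mul]
      calc |(Q i : ℝ)| * |(Q (i + 1) : ℝ) * z j - P (i + 1) j| +
            |(Q (i + 1) : ℝ)| * |(Q i : ℝ) * z j - P i j| ≤
            Real.exp (M + τ) * Real.exp ((M + τ) * Y i) *
              (K * Real.exp (-((1 - κ - M) * Y i))) +
            Real.exp (M + τ) * Real.exp ((M + τ) * Y i) *
              (K * Real.exp (-((1 - κ - M) * Y i))) := by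
              apply add_le_add
              · exact mul_le_mul (h4.trans e2)
                  (h2.trans (mul_le_mul_of_nonneg_left e4 (by linarith))) (abs_nonneg _)
                  (by positivity)
              · exact mul_le_mul (h5.trans e3) h1 (abs_nonneg _) (by positivity)
        _ = 2 * K * Real.exp (M + τ) * Real.exp (-((1 - κ - M - (M + τ)) * Y i)) := by
            have : Real.exp (-((1 - κ - M - (M + τ)) * Y i)) =
                Real.exp ((M + τ) * Y i) * Real.exp (-((1 - κ - M) * Y i)) := by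
              rw [← Real.exp_add]
              congr 1
              ring
            rw [this]
            ring
        _ < 1 := h3 _ (hX₂3.trans (hYi i))
    have e6 : Q (i + 1) * P i j - Q i * P (i + 1) j = 0 := by
      rw [← Int.cast_abs] at e5
      exact Int.abs_lt_one_iff.1 (by exact_mod_cast e5)
    linarith
  have hall : ∀ i j, Q i * P 0 j = Q 0 * P i j := by
    intro i
    induction i with
    | zero => intro j; rfl
    | succ i ih =>
      intro j
      apply mul_left_cancel₀ (hQ0 i)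
      have h1 := hstep i j
      have h2 := ih j
      linear_combination (Q (i + 1)) * h2 + (Q 0) * h1
  have hlim : ∀ i j, |(Q 0 : ℝ) * z j - P 0 j| ≤
      Real.exp ((M + 2 * τ + δ) * Y 0 - (1 - κ - M) * Y i) := by
    intro i j
    have h1 := hQz i j
    have h2 : (Q i : ℝ) * ((Q 0 : ℝ) * z j - P 0 j) = Q 0 * ((Q i : ℝ) * z j - P i j) := by
      have h3 : (Q i : ℝ) * P 0 j = Q 0 * P i j := by exact_mod_cast hall i j
      linear_combination -h3
    have h3 : 1 ≤ |(Q i : ℝ)| := by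
      rw [← Int.cast_abs]
      exact_mod_cast Int.one_le_abs (hQ0 i)
    have h4 : |(Q 0 : ℝ) * z j - P 0 j| ≤ |(Q i : ℝ)| * |(Q 0 : ℝ) * z j - P 0 j| :=
      le_mul_of_one_le_left (abs_nonneg _) h3
    rw [← abs_mul, h2, abs_mul] at h4
    have hKi : K ≤ Real.exp (τ * Y 0) := hKY _ hY0
    have hδ0 : 1 ≤ Real.exp (δ * Y 0) := Real.one_le_exp (by
      have := hYpos 0
      positivity)
    calc |(Q 0 : ℝ) * z j - P 0 j| ≤ |(Q 0 : ℝ)| * |(Q i : ℝ) * z j - P i j| := h4
      _ ≤ Real.exp ((M + τ) * Y 0) * (Real.exp (τ * Y 0) *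
            Real.exp (-((1 - κ - M) * Y i))) := by
          refine mul_le_mul (hQle 0) (h1.trans ?_) (abs_nonneg _) (Real.exp_pos _).le
          exact mul_le_mul_of_nonneg_right hKi (Real.exp_pos _).le
      _ ≤ Real.exp (δ * Y 0) * (Real.exp ((M + τ) * Y 0) * (Real.exp (τ * Y 0) *
            Real.exp (-((1 - κ - M) * Y i)))) := le_mul_of_one_le_left (by positivity) hδ0
      _ = Real.exp ((M + 2 * τ + δ) * Y 0 - (1 - κ - M) * Y i) := by
          rw [← Real.exp_add, ← Real.exp_add, ← Real.exp_add]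
          congr 1
          ring
  refine ⟨Q 0, P 0, fun j l => -(((∏ s, q 0 s : ℕ) : ℤ) * G j l), hQ0 0, ?_, ?_, ?_⟩
  · refine (hQle 0).trans (Real.exp_le_exp.2 ?_)
    apply mul_le_mul_of_nonneg_right _ (hYpos 0).le
    linarith
  · intro j l
    have hEδ : 1 ≤ Real.exp (δ * Y 0) := Real.one_le_exp (by
      have := hYpos 0
      positivity)
    have e1 : |(G j l : ℝ)| ≤ K * (Real.exp (δ * Y 0) ^ m * Real.exp (δ * Y 0)) := by
      have e2 : (G j l : ℝ) = ∑ s, ((Matrix.of (b 0)).adjugate j s : ℝ) * a 0 s l := by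
        rw [hG]
        push_cast
        rfl
      rw [e2]
      refine (abs_sum_le_sum_abs _ _).trans ?_
      have e3 : ∀ s ∈ (univ : Finset (Fin m)),
          |((Matrix.of (b 0)).adjugate j s : ℝ) * a 0 s l| ≤
            (m.factorial : ℝ) * Real.exp (δ * Y 0) ^ m * Real.exp (δ * Y 0) := by
        intro s _
        rw [abs_mul]
        exact mul_le_mul (adj_bound _ hEδ (fun s l => hb _ s l) j s) (ha 0 s l) (abs_nonneg _)
          (by positivity)
      refine (sum_le_card_nsmul _ _ _ e3).trans (le_of_eq ?_)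
      rw [card_univ, Fintype.card_fin, nsmul_eq_mul, hK]
      ring
    have hKi : K ≤ Real.exp (τ * Y 0) := hKY _ hY0
    have h1τ : 1 ≤ Real.exp (τ * Y 0) := hK1.trans hKi
    rw [Int.cast_neg, abs_neg, Int.cast_mul, Int.cast_natCast, abs_mul, Nat.abs_cast]
    calc ((∏ s, q 0 s : ℕ) : ℝ) * |(G j l : ℝ)| ≤
          Real.exp (κ * Y 0) ^ m * (Real.exp (τ * Y 0) *
            (Real.exp (δ * Y 0) ^ m * Real.exp (δ * Y 0))) := by
            refine mul_le_mul (hprod 0) (e1.trans ?_) (abs_nonneg _) (by positivity)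
            exact mul_le_mul_of_nonneg_right hKi (by positivity)
      _ ≤ Real.exp (τ * Y 0) * (Real.exp (κ * Y 0) ^ m * (Real.exp (τ * Y 0) *
            (Real.exp (δ * Y 0) ^ m * Real.exp (δ * Y 0)))) :=
          le_mul_of_one_le_left (by positivity) h1τ
      _ = Real.exp ((M + 2 * τ + δ) * Y 0) := by
          rw [← Real.exp_nat_mul, ← Real.exp_nat_mul, ← Real.exp_add, ← Real.exp_add,
            ← Real.exp_add, ← Real.exp_add, hM]
          congr 1
          ring
  · intro i j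
    refine le_trans (le_of_eq ?_) (hlim i j)
    congr 1
    have e1 : ∑ l, ((-(((∏ s, q 0 s : ℕ) : ℤ) * G j l) : ℤ) : ℝ) * Real.exp (k l) =
        -(((∏ s, q 0 s : ℕ) : ℝ) * ∑ l, (G j l : ℝ) * Real.exp (k l)) := by
      rw [mul_sum, ← sum_neg_distrib]
      refine sum_congr rfl fun l _ => ?_
      rw [Int.cast_neg, Int.cast_mul, Int.cast_natCast]
      ring
    have e2 : (Q 0 : ℝ) = d₀ * ((∏ s, q 0 s : ℕ) : ℝ) := by
      rw [hQ]
      simp only
      rw [Int.cast_mul, Int.cast_natCast, ← hd₀]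
    simp only [e1]
    rw [hz, e2]
    field_simp
    ring

/-- the criterion -/
theorem span_crit {n m : ℕ} (hn : 1 ≤ n) (hm : 1 ≤ m) (k : Fin n → ℤ) (hk : Function.Injective k)
    (hk0 : ∀ i, k i ≠ 0) {κ δ : ℝ} (hκ : 0 ≤ κ) (hδ : 0 ≤ δ)
    (h : ((n : ℝ) * (m + 1) + m) * (κ + δ) + κ < 1) (ξ : Fin m → ℝ) (X₀ : ℝ)
    (hex : ∀ X, X₀ ≤ X → ∃ a b, AV2 k ξ κ δ X a b) :
    ∀ j, ∃ (r₀ : ℚ) (r : Fin n → ℚ), ξ j = r₀ + ∑ i, (r i : ℝ) * Real.exp (k i) := by
  obtain ⟨X₂, T, c, hX₂, hT, hc, hcore⟩ := chain_core hn hm k hk hk0 hκ hδ h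
  obtain ⟨A, D, F, hA, -, -, hlim⟩ := hcore ξ (fun i => max X₀ X₂ + i)
    (by simp) (fun i => by push_cast; linarith) (fun i => by push_cast; linarith)
    (fun i => hex _ ((le_max_left _ _).trans (by
      have : (0 : ℝ) ≤ i := Nat.cast_nonneg i
      linarith)))
  intro j
  have hAR : (A : ℝ) ≠ 0 := by exact_mod_cast hA
  have h0 : A * ξ j - (D j + ∑ l, (F j l : ℝ) * Real.exp (k l)) = 0 := by
    by_contra hne
    set v := |A * ξ j - (D j + ∑ l, (F j l : ℝ) * Real.exp (k l))| with hv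
    have hv0 : 0 < v := abs_pos.2 hne
    obtain ⟨X₃, hX₃, h3⟩ := no_large hv0 (C := Real.exp (T * (max X₀ X₂)))
      (Real.exp_pos _) hc
    obtain ⟨i, hi⟩ := exists_nat_ge X₃
    have h4 := hlim i j
    have h5 := h3 (max X₀ X₂ + i) (by
      have : 1 ≤ max X₀ X₂ := hX₂.trans (le_max_right _ _)
      linarith)
    rw [← Real.exp_add] at h5
    have h6 : T * (max X₀ X₂ + ((0 : ℕ) : ℝ)) - c * (max X₀ X₂ + i) =
        T * max X₀ X₂ + -(c * (max X₀ X₂ + i)) := by
      push_cast
      ring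
    rw [h6] at h4
    linarith
  refine ⟨(D j : ℚ) / A, fun l => (F j l : ℚ) / A, ?_⟩
  push_cast
  have e1 : ∑ l, (F j l : ℝ) / A * Real.exp (k l) =
      (∑ l, (F j l : ℝ) * Real.exp (k l)) / A := by
    rw [sum_div]
    exact sum_congr rfl fun l _ => by ring
  rw [e1, ← add_div, eq_div_iff hAR]
  linarith

end Run7.h432.EP
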