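import Pool.Agent.Run7.h432.EP.Sub2
import Pool.Agent.W472.AC.EMeas2

set_option autoImplicit false

/-!
# Several arbitrary real numbers: products of one number with powers of `e`
-/

namespace Run7.h432.EP

open Finset Polynomial

theorem aux_eval {N : ℕ} (F : Fin N → ℤ) (k : Fin N → ℤ) (u : ℤ) (hu : ∀ i, 0 ≤ u + k i) :
    aeval (Real.exp 1) (∑ i, C (F i) * X ^ (u + k i).toNat : ℤ[X]) =
      Real.exp u * ∑ i, (F i : ℝ) * Real.exp (k i) := by
  rw [map_sum, mul_sum]
  refine sum_congr rfl fun i _ => ?_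
  rw [map_mul, map_pow, aeval_X, aeval_C, algebraMap_int_eq, eq_intCast, ← Real.exp_nat_mul]
  have h1 : (((u + k i).toNat : ℕ) : ℝ) = u + k i := by
    have := Int.toNat_of_nonneg (hu i)
    have h2 : ((((u + k i).toNat : ℕ) : ℤ) : ℝ) = ((u + k i : ℤ) : ℝ) := by rw [this]
    push_cast at h2
    exact h2
  rw [h1, mul_one, Real.exp_add]
  ring

theorem aux_coeff {N : ℕ} (F : Fin N → ℤ) (e : Fin N → ℕ) (r : ℕ) :
    (∑ i, C (F i) * X ^ (e i) : ℤ[X]).coeff r = ∑ i, if r = e i then F i else 0 := by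
  rw [finset_sum_coeff]
  refine sum_congr rfl fun i _ => ?_
  rw [coeff_C_mul, coeff_X_pow]
  split_ifs <;> simp

theorem shifts {n m : ℕ} (hn : 1 ≤ n) (hnm : n + 2 ≤ m) (k : Fin n → ℤ)
    (hk : Function.Injective k) (hk0 : ∀ i, k i ≠ 0) (l : Fin m → ℤ) (hl : Function.Injective l)
    {κ δ : ℝ} (hκ : 0 ≤ κ) (hδ : 0 ≤ δ) (h : ((n : ℝ) * (m + 1) + m) * (κ + δ) + κ < 1) :
    ∃ L : ℝ, ∀ ξ : ℝ, ξ ≠ 0 → ∃ X₁ : ℝ, ∀ X : ℝ, X₁ ≤ X → ∃ Y : ℝ, X ≤ Y ∧ Y ≤ L * X ∧
      ∀ a b, ¬ AV2 k (fun j => ξ * Real.exp (l j)) κ δ Y a b := by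
  obtain ⟨X₂, T, c, hX₂, hT, hc, hcore⟩ := chain_core hn (by omega : 1 ≤ m) k hk hk0 hκ hδ h
  have hnR : (1 : ℝ) ≤ n := by exact_mod_cast hn
  obtain ⟨W, hWk, hWl⟩ : ∃ W : ℕ, (∀ i, |k i| ≤ W) ∧ ∀ j, |l j| ≤ W := by
    refine ⟨∑ i, (k i).natAbs + ∑ j, (l j).natAbs, fun i => ?_, fun j => ?_⟩
    · have h1 : (k i).natAbs ≤ ∑ i, (k i).natAbs :=
        single_le_sum (f := fun i => (k i).natAbs) (fun _ _ => Nat.zero_le _) (mem_univ i)
      push_cast
      have h2 : ((k i).natAbs : ℤ) ≤ ((∑ i, (k i).natAbs : ℕ) : ℤ) := by exact_mod_cast h1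
      have h3 : 0 ≤ ∑ j, |l j| := sum_nonneg fun _ _ => abs_nonneg _
      push_cast at h2
      linarith
    · have h1 : (l j).natAbs ≤ ∑ j, (l j).natAbs :=
        single_le_sum (f := fun i => (l i).natAbs) (fun _ _ => Nat.zero_le _) (mem_univ j)
      push_cast
      have h2 : ((l j).natAbs : ℤ) ≤ ((∑ i, (l i).natAbs : ℕ) : ℤ) := by exact_mod_cast h1
      have h3 : 0 ≤ ∑ j, |k j| := sum_nonneg fun _ _ => abs_nonneg _
      push_cast at h2
      linarith
  obtain ⟨c₁, hc₁, hmeas⟩ := Pool.Agent.W472.AC.e_measP (4 * W) 1 one_pos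
  set ν : ℝ := ((4 * W : ℕ) : ℝ) + 1 with hν
  have hν0 : 0 ≤ ν := by positivity
  set L : ℝ := 1 + (ν * (T + 2) + T + 2 + c) / c with hL
  have hLc : c * (L - 1) = ν * (T + 2) + T + 2 + c := by
    rw [hL]
    field_simp
    ring
  have hL1 : 1 ≤ L := by
    rw [hL]
    have : 0 ≤ (ν * (T + 2) + T + 2 + c) / c := by positivity
    linarith
  refine ⟨L, fun ξ hξ => ?_⟩
  set S : ℝ := Real.exp W with hS
  have hS1 : 1 ≤ S := Real.one_le_exp (by positivity)
  have hξ0 : 0 < |ξ| := abs_pos.2 hξ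
  set E₀ : ℝ := (|ξ| + n + 1) * S with hE₀
  have hE₀1 : 1 ≤ E₀ := one_le_mul_of_one_le_of_one_le (by linarith) hS1
  obtain ⟨X₄, hX₄, h4⟩ := no_large hc₁ (C := 2 * S ^ 3) (by positivity) one_pos
  obtain ⟨X₅, hX₅, h5⟩ := no_large hξ0 (C := S) (by positivity) one_pos
  set X₆ := Real.log (2 * (n + 1) * E₀) with hX₆
  refine ⟨max (max X₂ X₄) (max X₅ X₆), fun X hX => ?_⟩
  have hXX₂ : X₂ ≤ X := (le_max_left _ _).trans ((le_max_left _ _).trans hX)
  have hXX₄ : X₄ ≤ X := (le_max_right _ _).trans ((le_max_left _ _).trans hX)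
  have hXX₅ : X₅ ≤ X := (le_max_left _ _).trans ((le_max_right _ _).trans hX)
  have hXX₆ : X₆ ≤ X := (le_max_right _ _).trans ((le_max_right _ _).trans hX)
  have hX1 : 1 ≤ X := hX₂.trans hXX₂
  have h4 := h4 X hXX₄
  have h5 := h5 X hXX₅
  have h6 : 2 * ((n : ℝ) + 1) * E₀ ≤ Real.exp X := by
    rw [← Real.log_le_iff_le_exp (by positivity)]
    exact hXX₆
  by_contra hcon
  push Not at hcon
  -- the sequence of scales
  set N := ⌊(L - 1) * X⌋₊ with hN
  have hL10 : 0 ≤ (L - 1) * X := mul_nonneg (by linarith) (by linarith)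
  have hN1 : (N : ℝ) ≤ (L - 1) * X := Nat.floor_le hL10
  have hN2 : (L - 1) * X < N + 1 := Nat.lt_floor_add_one _
  obtain ⟨A, D, F, hA, hAX, hFX, hlim⟩ := hcore (fun j => ξ * Real.exp (l j))
    (fun i => X + (min i N : ℕ)) (by simpa using hXX₂)
    (fun i => by
      have : min i N ≤ min (i + 1) N := min_le_min_right _ (Nat.le_succ i)
      have h' : ((min i N : ℕ) : ℝ) ≤ ((min (i + 1) N : ℕ) : ℝ) := by exact_mod_cast this
      linarith)
    (fun i => by
      have : min (i + 1) N ≤ min i N + 1 := by omega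
      have h' : ((min (i + 1) N : ℕ) : ℝ) ≤ ((min i N + 1 : ℕ) : ℝ) := by exact_mod_cast this
      push_cast at h' ⊢
      linarith)
    (fun i => by
      have h1 : ((min i N : ℕ) : ℝ) ≤ N := by exact_mod_cast min_le_right i N
      have h2 : (0 : ℝ) ≤ ((min i N : ℕ) : ℝ) := Nat.cast_nonneg _
      exact hcon _ (by linarith) (by linarith))
  simp only [Nat.zero_min, Nat.cast_zero, add_zero] at hAX hFX hlim
  have hAR : 1 ≤ |(A : ℝ)| := by
    rw [← Int.cast_abs]
    exact_mod_cast Int.one_le_abs hA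
  set ε := Real.exp (-((ν * (T + 2) + 2) * X)) with hε
  have hε1 : ε ≤ Real.exp (-X) := by
    apply Real.exp_le_exp.2
    nlinarith [mul_nonneg (mul_nonneg hν0 (by linarith : (0 : ℝ) ≤ T + 2)) (by linarith : (0 : ℝ) ≤ X)]
  have hεn : ∀ j, |A * (ξ * Real.exp (l j)) - (D j + ∑ i, (F j i : ℝ) * Real.exp (k i))| ≤ ε := by
    intro j
    refine (hlim N j).trans (Real.exp_le_exp.2 ?_)
    rw [min_self]
    have h1 : c * (X + N) ≥ c * ((L - 1) * X) + c * X - c := by nlinarith
    have h2 : c * ((L - 1) * X) = (ν * (T + 2) + T + 2 + c) * X := by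
      rw [← mul_assoc, hLc]
    nlinarith
  -- the polynomials
  have hlW : ∀ j, -(W : ℝ) ≤ l j ∧ (l j : ℝ) ≤ W := fun j => by
    have h1 := abs_le.1 (hWl j)
    exact ⟨by exact_mod_cast h1.1, by exact_mod_cast h1.2⟩
  have hkW : ∀ i, -(W : ℝ) ≤ k i ∧ (k i : ℝ) ≤ W := fun j => by
    have h1 := abs_le.1 (hWk j)
    exact ⟨by exact_mod_cast h1.1, by exact_mod_cast h1.2⟩
  set k' : Fin (n + 1) → ℤ := Fin.cons 0 k with hk'
  set F' : Fin m → Fin (n + 1) → ℤ := fun j => Fin.cons (D j) (F j) with hF'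
  have hk'W : ∀ i, -(W : ℤ) ≤ k' i ∧ k' i ≤ W := by
    intro i
    refine Fin.cases ?_ (fun i => ?_) i
    · rw [hk', Fin.cons_zero]
      constructor <;> omega
    · rw [hk', Fin.cons_succ]
      exact abs_le.1 (hWk i)
  have hlW' : ∀ j, -(W : ℤ) ≤ l j ∧ l j ≤ W := fun j => abs_le.1 (hWl j)
  set R : Fin m → ℤ[X] := fun j => ∑ i, C (F' j i) * Polynomial.X ^ (2 * W - l j + k' i).toNat with hR
  have hsum : ∀ j, ∑ i, (F' j i : ℝ) * Real.exp (k' i) =
      D j + ∑ i, (F j i : ℝ) * Real.exp (k i) := by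
    intro j
    rw [Fin.sum_univ_succ, hk', hF']
    simp
  have hReval : ∀ j, aeval (Real.exp 1) (R j) =
      Real.exp ((2 * W - l j : ℤ) : ℝ) * (D j + ∑ i, (F j i : ℝ) * Real.exp (k i)) := by
    intro j
    rw [← hsum, hR]
    exact aux_eval (F' j) k' (2 * W - l j) (fun i => by
      have h1 := hk'W i
      have h2 := hlW' j
      omega)
  have hRclose : ∀ j, |aeval (Real.exp 1) (R j) - A * ξ * Real.exp (2 * W)| ≤ S ^ 3 * ε := by
    intro j
    rw [hReval]
    have e1 : Real.exp ((2 * W - l j : ℤ) : ℝ) = Real.exp (2 * W) * Real.exp (-(l j : ℝ)) := by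
      rw [← Real.exp_add]
      congr 1
      push_cast
      ring
    have e2 : Real.exp ((2 * W - l j : ℤ) : ℝ) * (D j + ∑ i, (F j i : ℝ) * Real.exp (k i)) -
        A * ξ * Real.exp (2 * W) = -(Real.exp ((2 * W - l j : ℤ) : ℝ) *
          (A * (ξ * Real.exp (l j)) - (D j + ∑ i, (F j i : ℝ) * Real.exp (k i)))) := by
      have e3 : Real.exp (-(l j : ℝ)) * Real.exp (l j) = 1 := by
        rw [← Real.exp_add]
        simp
      rw [e1]
      linear_combination (A * ξ * Real.exp (2 * W)) * e3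
    have e4 : Real.exp ((2 * W - l j : ℤ) : ℝ) ≤ S ^ 3 := by
      rw [hS, ← Real.exp_nat_mul]
      apply Real.exp_le_exp.2
      push_cast
      have := (hlW j).1
      linarith
    rw [e2, abs_neg, abs_mul, abs_of_pos (Real.exp_pos _)]
    exact mul_le_mul e4 (hεn j) (abs_nonneg _) (by positivity)
  set H₀ : ℝ := Real.exp (T * X) * E₀ with hH₀
  have hTX1 : 1 ≤ Real.exp (T * X) := Real.one_le_exp (by positivity)
  have hF0 : ∀ j i, |(F j i : ℝ)| ≤ H₀ := fun j i =>
    (hFX j i).trans (le_mul_of_one_le_right (by positivity) hE₀1)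
  have hε2 : ε ≤ 1 := hε1.trans (Real.exp_le_one_iff.2 (by linarith))
  have hD0 : ∀ j, |(D j : ℝ)| ≤ H₀ := by
    intro j
    have h1 := hεn j
    have e1 : (D j : ℝ) = A * (ξ * Real.exp (l j)) - ∑ i, (F j i : ℝ) * Real.exp (k i) -
        (A * (ξ * Real.exp (l j)) - (D j + ∑ i, (F j i : ℝ) * Real.exp (k i))) := by ring
    have e2 : |A * (ξ * Real.exp (l j))| ≤ Real.exp (T * X) * (|ξ| * S) := by
      rw [abs_mul, abs_mul, abs_of_pos (Real.exp_pos _)]
      have h2 : Real.exp (l j : ℝ) ≤ S := Real.exp_le_exp.2 (hlW j).2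
      gcongr
    have e3 : |∑ i, (F j i : ℝ) * Real.exp (k i)| ≤ Real.exp (T * X) * (n * S) := by
      refine (abs_sum_le_sum_abs _ _).trans ?_
      have h2 : ∀ i ∈ (univ : Finset (Fin n)), |(F j i : ℝ) * Real.exp (k i)| ≤
          Real.exp (T * X) * S := by
        intro i _
        rw [abs_mul, abs_of_pos (Real.exp_pos _)]
        have h3 : Real.exp (k i : ℝ) ≤ S := Real.exp_le_exp.2 (hkW i).2
        exact mul_le_mul (hFX j i) h3 (Real.exp_pos _).le (Real.exp_pos _).le
      refine (sum_le_card_nsmul _ _ _ h2).trans (le_of_eq ?_)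
      rw [card_univ, Fintype.card_fin, nsmul_eq_mul]
      ring
    have e4 : (1 : ℝ) ≤ Real.exp (T * X) * S := one_le_mul_of_one_le_of_one_le hTX1 hS1
    rw [e1]
    refine (abs_sub _ _).trans ?_
    refine (add_le_add (abs_sub _ _) h1).trans ?_
    have e5 : H₀ = Real.exp (T * X) * (|ξ| * S) + Real.exp (T * X) * (n * S) +
        Real.exp (T * X) * S := by
      rw [hH₀, hE₀]
      ring
    rw [e5]
    linarith
  have hF'0 : ∀ j i, |(F' j i : ℝ)| ≤ H₀ := by
    intro j i
    refine Fin.cases ?_ (fun i => ?_) i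
    · simpa [hF'] using hD0 j
    · simpa [hF'] using hF0 j i
  have hcoef : ∀ j r, |((R j).coeff r : ℝ)| ≤ (n + 1) * H₀ := by
    intro j r
    rw [hR]
    simp only
    rw [aux_coeff, Int.cast_sum]
    refine (abs_sum_le_sum_abs _ _).trans ?_
    have h1 : ∀ i ∈ (univ : Finset (Fin (n + 1))),
        |((if r = (2 * W - l j + k' i).toNat then F' j i else 0 : ℤ) : ℝ)| ≤ H₀ := by
      intro i _
      split_ifs
      · exact hF'0 j i
      · rw [Int.cast_zero, abs_zero]
        positivity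
    refine (sum_le_card_nsmul _ _ _ h1).trans (le_of_eq ?_)
    rw [card_univ, Fintype.card_fin, nsmul_eq_mul]
    push_cast
    ring
  have hdeg : ∀ j, (R j).natDegree ≤ 4 * W := by
    intro j
    rw [natDegree_le_iff_coeff_eq_zero]
    intro r hr
    rw [hR]
    simp only
    rw [aux_coeff]
    apply sum_eq_zero
    intro i _
    rw [if_neg]
    have h1 := hk'W i
    have h2 := hlW' j
    omega
  have j₀ : Fin m := ⟨0, by omega⟩
  -- the polynomials coincide
  have hReq : ∀ j, R j = R j₀ := by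
    intro j
    by_contra hne
    have hne' : R j - R j₀ ≠ 0 := sub_ne_zero.2 hne
    set H : ℝ := 2 * ((n + 1) * H₀) with hH
    have hH₀1 : 1 ≤ H₀ := one_le_mul_of_one_le_of_one_le hTX1 hE₀1
    have hH1 : 1 ≤ H := by
      rw [hH]
      nlinarith
    have h1 := hmeas (R j - R j₀) hne' ((natDegree_sub_le _ _).trans (max_le (hdeg j) (hdeg j₀)))
      H hH1 (fun r => by
        rw [coeff_sub, Int.cast_sub]
        refine (abs_sub _ _).trans ?_
        have h2 := hcoef j r
        have h3 := hcoef j₀ r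
        linarith)
    have h2 : |aeval (Real.exp 1) (R j - R j₀)| ≤ 2 * (S ^ 3 * ε) := by
      rw [map_sub]
      have h3 := hRclose j
      have h4 := hRclose j₀
      have e1 : aeval (Real.exp 1) (R j) - aeval (Real.exp 1) (R j₀) =
          (aeval (Real.exp 1) (R j) - A * ξ * Real.exp (2 * W)) -
            (aeval (Real.exp 1) (R j₀) - A * ξ * Real.exp (2 * W)) := by ring
      rw [e1]
      refine (abs_sub _ _).trans ?_
      linarith
    have h3 : H ≤ Real.exp ((T + 2) * X) := by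
      calc H = Real.exp (T * X) * (2 * (n + 1) * E₀) := by rw [hH, hH₀]; ring
        _ ≤ Real.exp (T * X) * Real.exp X := by gcongr
        _ ≤ Real.exp ((T + 2) * X) := by
            rw [← Real.exp_add]
            apply Real.exp_le_exp.2
            linarith
    have h6 : H ^ ν ≤ Real.exp (ν * (T + 2) * X) := by
      calc H ^ ν ≤ Real.exp ((T + 2) * X) ^ ν := Real.rpow_le_rpow (by linarith) h3 hν0
        _ = Real.exp (ν * (T + 2) * X) := by
            rw [← Real.exp_mul]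
            congr 1
            ring
    have h7 : c₁ ≤ 2 * S ^ 3 * Real.exp (-(1 * X)) := by
      calc c₁ ≤ H ^ ν * |aeval (Real.exp 1) (R j - R j₀)| := h1
        _ ≤ Real.exp (ν * (T + 2) * X) * (2 * (S ^ 3 * ε)) := by gcongr
        _ = 2 * S ^ 3 * (Real.exp (ν * (T + 2) * X) * ε) := by ring
        _ ≤ 2 * S ^ 3 * Real.exp (-(1 * X)) := by
            apply mul_le_mul_of_nonneg_left _ (by positivity)
            rw [hε, ← Real.exp_add]
            apply Real.exp_le_exp.2
            linarith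
    linarith
  by_cases hz : R j₀ = 0
  · have h1 := hRclose j₀
    rw [hz, map_zero, zero_sub, abs_neg, abs_mul, abs_mul, abs_of_pos (Real.exp_pos _)] at h1
    have e1 : Real.exp (2 * W) = S ^ 2 := by
      rw [hS, ← Real.exp_nat_mul]
      push_cast
      ring_nf
    rw [e1] at h1
    have h2 : |ξ| * S ^ 2 ≤ |(A : ℝ)| * |ξ| * S ^ 2 := by
      rw [mul_assoc]
      exact le_mul_of_one_le_left (by positivity) hAR
    have h3 : |ξ| * S ^ 2 ≤ (S * ε) * S ^ 2 := by
      refine (h2.trans h1).trans (le_of_eq ?_)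
      ring
    have h6 : |ξ| ≤ S * ε := le_of_mul_le_mul_right h3 (by positivity)
    have h7 : S * ε ≤ S * Real.exp (-(1 * X)) := by
      rw [one_mul]
      exact mul_le_mul_of_nonneg_left hε1 (by positivity)
    linarith
  · obtain ⟨r, hr⟩ : ∃ r, (R j₀).coeff r ≠ 0 := by
      by_contra hcon2
      push Not at hcon2
      exact hz (Polynomial.ext fun r => by rw [hcon2 r, coeff_zero])
    have hex : ∀ j, ∃ i, (2 * W - l j + k' i).toNat = r := by
      intro j
      by_contra hcon2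
      push Not at hcon2
      apply hr
      rw [← hReq j, hR]
      simp only
      rw [aux_coeff]
      exact sum_eq_zero fun i _ => if_neg fun h => hcon2 i h.symm
    choose g hg using hex
    have hinj : Function.Injective g := by
      intro j j' hjj
      apply hl
      have h1 := hg j
      have h2 := hg j'
      rw [hjj] at h1
      have h3 := hk'W (g j')
      have h4 := hlW' j
      have h5 := hlW' j'
      omega
    have := Fintype.card_le_of_injective g hinj
    rw [Fintype.card_fin, Fintype.card_fin] at this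
    omega

end Run7.h432.EP
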